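import Pool.Agent.H592R2.DefsM1

/-! Weighted satisfiability for formulas of fixed alternation depth, as parameterized problems
over binary strings. -/

namespace Pool.Agent.H68WH

open Finset Classical
open Pool.Agent.H592R2 (ParamProblem ParaAC0Red Fml bitN lead)

noncomputable section

/-- fan-in and number of variables of a formula with `T` levels of gates that is encoded by a body
of `m` bits: the largest `s` with `2 * s ^ T ≤ m` -/
def sN (T m : ℕ) : ℕ := Nat.findGreatest (fun s => 2 * s ^ T ≤ m) m

/-- the number `s` for the string `x = 1^k 0 y` -/
def fan (T : ℕ) {n : ℕ} (x : Fin n → Bool) : ℕ := sN T (n - (lead x + 1))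

/-- in the formula encoded by the string `x = 1^k 0 y`, the literal `(j, b)` (the variable `X_j` if
`b = true`, and its negation if `b = false`) occurs in the bottom gate number `i` -/
def litAt (T : ℕ) {n : ℕ} (x : Fin n → Bool) (i j : ℕ) (b : Bool) : Prop :=
  bitN x (lead x + 1 + (i * (2 * fan T x) + (2 * j + (if b then 0 else 1)))) = true

/-- value of the conjunction (`β = true`) or disjunction (`β = false`) of the literals `(j, b)`,
`j < s`, given by `lit`, under the assignment whose true variables are those in `V` -/
def botL (s : ℕ) (lit : ℕ → Bool → Prop) (V : Finset ℕ) (β : Bool) : Prop :=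
  if β = true then ∀ j < s, ∀ b : Bool, lit j b → (j ∈ V ↔ b = true)
  else ∃ j < s, ∃ b : Bool, lit j b ∧ (j ∈ V ↔ b = true)

/-- value of the gate number `i` at height `n` above the leaves: all gates have fan-in `s`, the
children of gate number `i` are the gates number `i * s + a` (`a < s`) one level below;
conjunctions (`true`) and disjunctions (`false`) alternate -/
def gate (s : ℕ) (leaf : Bool → ℕ → Prop) : ℕ → Bool → ℕ → Prop
  | 0, β, i => leaf β i
  | n + 1, true, i => ∀ a < s, gate s leaf n false (i * s + a)
  | n + 1, false, i => ∃ a < s, gate s leaf n true (i * s + a)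

/-- the variables that occur in the formula encoded by `x` -/
def vars (T : ℕ) {n : ℕ} (x : Fin n → Bool) : Finset ℕ :=
  (Finset.range (fan T x)).filter (fun j => ∃ i < fan T x ^ (T - 1), ∃ b, litAt T x i j b)

/-- `p-WSAT(Γ_{T,1})`: the string `x = 1^k 0 y` encodes `k` and a formula with `T` alternating
levels of gates, the topmost being a conjunction; is there a satisfying assignment of the
variables of the formula which sets exactly `k` variables to true? The parameter is `k`. -/
def pWSAT (T : ℕ) : ParamProblem where
  Q := fun _ x => ∃ V ⊆ vars T x, V.card = lead x ∧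
    gate (fan T x) (fun β i => botL (fan T x) (litAt T x i) V β) (T - 1) true 0
  κ := fun _ x => lead x

/-- the set of literals of clause number `i` -/
def clause {n : ℕ} (x : Fin n → Bool) (i : ℕ) : Finset (ℕ × Bool) :=
  ((Finset.range (fan 2 x)) ×ˢ (Finset.univ : Finset Bool)).filter (fun l => litAt 2 x i l.1 l.2)

/-- `p-WSAT(Γ_{1,d})`: the string encodes `k` and a CNF formula all of whose clauses have at most
`d` literals; is there a satisfying assignment of the variables of the formula which sets exactly
`k` variables to true? The parameter is `k`. -/
def pWSATd (d : ℕ) : ParamProblem where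
  Q := fun _ x => (∀ i < fan 2 x, (clause x i).card ≤ d) ∧ (pWSAT 2).Q _ x
  κ := fun _ x => lead x

end

end Pool.Agent.H68WH
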