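import Mathlib

set_option linter.unusedSectionVars false

/-! Dense sets of choice functions contain all local patterns around some partial choice. -/

namespace Pool.Agent.H68WH

open Finset Classical

noncomputable section

variable {R J : Type} [Fintype R] [DecidableEq R] [Fintype J] [DecidableEq J]

/-- members of `I` that agree with `γ` on `D` -/
def agr (I : Finset (R → J)) (D : Finset R) (γ : R → J) : Finset (R → J) :=
  I.filter (fun β => ∀ ρ ∈ D, β ρ = γ ρ)

lemma card_box (D : Finset R) (γ : R → J) :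
    (Fintype.piFinset (fun ρ => if ρ ∈ D then {γ ρ} else (Finset.univ : Finset J))).card =
      Fintype.card J ^ (Fintype.card R - D.card) := by
  rw [Fintype.card_piFinset]
  have h1 : ∀ ρ : R, (if ρ ∈ D then {γ ρ} else (Finset.univ : Finset J)).card =
      if ρ ∈ D then 1 else Fintype.card J := by
    intro ρ; split_ifs <;> simp [Finset.card_univ]
  simp only [h1]
  rw [Finset.prod_ite]
  simp only [Finset.prod_const_one, one_mul, Finset.prod_const]
  congr 1
  rw [Finset.filter_not, Finset.card_sdiff_of_subset (Finset.filter_subset _ _), Finset.card_univ]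
  simp

lemma card_agr_le (I : Finset (R → J)) (D : Finset R) (γ : R → J) :
    (agr I D γ).card ≤ Fintype.card J ^ (Fintype.card R - D.card) := by
  rw [← card_box D γ]
  apply Finset.card_le_card
  intro β hβ
  rw [agr, Finset.mem_filter] at hβ
  rw [Fintype.mem_piFinset]
  intro ρ
  split_ifs with h
  · rw [Finset.mem_singleton]; exact hβ.2 ρ h
  · exact Finset.mem_univ _

lemma agr_step (I : Finset (R → J)) (D R' : Finset R) (γ π : R → J) (hd : Disjoint R' D)
    (hmiss : ∀ β ∈ agr I D γ, ¬ ∀ ρ ∈ R', β ρ = π ρ) :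
    ∃ γ' : R → J, (∀ ρ ∈ D, γ' ρ = γ ρ) ∧
      (agr I D γ).card ≤ (agr I (D ∪ R') γ').card * (Fintype.card J ^ R'.card - 1) := by
  set f : (R → J) → (R → J) := fun β ρ => if ρ ∈ R' then β ρ else γ ρ with hf
  by_cases he : (agr I D γ) = ∅
  · exact ⟨γ, fun _ _ => rfl, by rw [he]; simp⟩
  have hne : ((agr I D γ).image f).Nonempty :=
    (Finset.nonempty_iff_ne_empty.mpr he).image f
  obtain ⟨γ', hγ', hmax⟩ := Finset.exists_max_image ((agr I D γ).image f)
    (fun a => ((agr I D γ).filter (fun x => f x = a)).card) hne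
  have hγ'D : ∀ ρ, ρ ∉ R' → γ' ρ = γ ρ := by
    intro ρ hρ
    rw [Finset.mem_image] at hγ'
    obtain ⟨β, -, rfl⟩ := hγ'
    simp [hf, hρ]
  refine ⟨γ', fun ρ hρ => hγ'D ρ (Finset.disjoint_right.mp hd hρ), ?_⟩
  have h1 := Finset.card_le_mul_card_image (f := f) (agr I D γ)
    ((agr I D γ).filter (fun x => f x = γ')).card hmax
  refine h1.trans (Nat.mul_le_mul ?_ ?_)
  · apply Finset.card_le_card
    intro β hβ
    rw [Finset.mem_filter, agr, Finset.mem_filter] at hβ
    rw [agr, Finset.mem_filter]
    refine ⟨hβ.1.1, fun ρ hρ => ?_⟩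
    by_cases hR : ρ ∈ R'
    · rw [← hβ.2]; simp [hf, hR]
    · have hD : ρ ∈ D := by
        rcases Finset.mem_union.mp hρ with h | h
        · exact h
        · exact absurd h hR
      rw [hβ.1.2 ρ hD, hγ'D ρ hR]
  · have hsub : (agr I D γ).image f ⊆
        (Fintype.piFinset (fun ρ => if ρ ∈ (Finset.univ \ R') then {γ ρ}
          else (Finset.univ : Finset J))).erase (f π) := by
      intro δ hδ
      rw [Finset.mem_image] at hδ
      obtain ⟨β, hβ, rfl⟩ := hδ
      rw [Finset.mem_erase]
      constructor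
      · intro heq
        apply hmiss β hβ
        intro ρ hρ
        have := congrFun heq ρ
        simpa [hf, hρ] using this
      · rw [Fintype.mem_piFinset]
        intro ρ
        by_cases hρ : ρ ∈ R'
        · simp [hρ]
        · simp [hf, hρ]
    refine (Finset.card_le_card hsub).trans ?_
    rw [Finset.card_erase_of_mem, card_box]
    · apply Nat.sub_le_sub_right
      apply le_of_eq
      congr 1
      have h2 : R'.card ≤ Fintype.card R := Finset.card_le_univ _
      rw [Finset.card_univ_sdiff]
      omega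
    · rw [Fintype.mem_piFinset]
      intro ρ
      by_cases hρ : ρ ∈ R'
      · simp [hρ]
      · simp [hf, hρ]

lemma dense_aux (I : Finset (R → J)) (r : ℕ) (hq : 1 ≤ Fintype.card J) :
    ∀ (L : ℕ) (D : Finset R) (γ : R → J), D.card + (r + 1) * L < Fintype.card R →
      (Fintype.card J : ℝ) ^ (Fintype.card R - D.card) <
        (agr I D γ).card * (1 + 1 / (Fintype.card J : ℝ) ^ (r + 1)) ^ L →
      ∃ (D' : Finset R) (γ' : R → J), D'.card < Fintype.card R ∧
        ∀ R' : Finset R, R'.card ≤ r + 1 → Disjoint R' D' → ∀ π : R → J,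
          ∃ β ∈ agr I D' γ', ∀ ρ ∈ R', β ρ = π ρ := by
  intro L
  induction L with
  | zero =>
    intro D γ _ h
    exfalso
    have := card_agr_le I D γ
    have h2 : ((agr I D γ).card : ℝ) ≤ (Fintype.card J : ℝ) ^ (Fintype.card R - D.card) := by
      exact_mod_cast this
    rw [pow_zero, mul_one] at h
    linarith
  | succ L ih =>
    intro D γ hD h
    by_cases hall : ∀ R' : Finset R, R'.card ≤ r + 1 → Disjoint R' D → ∀ π : R → J,
          ∃ β ∈ agr I D γ, ∀ ρ ∈ R', β ρ = π ρ
    · exact ⟨D, γ, by omega, hall⟩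
    · push Not at hall
      obtain ⟨R', hR', hd, π, hmiss⟩ := hall
      obtain ⟨γ', -, hcard⟩ := agr_step I D R' γ π hd (by
        intro β hβ hc
        obtain ⟨ρ, hρ, hne⟩ := hmiss β hβ
        exact hne (hc ρ hρ))
      have hcD : (D ∪ R').card = D.card + R'.card :=
        Finset.card_union_of_disjoint hd.symm
      have hlt : (D ∪ R').card + (r + 1) * L < Fintype.card R := by
        rw [hcD]
        have : (r + 1) * (L + 1) = (r + 1) * L + (r + 1) := by ring
        omega
      refine ih (D ∪ R') γ' hlt ?_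
      have hq0 : (0:ℝ) < Fintype.card J := by exact_mod_cast hq
      have hq1 : (1:ℝ) ≤ Fintype.card J := by exact_mod_cast hq
      set q : ℝ := (Fintype.card J : ℝ) with hqdef
      have hsplit : q ^ (Fintype.card R - D.card) =
          q ^ (Fintype.card R - (D ∪ R').card) * q ^ R'.card := by
        rw [← pow_add]; congr 1
        omega
      set a : ℝ := ((agr I D γ).card : ℝ) with ha
      set a' : ℝ := ((agr I (D ∪ R') γ').card : ℝ) with ha'
      have ha'0 : 0 ≤ a' := Nat.cast_nonneg _
      have h3 : a ≤ a' * (q ^ R'.card - 1) := by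
        have h4 : 1 ≤ Fintype.card J ^ R'.card := Nat.one_le_pow _ _ hq
        have : ((Fintype.card J ^ R'.card - 1 : ℕ) : ℝ) = q ^ R'.card - 1 := by
          rw [Nat.cast_sub h4]; push_cast; rfl
        rw [← this, ha, ha']
        exact_mod_cast hcard
      set δ : ℝ := 1 / q ^ (r + 1) with hδ
      have hδ0 : 0 ≤ δ := by positivity
      have hqR : 0 < q ^ R'.card := by positivity
      have hqr : q ^ R'.card ≤ q ^ (r + 1) := pow_le_pow_right₀ hq1 hR'
      have hδq : δ * q ^ R'.card ≤ 1 := by
        rw [hδ, div_mul_eq_mul_div, one_mul, div_le_one (by positivity)]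
        exact hqr
      rw [hsplit] at h
      have hpw : 0 ≤ (1 + δ) ^ L := by positivity
      have h5 : a * (1 + δ) ^ (L + 1) ≤ a' * (1 + δ) ^ L * q ^ R'.card := by
        calc a * (1 + δ) ^ (L + 1) ≤ (a' * (q ^ R'.card - 1)) * (1 + δ) ^ (L + 1) :=
              mul_le_mul_of_nonneg_right h3 (by positivity)
          _ = a' * (1 + δ) ^ L * ((q ^ R'.card - 1) * (1 + δ)) := by ring
          _ ≤ a' * (1 + δ) ^ L * q ^ R'.card := by
              apply mul_le_mul_of_nonneg_left _ (by positivity)
              nlinarith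
      have h6 := lt_of_lt_of_le h h5
      exact lt_of_mul_lt_mul_right h6 hqR.le

/-- locality of a predicate of partial choice functions -/
structure LocJ (r : ℕ) (h : (R → Option J) → Prop) : Prop where
  ex : ∃ (Rh : Finset R) (Jh : Finset J), Rh.card ≤ r ∧ Jh.card < Fintype.card J ∧
    (∀ β β' : R → Option J, (∀ ρ ∈ Rh, β ρ = β' ρ) → h β → h β') ∧
    (∀ (β : R → Option J) (ρ : R) (j : J), j ∉ Jh → β ρ = some j → h β →
      h (Function.update β ρ none))

/-- The final lemma: if every full choice function is accepted by some certificate, where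
acceptance is a conjunction of local predicates, then some certificate accepts a choice function
that is undefined at exactly one place. -/
theorem final_lemma {Ct : Type} [Fintype Ct] [Nonempty J] (r L : ℕ)
    (H : Ct → Set ((R → Option J) → Prop))
    (hloc : ∀ c, ∀ h ∈ H c, LocJ r h)
    (hR : (r + 1) * L < Fintype.card R)
    (hL : (Fintype.card Ct : ℝ) < (1 + 1 / (Fintype.card J : ℝ) ^ (r + 1)) ^ L)
    (hall : ∀ β : R → J, ∃ c, ∀ h ∈ H c, h (fun ρ => some (β ρ))) :
    ∃ (c : Ct) (γ : R → J) (ρ : R), ∀ h ∈ H c,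
      h (Function.update (fun ρ => some (γ ρ)) ρ none) := by
  have hq : 1 ≤ Fintype.card J := Fintype.card_pos
  choose cf hcf using hall
  -- a popular certificate
  have hpop : ∃ c : Ct, (Fintype.card J : ℝ) ^ Fintype.card R <
      ((Finset.univ.filter (fun β : R → J => cf β = c)).card : ℝ) *
        (1 + 1 / (Fintype.card J : ℝ) ^ (r + 1)) ^ L := by
    by_contra hcon
    push Not at hcon
    have hsum : ∑ c : Ct, ((Finset.univ.filter (fun β : R → J => cf β = c)).card : ℝ) =
        (Fintype.card J : ℝ) ^ Fintype.card R := by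
      have := Finset.card_eq_sum_card_fiberwise (f := cf) (s := (Finset.univ : Finset (R → J)))
        (t := (Finset.univ : Finset Ct)) (fun _ _ => Finset.mem_univ _)
      rw [Finset.card_univ, Fintype.card_fun] at this
      exact_mod_cast this.symm
    have h1 : (∑ c : Ct, ((Finset.univ.filter (fun β : R → J => cf β = c)).card : ℝ)) *
        (1 + 1 / (Fintype.card J : ℝ) ^ (r + 1)) ^ L ≤
        (Fintype.card Ct : ℝ) * (Fintype.card J : ℝ) ^ Fintype.card R := by
      rw [Finset.sum_mul]
      refine (Finset.sum_le_sum (fun c _ => hcon c)).trans ?_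
      rw [Finset.sum_const, nsmul_eq_mul, Finset.card_univ]
    rw [hsum, mul_comm] at h1
    have hpos : (0:ℝ) < (Fintype.card J : ℝ) ^ Fintype.card R := by positivity
    have h2 := le_of_mul_le_mul_right h1 hpos
    linarith
  obtain ⟨c, hc⟩ := hpop
  set I := Finset.univ.filter (fun β : R → J => cf β = c) with hI
  obtain ⟨j0⟩ := (inferInstance : Nonempty J)
  have hagr : agr I ∅ (fun _ => j0) = I := by
    unfold agr; simp
  obtain ⟨D, γ, hDc, hD⟩ := dense_aux I r hq L ∅ (fun _ => j0) (by simpa using hR)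
    (by rw [hagr]; simpa using hc)
  obtain ⟨ρ, hρ⟩ : ∃ ρ : R, ρ ∉ D := by
    by_contra hcon
    push Not at hcon
    have : D = Finset.univ := Finset.eq_univ_of_forall hcon
    rw [this, Finset.card_univ] at hDc
    exact lt_irrefl _ hDc
  refine ⟨c, γ, ρ, ?_⟩
  intro h hh
  obtain ⟨Rh, Jh, hRh, hJh, h1, h2⟩ := (hloc c h hh).ex
  obtain ⟨j, hj⟩ : ∃ j : J, j ∉ Jh := by
    by_contra hcon
    push Not at hcon
    have : Jh = Finset.univ := Finset.eq_univ_of_forall hcon
    rw [this, Finset.card_univ] at hJh
    exact lt_irrefl _ hJh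
  have hc1 : (insert ρ (Rh \ D)).card ≤ r + 1 :=
    (Finset.card_insert_le _ _).trans
      (Nat.add_le_add_right ((Finset.card_le_card Finset.sdiff_subset).trans hRh) 1)
  have hd1 : Disjoint (insert ρ (Rh \ D)) D := by
    rw [Finset.disjoint_insert_left]
    exact ⟨hρ, Finset.sdiff_disjoint⟩
  obtain ⟨β, hβ, hβπ⟩ := hD _ hc1 hd1 (Function.update γ ρ j)
  rw [agr, Finset.mem_filter, hI, Finset.mem_filter] at hβ
  have hβacc : h (fun ρ => some (β ρ)) := by
    have := hcf β h (by rw [hβ.1.2]; exact hh)
    exact this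
  have hβρ : β ρ = j := by
    have := hβπ ρ (Finset.mem_insert_self _ _)
    simpa using this
  have h3 : h (Function.update (fun ρ => some (γ ρ)) ρ (some j)) := by
    refine h1 _ _ ?_ hβacc
    intro ρ' hρ'
    by_cases heq : ρ' = ρ
    · subst heq; simp [hβρ]
    · rw [Function.update_of_ne heq]
      congr 1
      by_cases hD' : ρ' ∈ D
      · exact hβ.2 ρ' hD'
      · have := hβπ ρ' (Finset.mem_insert_of_mem (Finset.mem_sdiff.mpr ⟨hρ', hD'⟩))
        rwa [Function.update_of_ne heq] at this
  have h4 := h2 _ ρ j hj (by simp) h3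
  simpa using h4

end

end Pool.Agent.H68WH
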