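import Pool.Agent.H68WH.SourceCorrect

set_option linter.unusedSectionVars false

/-! Bad events of the first phase. -/

namespace Pool.Agent.H68WH

open Finset Classical
open Pool.Agent.H592R2

noncomputable section

variable {k Bu Wn D : ℕ} {τ : Type} [Fintype τ] [Nonempty τ] [DecidableEq τ]

/-- majority values: no edges between columns, all entries of the row-column matrix are one -/
def majS : Vx k Bu Wn → Vx k Bu Wn → Bool
  | Sum.inr _, Sum.inl _ => true
  | Sum.inl _, _ => false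
  | Sum.inr _, Sum.inr _ => false

/-- the selected transversal of alive columns -/
def vsel [NeZero Bu] (al : Vx k Bu Wn → Prop) (i : Fin k) : Fin Bu :=
  if h : ∃ x : Fin Bu, al (Sum.inl (i, x)) then h.choose else 0

lemma vsel_spec [NeZero Bu] (al : Vx k Bu Wn → Prop) (i : Fin k)
    (h : ∃ x : Fin Bu, al (Sum.inl (i, x))) : al (Sum.inl (i, vsel al i)) := by
  unfold vsel
  rw [dif_pos h]
  exact h.choose_spec

/-- the coordinates of the statuses -/
def Rst (D : ℕ) (V : Type) : Set (Crd D V) := {c | ∃ i v, c = Sum.inl (i, v)}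

lemma Al_mix_st (A : Finset τ) (a b : Crd D (Vx k Bu Wn) → τ) :
    (Al A D (mix (Rst D (Vx k Bu Wn)) a b)) = Al A D a := by
  funext v
  apply propext
  unfold Al
  constructor
  · intro h i hi
    have := h i hi
    rwa [mix_mem (T := fun _ : Crd D (Vx k Bu Wn) => τ) (R := Rst D (Vx k Bu Wn))
      (show Sum.inl (i, v) ∈ Rst D (Vx k Bu Wn) from ⟨i, v, rfl⟩)] at this
  · intro h i hi
    rw [mix_mem (T := fun _ : Crd D (Vx k Bu Wn) => τ) (R := Rst D (Vx k Bu Wn))
      (show Sum.inl (i, v) ∈ Rst D (Vx k Bu Wn) from ⟨i, v, rfl⟩)]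
    exact h i hi

lemma mix_st_inr (a b : Crd D (Vx k Bu Wn) → τ) (q : Vx k Bu Wn × Vx k Bu Wn) :
    mix (Rst D (Vx k Bu Wn)) a b (Sum.inr q) = b (Sum.inr q) := by
  apply mix_not_mem (T := fun _ => τ)
  rintro ⟨i, v, h⟩
  exact absurd h (by simp)

/-- conditioning on the statuses -/
lemma avg_cond [NeZero Bu] (A : Finset τ)
    (F : (Fin k → Fin Bu) → (Vx k Bu Wn × Vx k Bu Wn → τ) → Prop) {c : ℝ}
    (h : ∀ v, avg (fun b : Crd D (Vx k Bu Wn) → τ => ind (F v (fun q => b (Sum.inr q)))) ≤ c) :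
    avg (fun ω : Crd D (Vx k Bu Wn) → τ =>
      ind (F (vsel (Al A D ω)) (fun q => ω (Sum.inr q)))) ≤ c := by
  rw [← avg_mix (T := fun _ : Crd D (Vx k Bu Wn) => τ) (Rst D (Vx k Bu Wn))]
  apply avg_le_of_le
  intro a
  simp only [Al_mix_st, mix_st_inr]
  exact h _

lemma sum_prod_ite (v : Fin k → Fin Bu) (q : ℝ) :
    ∑ u : Fin k → Fin Bu, ∏ i, (if u i = v i then (1:ℝ) else q) = (1 + ((Bu : ℝ) - 1) * q) ^ k := by
  have h1 := Finset.prod_univ_sum (fun _ : Fin k => (Finset.univ : Finset (Fin Bu)))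
    (fun i x => if x = v i then (1:ℝ) else q)
  rw [Fintype.piFinset_univ] at h1
  rw [← h1]
  have h2 : ∀ i : Fin k, ∑ x : Fin Bu, (if x = v i then (1:ℝ) else q) = 1 + ((Bu : ℝ) - 1) * q := by
    intro i
    rw [Finset.sum_ite, Finset.filter_eq']
    rw [if_pos (Finset.mem_univ _), Finset.sum_singleton, Finset.filter_ne', Finset.sum_const,
      Finset.card_erase_of_mem (Finset.mem_univ _), Finset.card_univ, Fintype.card_fin,
      nsmul_eq_mul]
    have : 1 ≤ Bu := by have := (v i).2; omega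
    rw [Nat.cast_sub this, Nat.cast_one]
  simp only [h2]
  rw [Finset.prod_const, Finset.card_univ, Fintype.card_fin]

/-- pairs of group indices that touch a difference of `u` and `v` -/
def dpairs (u v : Fin k → Fin Bu) : Finset (Fin k × Fin k) :=
  Finset.univ.filter (fun p => u p.1 ≠ v p.1 ∧ p.2 ≠ p.1)

lemma card_dpairs (u v : Fin k → Fin Bu) :
    (dpairs u v).card = ∑ i, (if u i = v i then 0 else (k - 1)) := by
  unfold dpairs
  rw [Finset.card_filter, Fintype.sum_prod_type]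
  apply Finset.sum_congr rfl
  intro i _
  by_cases h : u i = v i
  · simp [h]
  · simp only [h, not_false_eq_true, ne_eq, true_and, if_false]
    rw [← Finset.card_filter]
    have : (Finset.univ.filter (fun x : Fin k => ¬ x = i)) = Finset.univ.erase i := by
      ext x; simp
    rw [this, Finset.card_erase_of_mem (Finset.mem_univ _), Finset.card_univ, Fintype.card_fin]

/-- uniqueness of the planted clique -/
lemma avg_uniq [NeZero Bu] (A Mi : Finset τ) :
    avg (fun ω : Crd D (Vx k Bu Wn) → τ => ind (∃ u : Fin k → Fin Bu, u ≠ vsel (Al A D ω) ∧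
      ∀ p ∈ dpairs u (vsel (Al A D ω)),
        ω (Sum.inr (Sum.inl (p.1, u p.1), Sum.inl (p.2, u p.2))) ∈ Mi)) ≤
      (1 + (Bu : ℝ) * ((Mi.card : ℝ) / Fintype.card τ) ^ (k - 1)) ^ k - 1 := by
  apply avg_cond A (fun v b => ∃ u : Fin k → Fin Bu, u ≠ v ∧
      ∀ p ∈ dpairs u v, b (Sum.inl (p.1, u p.1), Sum.inl (p.2, u p.2)) ∈ Mi)
  intro v
  set μ : ℝ := (Mi.card : ℝ) / Fintype.card τ with hμ
  have hμ0 : 0 ≤ μ := by positivity
  have h1 : ∀ b : Crd D (Vx k Bu Wn) → τ, ind (∃ u : Fin k → Fin Bu, u ≠ v ∧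
      ∀ p ∈ dpairs u v, b (Sum.inr (Sum.inl (p.1, u p.1), Sum.inl (p.2, u p.2))) ∈ Mi) ≤
      ∑ u ∈ (Finset.univ : Finset (Fin k → Fin Bu)).erase v,
        ind (∀ q ∈ (dpairs u v).image (fun p : Fin k × Fin k =>
          ((Sum.inl (p.1, u p.1), Sum.inl (p.2, u p.2)) : Vx k Bu Wn × Vx k Bu Wn)),
          b (Sum.inr q) ∈ Mi) := by
    intro b
    refine le_trans (ind_mono ?_) (ind_exists_le _ _)
    rintro ⟨u, hu, h⟩
    refine ⟨u, Finset.mem_erase.mpr ⟨hu, Finset.mem_univ _⟩, ?_⟩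
    intro q hq
    rw [Finset.mem_image] at hq
    obtain ⟨p, hp, rfl⟩ := hq
    exact h p hp
  refine (avg_mono h1).trans ?_
  rw [avg_sum]
  have h2 : ∀ u : Fin k → Fin Bu, avg (fun b : Crd D (Vx k Bu Wn) → τ =>
      ind (∀ q ∈ (dpairs u v).image (fun p : Fin k × Fin k =>
          ((Sum.inl (p.1, u p.1), Sum.inl (p.2, u p.2)) : Vx k Bu Wn × Vx k Bu Wn)),
          b (Sum.inr q) ∈ Mi)) = ∏ i, (if u i = v i then (1:ℝ) else μ ^ (k - 1)) := by
    intro u
    rw [avg_all_minority, Finset.card_image_of_injective, card_dpairs, ← hμ,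
      ← Finset.prod_pow_eq_pow_sum]
    · apply Finset.prod_congr rfl
      intro i _
      split_ifs <;> simp
    · rintro ⟨p1, p2⟩ ⟨q1, q2⟩ h
      simp only [Prod.mk.injEq, Sum.inl.injEq] at h
      exact Prod.ext h.1.1 h.2.1
  simp only [h2]
  have h3 := sum_prod_ite (k := k) v (μ ^ (k - 1))
  rw [← Finset.add_sum_erase _ _ (Finset.mem_univ v)] at h3
  have h4 : ∏ i, (if v i = v i then (1:ℝ) else μ ^ (k - 1)) = 1 := by simp
  rw [h4] at h3
  have h5 : (1 + ((Bu : ℝ) - 1) * μ ^ (k - 1)) ^ k ≤ (1 + (Bu : ℝ) * μ ^ (k - 1)) ^ k := by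
    have hB : (1:ℝ) ≤ Bu := by
      have := NeZero.pos Bu
      exact_mod_cast this
    have hq : 0 ≤ μ ^ (k - 1) := by positivity
    apply pow_le_pow_left₀
    · have : 0 ≤ ((Bu : ℝ) - 1) * μ ^ (k - 1) := mul_nonneg (by linarith) hq
      linarith
    · nlinarith
  linarith

/-- every row meets the planted clique in a dead majority pair -/
lemma avg_row [NeZero Bu] (A Mi : Finset τ) :
    avg (fun ω : Crd D (Vx k Bu Wn) → τ => ind (∃ w : Fin Wn, ∀ i : Fin k,
      ω (Sum.inr (Sum.inr w, Sum.inl (i, vsel (Al A D ω) i))) ∈ Mi)) ≤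
      (Wn : ℝ) * ((Mi.card : ℝ) / Fintype.card τ) ^ k := by
  apply avg_cond A (fun v b => ∃ w : Fin Wn, ∀ i : Fin k,
      b (Sum.inr w, Sum.inl (i, v i)) ∈ Mi)
  intro v
  have h1 : ∀ b : Crd D (Vx k Bu Wn) → τ, ind (∃ w : Fin Wn, ∀ i : Fin k,
      b (Sum.inr (Sum.inr w, Sum.inl (i, v i))) ∈ Mi) ≤
      ∑ w : Fin Wn, ind (∀ q ∈ (Finset.univ : Finset (Fin k)).image (fun i =>
          ((Sum.inr w, Sum.inl (i, v i)) : Vx k Bu Wn × Vx k Bu Wn)),
          b (Sum.inr q) ∈ Mi) := by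
    intro b
    refine le_trans (ind_mono ?_) (ind_exists_le _ _)
    rintro ⟨w, h⟩
    refine ⟨w, Finset.mem_univ _, ?_⟩
    intro q hq
    rw [Finset.mem_image] at hq
    obtain ⟨i, -, rfl⟩ := hq
    exact h i
  refine (avg_mono h1).trans ?_
  rw [avg_sum]
  have h2 : ∀ w : Fin Wn, avg (fun b : Crd D (Vx k Bu Wn) → τ =>
      ind (∀ q ∈ (Finset.univ : Finset (Fin k)).image (fun i =>
          ((Sum.inr w, Sum.inl (i, v i)) : Vx k Bu Wn × Vx k Bu Wn)),
          b (Sum.inr q) ∈ Mi)) = ((Mi.card : ℝ) / Fintype.card τ) ^ k := by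
    intro w
    rw [avg_all_minority, Finset.card_image_of_injective, Finset.card_univ, Fintype.card_fin]
    intro i i' h
    simp only [Prod.mk.injEq, Sum.inl.injEq, true_and] at h
    exact h.1
  simp only [h2]
  rw [Finset.sum_const, Finset.card_univ, Fintype.card_fin, nsmul_eq_mul]

/-- a group without alive columns -/
lemma avg_col (A : Finset τ) :
    avg (fun ω : Crd D (Vx k Bu Wn) → τ => ind (∃ i : Fin k, ∀ x : Fin Bu,
      ¬ Al A D ω (Sum.inl (i, x) : Vx k Bu Wn))) ≤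
      (k : ℝ) * (1 - ((A.card : ℝ) / Fintype.card τ) ^ D) ^ Bu := by
  have h1 : ∀ ω : Crd D (Vx k Bu Wn) → τ, ind (∃ i : Fin k, ∀ x : Fin Bu,
      ¬ Al A D ω (Sum.inl (i, x) : Vx k Bu Wn)) ≤
      ∑ i : Fin k, ind (∀ v ∈ (Finset.univ : Finset (Fin Bu)).image (fun x =>
        (Sum.inl (i, x) : Vx k Bu Wn)), ¬ Al A D ω v) := by
    intro ω
    refine le_trans (ind_mono ?_) (ind_exists_le _ _)
    rintro ⟨i, h⟩
    refine ⟨i, Finset.mem_univ _, ?_⟩
    intro v hv
    rw [Finset.mem_image] at hv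
    obtain ⟨x, -, rfl⟩ := hv
    exact h x
  refine (avg_mono h1).trans ?_
  rw [avg_sum]
  have h2 : ∀ i : Fin k, avg (fun ω : Crd D (Vx k Bu Wn) → τ =>
      ind (∀ v ∈ (Finset.univ : Finset (Fin Bu)).image (fun x =>
        (Sum.inl (i, x) : Vx k Bu Wn)), ¬ Al A D ω v)) =
      (1 - ((A.card : ℝ) / Fintype.card τ) ^ D) ^ Bu := by
    intro i
    rw [avg_no_alive, Finset.card_image_of_injective, Finset.card_univ, Fintype.card_fin]
    intro x x' h
    simpa using h
  simp only [h2]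
  rw [Finset.sum_const, Finset.card_univ, Fintype.card_fin, nsmul_eq_mul]

/-- a block without alive rows -/
lemma avg_rsel {P B : ℕ} (A : Finset τ) :
    avg (fun ω : Crd D (Vx k Bu (P * B)) → τ => ind (∃ p : Fin P, ∀ j : Fin B,
      ¬ Al A D ω (Sum.inr (finProdFinEquiv (p, j)) : Vx k Bu (P * B)))) ≤
      (P : ℝ) * (1 - ((A.card : ℝ) / Fintype.card τ) ^ D) ^ B := by
  have h1 : ∀ ω : Crd D (Vx k Bu (P * B)) → τ, ind (∃ p : Fin P, ∀ j : Fin B,
      ¬ Al A D ω (Sum.inr (finProdFinEquiv (p, j)) : Vx k Bu (P * B))) ≤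
      ∑ p : Fin P, ind (∀ v ∈ (Finset.univ : Finset (Fin B)).image (fun j =>
        (Sum.inr (finProdFinEquiv (p, j)) : Vx k Bu (P * B))), ¬ Al A D ω v) := by
    intro ω
    refine le_trans (ind_mono ?_) (ind_exists_le _ _)
    rintro ⟨i, h⟩
    refine ⟨i, Finset.mem_univ _, ?_⟩
    intro v hv
    rw [Finset.mem_image] at hv
    obtain ⟨x, -, rfl⟩ := hv
    exact h x
  refine (avg_mono h1).trans ?_
  rw [avg_sum]
  have h2 : ∀ p : Fin P, avg (fun ω : Crd D (Vx k Bu (P * B)) → τ =>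
      ind (∀ v ∈ (Finset.univ : Finset (Fin B)).image (fun j =>
        (Sum.inr (finProdFinEquiv (p, j)) : Vx k Bu (P * B))), ¬ Al A D ω v)) =
      (1 - ((A.card : ℝ) / Fintype.card τ) ^ D) ^ B := by
    intro i
    rw [avg_no_alive, Finset.card_image_of_injective, Finset.card_univ, Fintype.card_fin]
    intro x x' h
    simpa using h
  simp only [h2]
  rw [Finset.sum_const, Finset.card_univ, Fintype.card_fin, nsmul_eq_mul]

end

end Pool.Agent.H68WH
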