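import Pool.Agent.H68WH.Defs

set_option linter.unusedSectionVars false

/-! Lemmas on alternating gates. -/

namespace Pool.Agent.H68WH

open Finset Classical

noncomputable section

/-- one level of gates of fan-in `N` -/
def gate1 (N : ℕ) (rows : Bool → ℕ → Prop) (β : Bool) (i : ℕ) : Prop :=
  if β = true then ∀ a < N, rows false (i * N + a) else ∃ a < N, rows true (i * N + a)

lemma gate1_true (N : ℕ) (rows : Bool → ℕ → Prop) (i : ℕ) :
    gate1 N rows true i ↔ ∀ a < N, rows false (i * N + a) := by simp [gate1]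

lemma gate1_false (N : ℕ) (rows : Bool → ℕ → Prop) (i : ℕ) :
    gate1 N rows false i ↔ ∃ a < N, rows true (i * N + a) := by simp [gate1]

/-- the type of the gates `n` levels below a gate of type `β` -/
def fl : ℕ → Bool → Bool
  | 0, β => β
  | n + 1, β => !(fl n β)

lemma fl_succ' (n : ℕ) (β : Bool) : fl (n + 1) β = fl n (!β) := by
  induction n with
  | zero => rfl
  | succ n ih => rw [fl, ih, fl]

lemma gate1_congr {N : ℕ} {rows rows' : Bool → ℕ → Prop} {β : Bool} {i : ℕ}
    (h : ∀ a < N, (rows (!β) (i * N + a) ↔ rows' (!β) (i * N + a))) :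
    gate1 N rows β i ↔ gate1 N rows' β i := by
  cases β
  · simp only [gate1_false]
    constructor
    · rintro ⟨a, ha, h1⟩; exact ⟨a, ha, (h a ha).1 h1⟩
    · rintro ⟨a, ha, h1⟩; exact ⟨a, ha, (h a ha).2 h1⟩
  · simp only [gate1_true]
    constructor
    · intro h1 a ha; exact (h a ha).1 (h1 a ha)
    · intro h1 a ha; exact (h a ha).2 (h1 a ha)

lemma gate_succ (s : ℕ) (leaf : Bool → ℕ → Prop) (n : ℕ) (β : Bool) (i : ℕ) :
    gate s leaf (n + 1) β i ↔ gate1 s (gate s leaf n) β i := by
  cases β
  · simp [gate, gate1]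
  · simp [gate, gate1]

lemma gate_peel (s : ℕ) (leaf : Bool → ℕ → Prop) (n : ℕ) :
    ∀ (β : Bool) (i : ℕ), gate s leaf (n + 1) β i ↔ gate s (gate1 s leaf) n β i := by
  induction n with
  | zero =>
    intro β i
    rw [gate_succ]
    simp only [gate]
  | succ n ih =>
    intro β i
    rw [gate_succ, gate_succ]
    exact gate1_congr (fun a _ => ih _ _)

/-- only the leaves below a gate matter, and only for the right type -/
lemma gate_congr (s : ℕ) (leaf leaf' : Bool → ℕ → Prop) (n : ℕ) :
    ∀ (β : Bool) (i : ℕ), (∀ i', i * s ^ n ≤ i' → i' < (i + 1) * s ^ n →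
      (leaf (fl n β) i' ↔ leaf' (fl n β) i')) →
      (gate s leaf n β i ↔ gate s leaf' n β i) := by
  induction n with
  | zero =>
    intro β i h
    simp only [gate]
    exact h i (by simp) (by simp)
  | succ n ih =>
    intro β i h
    rw [gate_succ, gate_succ]
    apply gate1_congr
    intro a ha
    apply ih
    intro i' h1 h2
    rw [← fl_succ']
    apply h
    · refine le_trans ?_ h1
      calc i * s ^ (n + 1) = (i * s) * s ^ n := by ring
        _ ≤ (i * s + a) * s ^ n := Nat.mul_le_mul_right _ (by omega)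
    · refine lt_of_lt_of_le h2 ?_
      calc (i * s + a + 1) * s ^ n ≤ (i * s + s) * s ^ n := Nat.mul_le_mul_right _ (by omega)
        _ = (i + 1) * s ^ (n + 1) := by ring

lemma gate_congr0 {s : ℕ} {leaf leaf' : Bool → ℕ → Prop} {n : ℕ} {β : Bool}
    (h : ∀ i' < s ^ n, (leaf (fl n β) i' ↔ leaf' (fl n β) i')) :
    gate s leaf n β 0 ↔ gate s leaf' n β 0 := by
  apply gate_congr
  intro i' _ h2
  apply h
  simpa using h2

lemma gate_const {s : ℕ} (hs : 0 < s) {leaf : Bool → ℕ → Prop} {n : ℕ} {β : Bool} {i : ℕ}
    {P : Prop} (h : ∀ i', i * s ^ n ≤ i' → i' < (i + 1) * s ^ n → (leaf (fl n β) i' ↔ P)) :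
    gate s leaf n β i ↔ P := by
  have h1 : gate s leaf n β i ↔ gate s (fun _ _ => P) n β i :=
    gate_congr _ _ _ _ _ _ h
  rw [h1]
  clear h h1
  induction n generalizing β i with
  | zero => rfl
  | succ n ih =>
    rw [gate_succ]
    cases β
    · rw [gate1_false]
      constructor
      · rintro ⟨a, _, h⟩; exact ih.1 h
      · intro h; exact ⟨0, hs, ih.2 h⟩
    · rw [gate1_true]
      constructor
      · intro h; exact ih.1 (h 0 hs)
      · intro h a _; exact ih.2 h

/-- alternating gates with the fan-ins given by a list, the lowest level first -/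
def gateR : List ℕ → (Bool → ℕ → Prop) → Bool → ℕ → Prop
  | [], rows, β, i => rows β i
  | N :: rl, rows, β, i => gateR rl (gate1 N rows) β i

lemma gateR_congr (rl : List ℕ) : ∀ (rows rows' : Bool → ℕ → Prop) (β : Bool) (i : ℕ),
    (∀ i', i' < (i + 1) * rl.prod →
      (rows (fl rl.length β) i' ↔ rows' (fl rl.length β) i')) →
      (gateR rl rows β i ↔ gateR rl rows' β i) := by
  induction rl with
  | nil =>
    intro rows rows' β i h
    simp only [gateR]
    exact h i (by simp)
  | cons N rl ih =>
    intro rows rows' β i h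
    simp only [gateR]
    apply ih
    intro i' hi'
    apply gate1_congr
    intro a ha
    have h2 := h (i' * N + a) (by
      simp only [List.prod_cons]
      calc i' * N + a < i' * N + N := by omega
        _ = (i' + 1) * N := by ring
        _ ≤ ((i + 1) * rl.prod) * N := Nat.mul_le_mul_right _ hi'
        _ = _ := by ring)
    exact h2

/-- decoding of positions: `rl` is a list of fan-ins, the lowest level first -/
def Dr (s : ℕ) (base : ℕ → ℕ) : List ℕ → ℕ → ℕ
  | [], i => base i
  | N :: rl, i => Dr s base rl (i / s) * N + (i % s) % N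

lemma gate_dec {s : ℕ} (hs : 0 < s) (base : ℕ → ℕ) (rl : List ℕ) :
    ∀ (rows : Bool → ℕ → Prop) (β : Bool) (i : ℕ), (∀ N ∈ rl, 0 < N ∧ N ≤ s) →
    (gate s (fun β i => rows β (Dr s base rl i)) rl.length β i ↔ gateR rl rows β (base i)) := by
  induction rl with
  | nil => intro rows β i _; simp [gate, gateR, Dr]
  | cons N rl ih =>
    intro rows β i hN
    obtain ⟨hN0, hNs⟩ := hN N (by simp)
    simp only [List.length_cons, gateR]
    rw [gate_peel, ← ih (gate1 N rows) β i (fun N' h => hN N' (by simp [h]))]
    apply gate_congr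
    intro i' _ _
    set β' := fl rl.length β
    have key : ∀ a < s, Dr s base (N :: rl) (i' * s + a) = Dr s base rl i' * N + a % N := by
      intro a ha
      have h1 : (i' * s + a) / s = i' := by
        rw [mul_comm, Nat.mul_add_div hs, Nat.div_eq_of_lt ha, add_zero]
      have h2 : (i' * s + a) % s = a := by
        rw [mul_comm, Nat.mul_add_mod, Nat.mod_eq_of_lt ha]
      simp only [Dr, h1, h2]
    cases β'
    · rw [gate1_false, gate1_false]
      constructor
      · rintro ⟨a, ha, h⟩
        rw [key a ha] at h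
        exact ⟨a % N, Nat.mod_lt _ hN0, h⟩
      · rintro ⟨a, ha, h⟩
        refine ⟨a, by omega, ?_⟩
        rw [key a (by omega), Nat.mod_eq_of_lt ha]
        exact h
    · rw [gate1_true, gate1_true]
      constructor
      · intro h a ha
        have := h a (by omega)
        rw [key a (by omega), Nat.mod_eq_of_lt ha] at this
        exact this
      · intro h a ha
        rw [key a ha]
        exact h (a % N) (Nat.mod_lt _ hN0)

/-- splitting a level of fan-in `N * B` -/
lemma gate1_mul {N B : ℕ} (rows : Bool → ℕ → Prop) (β : Bool) (i : ℕ) :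
    gate1 (N * B) rows β i ↔
      (if β = true then ∀ a < N, ∀ j < B, rows false ((i * N + a) * B + j)
        else ∃ a < N, ∃ j < B, rows true ((i * N + a) * B + j)) := by
  have e1 : ∀ a, a < N * B → 0 < B → a / B < N ∧ a % B < B ∧
      i * (N * B) + a = (i * N + a / B) * B + a % B := by
    intro a ha hB
    refine ⟨?_, Nat.mod_lt _ hB, ?_⟩
    · rw [Nat.div_lt_iff_lt_mul hB]; exact ha
    · have h1 : B * (a / B) + a % B = a := Nat.div_add_mod a B
      have h2 : (i * N + a / B) * B + a % B = i * (N * B) + (B * (a / B) + a % B) := by ring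
      rw [h2, h1]
  have e2 : ∀ a j, a < N → j < B → a * B + j < N * B ∧
      i * (N * B) + (a * B + j) = (i * N + a) * B + j := by
    intro a j ha hj
    refine ⟨?_, by ring⟩
    calc a * B + j < a * B + B := by omega
      _ = (a + 1) * B := by ring
      _ ≤ N * B := Nat.mul_le_mul_right _ ha
  cases β
  · rw [gate1_false, if_neg (by simp)]
    constructor
    · rintro ⟨a, ha, h⟩
      rcases Nat.eq_zero_or_pos B with hB | hB
      · subst hB; simp at ha
      · obtain ⟨h1, h2, h3⟩ := e1 a ha hB
        exact ⟨_, h1, _, h2, by rwa [← h3]⟩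
    · rintro ⟨a, ha, j, hj, h⟩
      obtain ⟨h1, h2⟩ := e2 a j ha hj
      exact ⟨_, h1, by rwa [h2]⟩
  · rw [gate1_true, if_pos rfl]
    constructor
    · intro h a ha j hj
      obtain ⟨h1, h2⟩ := e2 a j ha hj
      rw [← h2]; exact h _ h1
    · intro h a ha
      rcases Nat.eq_zero_or_pos B with hB | hB
      · subst hB; simp at ha
      · obtain ⟨h1, h2, h3⟩ := e1 a ha hB
        rw [h3]; exact h _ h1 _ h2

end

end Pool.Agent.H68WH
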