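import Pool.Agent.H68WH.Two

set_option linter.unusedSectionVars false

/-! No reduction from p-WSAT(CNF) to p-WSAT(d-CNF): final assembly. -/

namespace Pool.Agent.H68WH

open Finset Classical Filter
open Pool.Agent.H592R2

noncomputable section

/-- the entries of the selected rows, for a partial choice function -/
def Yo {k P : ℕ} (β : Fin P → Option (Fin k)) (p : ℕ) (i : Fin k) : Bool :=
  decide (∃ h : p < P, β ⟨p, h⟩ = some i)

lemma locJ_of_loc {k Bu P B S : ℕ} [NeZero Bu] (vs : Fin k → Fin Bu) (rs : Fin P → Fin B)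
    {G : (Vx k Bu (P * B) → Vx k Bu (P * B) → Bool) → Prop}
    (hG : ∃ K : Finset (Vx k Bu (P * B)), K.card < S ∧ Loc K G) (hSk : S ≤ k) :
    LocJ (S - 1) (fun β : Fin P → Option (Fin k) => G (zP vs rs (Yo β))) := by
  obtain ⟨K, hK, hL⟩ := hG
  refine ⟨K.toRight.image (fun w => (finProdFinEquiv.symm w).1), K.toLeft.image Prod.fst,
    ?_, ?_, ?_, ?_⟩
  · have := (Finset.card_image_le (s := K.toRight)
      (f := fun w => (finProdFinEquiv.symm w : Fin P × Fin B).1)).trans Finset.card_toRight_le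
    omega
  · rw [Fintype.card_fin]
    have := (Finset.card_image_le (s := K.toLeft) (f := Prod.fst)).trans Finset.card_toLeft_le
    omega
  · intro β β' hββ' h
    refine hL _ _ ?_ h
    intro v hv v' hv'
    rcases v with u | w
    · rcases v' with u' | w'
      · rfl
      · rfl
    · rcases v' with u' | w'
      · simp only [zP]
        have hw : β (finProdFinEquiv.symm w).1 = β' (finProdFinEquiv.symm w).1 :=
          hββ' _ (Finset.mem_image_of_mem _ (Finset.mem_toRight.mpr hv))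
        have hY : Yo β (finProdFinEquiv.symm w).1.val u'.1 =
            Yo β' (finProdFinEquiv.symm w).1.val u'.1 := by
          simp only [Yo, Fin.is_lt, Fin.eta, exists_true_left, hw]
        rw [hY]
      · rfl
  · intro β ρ j hj hβ h
    refine hL _ _ ?_ h
    intro v hv v' hv'
    rcases v with u | w
    · rcases v' with u' | w'
      · rfl
      · rfl
    · rcases v' with u' | w'
      · simp only [zP]
        have hne : u'.1 ≠ j := by
          intro heq
          apply hj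
          rw [← heq]
          exact Finset.mem_image_of_mem _ (Finset.mem_toLeft.mpr hv')
        have hY : Yo β (finProdFinEquiv.symm w).1.val u'.1 =
            Yo (Function.update β ρ none) (finProdFinEquiv.symm w).1.val u'.1 := by
          simp only [Yo, Fin.is_lt, Fin.eta, exists_true_left]
          by_cases hρ : (finProdFinEquiv.symm w).1 = ρ
          · rw [hρ, hβ, Function.update_self]
            simp [hne.symm]
          · rw [Function.update_of_ne hρ]
        rw [hY]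
      · rfl

lemma ev_kexp (k : ℕ) : ∀ᶠ b : ℕ in atTop, ((k : ℝ) + b) * Real.exp (-b) < 1 / 4 := by
  filter_upwards [ev_exp ((k : ℝ) + 1), eventually_ge_atTop 1] with b hb hb1
  refine lt_of_le_of_lt ?_ hb
  apply mul_le_mul_of_nonneg_right _ (Real.exp_pos _).le
  have h1 : (1:ℝ) ≤ b := by exact_mod_cast hb1
  have h2 : (0:ℝ) ≤ k := Nat.cast_nonneg k
  nlinarith

lemma srcOK_two {S D b : ℕ} (hb : 1 ≤ b) :
    SrcOK (kp S D) (Bp S D b) (sp S D b) [] (b * Bp S D b) where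
  hNt := Nat.mul_pos hb (Nat.pos_of_ne_zero (by unfold Bp; positivity))
  hs3 := by unfold sp; omega
  hks := by
    unfold sp
    have : kp S D * Bp S D b ≤ (kp S D * Bp S D b) ^ 2 := Nat.le_self_pow (by norm_num) _
    omega
  hsum := by
    unfold sp npr
    rw [pow_two]; omega
  hN := by simp

/-- pool of formulas -/
def pool2 {n m : ℕ} (out : Fin m → Fml n) (d g : ℕ) :
    (Fin (g + 1) × (Fin (g + 1) ⊕ (Fin m ⊕ (Unit ⊕ (Fin d → Option (Fin m × Bool)))))) → Fml n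
  | (_, Sum.inl p) => bitF out p
  | (κ, Sum.inr (Sum.inl j)) => usedG 2 out κ j
  | (κ, Sum.inr (Sum.inr (Sum.inl _))) => WG out κ d
  | (κ, Sum.inr (Sum.inr (Sum.inr t))) => PG out κ t

/-- **No para-AC0 reduction from p-WSAT(CNF) to p-WSAT(d-CNF).** -/
theorem no_red_two (d : ℕ) : ¬ ParaAC0Red (pWSAT 2) (pWSATd d) := by
  rintro ⟨D0, c0, f, g, hred⟩
  obtain ⟨D, hD⟩ : ∃ D, D = D0 + 4 := ⟨_, rfl⟩
  obtain ⟨e, he⟩ : ∃ e, e = 2 * d + 4 := ⟨_, rfl⟩
  obtain ⟨S, hS⟩ : ∃ S, S = c0 * (2 * (4 * D + 2)) * e + 3 := ⟨_, rfl⟩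
  have hS3 : 3 ≤ S := by omega
  obtain ⟨k, hk⟩ : ∃ k, k = kp S D := ⟨_, rfl⟩
  have hSk : S ≤ k := by
    rw [hk]; unfold kp sg
    have : 2 * (S + S ^ 2) * 1 ≤ 2 * (S + S ^ 2) * D := Nat.mul_le_mul_left _ (by omega)
    omega
  have hk0 : 0 < k := by omega
  obtain ⟨A1, hA1, hXA⟩ := Xp_le S D 2 f c0
  obtain ⟨E1, hE1⟩ : ∃ E1, E1 = c0 * (2 * (4 * sg S * D + 2)) := ⟨_, rfl⟩
  obtain ⟨Ap, hAp⟩ : ∃ Ap : ℕ, Ap = (g k + 1) * (g k + 3 + 3 ^ d) * ((d + 4) * 2 ^ (d + 3)) :=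
    ⟨_, rfl⟩
  obtain ⟨b, hb2, hbpool, hbk, hbe, L, hL1, hL2⟩ : ∃ b : ℕ, 2 ≤ b ∧
      (Ap : ℝ) * (Xp S D 2 b f c0 : ℝ) ^ e * ((2 / (b : ℝ)) ^ sg S) ^ S < 1 / 4 ∧
      (2 : ℝ) ^ k / b < 1 / 4 ∧ ((k : ℝ) + b) * Real.exp (-b) < 1 / 4 ∧
      ∃ L : ℕ, S * L < b ∧ (((g k + 1) * A1 ^ g k : ℕ) : ℝ) * (b : ℝ) ^ (E1 * g k) <
        (1 + 1 / ((k ^ S : ℕ) : ℝ)) ^ L := by
    have := (((eventually_ge_atTop 2).and
      (ev_pool D 2 c0 e f (by norm_num) (Ap : ℝ) (Nat.cast_nonneg _) hS)).and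
      (((ev_div ((2:ℝ) ^ k))).and ((ev_kexp k).and
        (ev_steps ((g k + 1) * A1 ^ g k) (E1 * g k) (k ^ S) S (by positivity)
          (by omega))))).exists
    obtain ⟨b, ⟨h1, h2⟩, h3, h4, h5⟩ := this
    exact ⟨b, h1, h2, h3, h4, h5⟩
  have hNZ : NeZero b := ⟨by omega⟩
  have hNB : NeZero (Bp S D b) := ⟨by unfold Bp; positivity⟩
  obtain ⟨s, hs⟩ : ∃ s, s = sp S D b := ⟨_, rfl⟩
  obtain ⟨B, hB⟩ : ∃ B, B = Bp S D b := ⟨_, rfl⟩
  rw [← hB] at hNB
  have hok : SrcOK k B s [] (b * B) := by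
    rw [hk, hB, hs]; exact srcOK_two (by omega)
  obtain ⟨m, out, hm, hout, hr⟩ := hred (k + 1 + 2 * s ^ (([] : List ℕ).length + 2)) k
  obtain ⟨X, hX⟩ : ∃ X, X = Xp S D 2 b f c0 := ⟨_, rfl⟩
  have hXdef : X = f k * ((k + 1 + 2 * s ^ 2) + 1) ^ c0 + 1 := by
    rw [hX, hk, hs]; rfl
  have hX1 : 1 ≤ X := by omega
  have hmX : m ≤ X := by
    rw [hXdef]; exact hm.trans (Nat.le_succ _)
  have hDout : ∀ i, (out i).depth ≤ D0 := fun i => (hout i).1
  have hsz : ∀ i, (out i).size ≤ X := by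
    intro i
    rw [hXdef]; exact (hout i).2.trans (Nat.le_succ _)
  -- the pool
  obtain ⟨Z, hZ⟩ : ∃ Z, Z = (d + 4) * (2 * X) ^ (d + 3) := ⟨_, rfl⟩
  have hXZ3 : 4 * X ^ 3 ≤ Z := by
    rw [hZ]
    calc 4 * X ^ 3 ≤ 4 * (2 * X) ^ 3 := by
          apply Nat.mul_le_mul_left; apply Nat.pow_le_pow_left; omega
      _ ≤ (d + 4) * (2 * X) ^ (d + 3) :=
          Nat.mul_le_mul (by omega) (Nat.pow_le_pow_right (by omega) (by omega))
  have hXZ : X ≤ Z := by
    refine le_trans ?_ hXZ3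
    have : X ≤ X ^ 3 := Nat.le_self_pow (by norm_num) _
    omega
  have hdep : ∀ i, (pool2 out d (g k) i).depth ≤ D := by
    rintro ⟨κ, p | j | _ | t⟩
    · exact (depth_bitF_le hDout _).trans (by omega)
    · exact (depth_usedG hDout _ _ _).trans (by omega)
    · exact (depth_WG hDout _ _).trans (by omega)
    · exact (depth_PG hDout _ _).trans (by omega)
  have hsize : ∀ i, (pool2 out d (g k) i).size ≤ Z := by
    rintro ⟨κ, p | j | _ | t⟩
    · exact (size_bitF_le hX1 hsz _).trans hXZ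
    · exact (size_usedG hX1 hsz hmX (by norm_num) _ _).trans hXZ3
    · exact (size_WG hX1 hsz hmX _ _).trans hZ.ge
    · exact (size_PG hX1 hsz hmX _ _).trans hXZ3
  have hcard : Fintype.card (Fin (g k + 1) × (Fin (g k + 1) ⊕ (Fin m ⊕ (Unit ⊕
      (Fin d → Option (Fin m × Bool)))))) * Z ≤ Ap * X ^ e := by
    rw [Fintype.card_prod, Fintype.card_sum, Fintype.card_sum, Fintype.card_sum,
      Fintype.card_fun, Fintype.card_option, Fintype.card_prod, Fintype.card_fin,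
      Fintype.card_fin, Fintype.card_fin, Fintype.card_bool, Fintype.card_unit]
    have h1 : (m * 2 + 1) ^ d ≤ 3 ^ d * X ^ d := by
      rw [← mul_pow]; apply Nat.pow_le_pow_left; omega
    have h2 : X ^ d ≤ X ^ (d + 1) := Nat.pow_le_pow_right hX1 (by omega)
    have h3 : 1 ≤ X ^ (d + 1) := Nat.one_le_pow _ _ hX1
    have h4 : X ≤ X ^ (d + 1) := Nat.le_self_pow (by omega) _
    have h5 : g k + 1 + (m + (1 + (m * 2 + 1) ^ d)) ≤ (g k + 3 + 3 ^ d) * X ^ (d + 1) := by
      calc g k + 1 + (m + (1 + (m * 2 + 1) ^ d)) ≤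
            (g k + 1) * X ^ (d + 1) + (X ^ (d + 1) + (X ^ (d + 1) + 3 ^ d * X ^ (d + 1))) := by
            apply Nat.add_le_add
            · exact Nat.le_mul_of_pos_right _ h3
            · apply Nat.add_le_add (hmX.trans h4)
              apply Nat.add_le_add h3
              exact h1.trans (Nat.mul_le_mul_left _ h2)
        _ = _ := by ring
    calc _ ≤ (g k + 1) * ((g k + 3 + 3 ^ d) * X ^ (d + 1)) * Z :=
          Nat.mul_le_mul_right _ (Nat.mul_le_mul_left _ h5)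
      _ = _ := by
          rw [hAp, hZ, he, mul_pow]
          have : 2 * d + 4 = (d + 1) + (d + 3) := by ring
          rw [this, pow_add X (d + 1) (d + 3)]
          ring
  obtain ⟨ω, hgood, hloc⟩ := phase1 (b := b) (S := S) (D := D) (k := k) (B := B) (P := b)
    (s := s) (rl := []) (Nt := b * B) hb2 hS3 (by rw [hB]; rfl) (by rw [hk]; rfl) le_rfl
    (by omega) (pool2 out d (g k)) hdep hsize
    (by
      refine lt_of_le_of_lt ?_ hbpool
      apply mul_le_mul_of_nonneg_right _ (by positivity)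
      rw [← hX]
      exact_mod_cast hcard) hbk hbe
  -- selections
  have hrow := hgood.hrow
  choose rs hrs using hrow
  set vs := vsel (Al (Aset b S) D ω) with hvs
  let enc : (Vx k B (b * B) → Vx k B (b * B) → Bool) →
      (Fin (k + 1 + 2 * s ^ (([] : List ℕ).length + 2)) → Bool) :=
    fun z => encS s [] (b * B) (rho (Aset b S) (Mset b S) majS D ω z)
  have hlead : ∀ z, (pWSAT 2).κ _ (enc z) = k := fun z => lead_encS s [] (b * B) _
  -- the final lemma
  have hlocJ : ∀ c : Ct (g k) m, ∀ h ∈ (fun h' : (Fin _ → Bool) → Prop =>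
      (fun β : Fin b → Option (Fin k) => h' (enc (zP vs rs (Yo β))))) '' (Hx out d (g k) c),
      LocJ (S - 1) h := by
    rintro c h ⟨h', hh', rfl⟩
    have hpool : ∀ i, ∃ K : Finset (Vx k B (b * B)), K.card < S ∧
        Loc K (fun z => (pool2 out d (g k) i).Holds (enc z)) := by
      intro i
      obtain ⟨K, hK1, -, hK3⟩ := hloc i
      exact ⟨K, hK1, hK3⟩
    have hpooln : ∀ i, ∃ K : Finset (Vx k B (b * B)), K.card < S ∧
        Loc K (fun z => ¬ (pool2 out d (g k) i).Holds (enc z)) := by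
      intro i
      obtain ⟨K, hK1, hK3⟩ := hpool i
      exact ⟨K, hK1, hK3.not⟩
    rcases hh' with ⟨p, hp, rfl⟩ | rfl | rfl | ⟨a, rfl⟩ | rfl | ⟨t, ht, rfl⟩
    · exact locJ_of_loc vs rs (hpool (0, Sum.inl ⟨p, by have := c.1.2; omega⟩)) hSk
    · exact locJ_of_loc vs rs (hpooln (0, Sum.inl c.1)) hSk
    · exact locJ_of_loc vs rs (G := fun _ => (VC c).card = c.1.val ∧
        ∀ j ∈ VC c, j < sT 2 m c.1.val) ⟨∅, by simp; omega, fun _ _ _ h => h⟩ hSk
    · exact locJ_of_loc vs rs (hpool (c.1, Sum.inr (Sum.inl (c.2 a)))) hSk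
    · exact locJ_of_loc vs rs (hpool (c.1, Sum.inr (Sum.inr (Sum.inl ())))) hSk
    · exact locJ_of_loc vs rs (hpooln (c.1, Sum.inr (Sum.inr (Sum.inr t)))) hSk
  have hcorr : ∀ β : Fin b → Option (Fin k), (∃ c : Ct (g k) m, ∀ h ∈ Hx out d (g k) c,
      h (enc (zP vs rs (Yo β)))) ↔ ∀ p < b, ∃ i, Yo β p i = true := by
    intro β
    have h1 := hr (enc (zP vs rs (Yo β))) (hlead _)
    rw [← acc_iff out d (g k) _ h1.2, ← h1.1]
    exact plant_two hgood hk0 rs hrs (Yo β) hok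
  have hJne : Nonempty (Fin k) := ⟨⟨0, hk0⟩⟩
  obtain ⟨c, γ, ρ, hfin⟩ := final_lemma (R := Fin b) (J := Fin k) (S - 1) L
    (fun c : Ct (g k) m => (fun h' : (Fin _ → Bool) → Prop =>
      (fun β : Fin b → Option (Fin k) => h' (enc (zP vs rs (Yo β))))) '' (Hx out d (g k) c))
    hlocJ
    (by
      rw [Fintype.card_fin]
      have : S - 1 + 1 = S := by omega
      rw [this]; exact hL1)
    (by
      have : S - 1 + 1 = S := by omega
      rw [this, Fintype.card_fin]
      refine lt_of_le_of_lt ?_ (by push_cast at hL2 ⊢; exact hL2)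
      have h1 := card_Ct_le (g := g k) hX1 hmX
      have h2 : X ^ g k ≤ A1 ^ g k * b ^ (E1 * g k) := by
        rw [pow_mul, ← mul_pow]
        apply Nat.pow_le_pow_left
        rw [hX, hE1]
        exact hXA b (by omega)
      have h3 : Fintype.card (Ct (g k) m) ≤ (g k + 1) * A1 ^ g k * b ^ (E1 * g k) := by
        calc _ ≤ (g k + 1) * (A1 ^ g k * b ^ (E1 * g k)) :=
              h1.trans (Nat.mul_le_mul_left _ h2)
          _ = _ := by ring
      exact_mod_cast h3)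
    (by
      intro β
      obtain ⟨c, hc⟩ := (hcorr (fun ρ => some (β ρ))).2 (by
        intro p hp
        exact ⟨β ⟨p, hp⟩, by simp [Yo, hp]⟩)
      refine ⟨c, ?_⟩
      rintro h ⟨h', hh', rfl⟩
      exact hc h' hh')
  have hfin' := (hcorr (Function.update (fun ρ => some (γ ρ)) ρ none)).1 ⟨c, fun h' hh' =>
    hfin _ ⟨h', hh', rfl⟩⟩
  obtain ⟨i, hi⟩ := hfin' ρ.val ρ.2
  simp [Yo] at hi

end

end Pool.Agent.H68WH
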