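import Pool.Agent.H68WH.Thr
import Pool.Agent.H68WH.TwoFinal

set_option linter.unusedSectionVars false

/-! No reduction from p-WSAT(Γ_{t+1,1}) to p-WSAT(Γ_{t,1}), for t at least 2. -/

namespace Pool.Agent.H68WH

open Finset Classical Filter
open Pool.Agent.H592R2

noncomputable section

/-- a combination of few local functions is local -/
lemma loc_comb {V : Type} [DecidableEq V] {ι : Type} {S : ℕ}
    (I : Finset ι) (h : ι → (V → V → Bool) → Prop)
    (hl : ∀ i, ∃ K : Finset V, K.card < S ∧ Loc K (h i)) {G : (V → V → Bool) → Prop}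
    (hG : ∀ z z', (∀ i ∈ I, (h i z ↔ h i z')) → G z → G z') :
    ∃ K : Finset V, K.card ≤ I.card * S ∧ Loc K G := by
  choose K hK hL using hl
  refine ⟨I.biUnion K, Finset.card_biUnion_le_card_mul _ _ _ (fun i _ => (hK i).le), ?_⟩
  intro z z' hzz' hz
  refine hG z z' ?_ hz
  intro i hi
  have hsub : ∀ v ∈ K i, v ∈ I.biUnion K := fun v hv => Finset.mem_biUnion.mpr ⟨i, hi, hv⟩
  constructor
  · exact hL i z z' (fun v hv v' hv' => hzz' v (hsub v hv) v' (hsub v' hv'))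
  · exact hL i z' z (fun v hv v' hv' => (hzz' v (hsub v hv) v' (hsub v' hv')).symm)

/-- locality in terms of the row variables -/
lemma locY_of_loc {k Bu P B : ℕ} [NeZero Bu] (vs : Fin k → Fin Bu) (rs : Fin P → Fin B)
    (F : Bool → Bool) {S : ℕ}
    {G : (Vx k Bu (P * B) → Vx k Bu (P * B) → Bool) → Prop}
    (hG : ∃ K : Finset (Vx k Bu (P * B)), K.card < S ∧ Loc K G) :
    LY S (fun y => G (zP vs rs (fun p _ => F (y p)))) := by
  obtain ⟨K, hK, hL⟩ := hG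
  refine ⟨K.toRight.image (fun w => (finProdFinEquiv.symm w : Fin P × Fin B).1.val), ?_, ?_⟩
  · have := (Finset.card_image_le (s := K.toRight)
      (f := fun w => (finProdFinEquiv.symm w : Fin P × Fin B).1.val)).trans
      Finset.card_toRight_le
    omega
  · intro y y' hyy' h
    refine hL _ _ ?_ h
    intro v hv v' hv'
    rcases v with u | w
    · rcases v' with u' | w'
      · rfl
      · rfl
    · rcases v' with u' | w'
      · simp only [zP]
        rw [hyy' _ (Finset.mem_image_of_mem _ (Finset.mem_toRight.mpr hv))]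
      · rfl

lemma ev_powexp (E : ℕ) : ∀ᶠ b : ℕ in atTop, (b : ℝ) ^ E * Real.exp (-b) < 1 / 4 := by
  have h := (Real.tendsto_pow_mul_exp_neg_atTop_nhds_zero E).comp
    (tendsto_natCast_atTop_atTop (R := ℝ))
  exact h.eventually_lt_const (by norm_num)

lemma srcOK_gen {S D b N n Nt s2 : ℕ} (hb : 1 ≤ b) (hNt : 0 < Nt) (hNtb : Nt ≤ b)
    (hN0 : 0 < N) (hNb : N ≤ b) (hs0 : 0 < s2) (hs2 : n ≠ 0 → s2 ≤ b) :
    SrcOK (kp S D) (Bp S D b) (sp S D b) ((N * Bp S D b) :: List.replicate n s2) Nt where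
  hNt := hNt
  hs3 := by unfold sp; omega
  hks := by
    unfold sp
    have : kp S D * Bp S D b ≤ (kp S D * Bp S D b) ^ 2 := Nat.le_self_pow (by norm_num) _
    omega
  hsum := by
    have hB : 0 < Bp S D b := Nat.pos_of_ne_zero (by unfold Bp; positivity)
    have h1 : b ≤ b * Bp S D b := Nat.le_mul_of_pos_right _ hB
    unfold sp npr
    rw [pow_two]; omega
  hN := by
    have hB : 0 < Bp S D b := Nat.pos_of_ne_zero (by unfold Bp; positivity)
    have h1 : b ≤ b * Bp S D b := Nat.le_mul_of_pos_right _ hB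
    intro N' hN'
    rw [List.mem_cons] at hN'
    rcases hN' with rfl | hN'
    · refine ⟨Nat.mul_pos hN0 hB, ?_⟩
      have : N * Bp S D b ≤ b * Bp S D b := Nat.mul_le_mul_right _ hNb
      unfold sp; omega
    · rw [List.mem_replicate] at hN'
      obtain ⟨hn, rfl⟩ := hN'
      have := hs2 hn
      refine ⟨hs0, ?_⟩
      unfold sp; omega

/-- **No para-AC0 reduction from p-WSAT(Γ_{t+1,1}) to p-WSAT(Γ_{t,1}) for `t = n + 2`.** -/
theorem no_red_gen (n : ℕ) : ¬ ParaAC0Red (pWSAT (n + 3)) (pWSAT (n + 2)) := by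
  rintro ⟨D0, c0, f, g, hred⟩
  obtain ⟨D, hD⟩ : ∃ D, D = D0 + 4 := ⟨_, rfl⟩
  obtain ⟨S, hS⟩ : ∃ S, S = c0 * ((n + 3) * (4 * D + 2)) * 5 + 3 := ⟨_, rfl⟩
  have hS3 : 3 ≤ S := by omega
  obtain ⟨k, hk⟩ : ∃ k, k = kp S D := ⟨_, rfl⟩
  have hk0 : 0 < k := by rw [hk]; unfold kp; omega
  obtain ⟨A1, hA1, hXA⟩ := Xp_le S D (n + 3) f c0
  obtain ⟨E1, hE1⟩ : ∃ E1, E1 = c0 * ((n + 3) * (4 * sg S * D + 2)) := ⟨_, rfl⟩
  -- parameters of the second phase
  obtain ⟨S2, hS2⟩ : ∃ S2, S2 = (5 * n + 3) * E1 * (g k + 1) + (4 * (g k + 1) * S + 4) :=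
    ⟨_, rfl⟩
  have hS23 : 3 ≤ S2 := by omega
  obtain ⟨σ2, hσ2⟩ : ∃ σ2, σ2 = sg S2 := ⟨_, rfl⟩
  have hσ21 : 1 ≤ σ2 := by rw [hσ2]; exact sg_pos hS23
  obtain ⟨E, hE⟩ : ∃ E, E = 3 + n * (2 * σ2 + 3) := ⟨_, rfl⟩
  have hE0 : E ≠ 0 := by omega
  obtain ⟨Ap, hAp⟩ : ∃ Ap : ℕ, Ap = (g k + 1) * (3 * g k + 6) * (Cthr (g k) + 4) := ⟨_, rfl⟩
  obtain ⟨A2, hA2⟩ : ∃ A2 : ℕ, A2 = (g k + 1) * 2 * A1 ^ (g k + 1) := ⟨_, rfl⟩
  have hexp2 : E * E1 * (g k + 1) + 1 ≤ σ2 * S2 := by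
    have h1 : E ≤ σ2 * (5 * n + 3) := by
      rw [hE]
      have : n * (2 * σ2 + 3) ≤ n * (5 * σ2) := Nat.mul_le_mul_left _ (by omega)
      calc 3 + n * (2 * σ2 + 3) ≤ 3 * σ2 + n * (5 * σ2) := by omega
        _ = σ2 * (5 * n + 3) := by ring
    calc E * E1 * (g k + 1) + 1 ≤ σ2 * (5 * n + 3) * E1 * (g k + 1) + σ2 * 1 := by
          apply Nat.add_le_add
          · apply Nat.mul_le_mul_right; exact Nat.mul_le_mul_right _ h1
          · omega
      _ ≤ σ2 * (5 * n + 3) * E1 * (g k + 1) + σ2 * (4 * (g k + 1) * S + 4) := by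
          apply Nat.add_le_add_left; apply Nat.mul_le_mul_left; omega
      _ = σ2 * S2 := by rw [hS2]; ring
  -- choice of the base
  obtain ⟨b, hb2, hbS, hev1, hev2, hev3, hev4, hev5, hev6⟩ : ∃ b : ℕ, 2 ≤ b ∧ S2 + 1 ≤ b ∧
      (Ap : ℝ) * (Xp S D (n + 3) (b ^ E) f c0 : ℝ) ^ 5 *
        ((2 / ((b ^ E : ℕ) : ℝ)) ^ sg S) ^ S < 1 / 4 ∧
      (2 : ℝ) ^ k / ((b ^ E : ℕ) : ℝ) < 1 / 4 ∧
      ((k : ℝ) + ((b ^ E : ℕ) : ℝ)) * Real.exp (-((b ^ E : ℕ) : ℝ)) < 1 / 4 ∧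
      (b : ℝ) ^ E * Real.exp (-b) < 1 / 4 ∧
      ((A2 : ℝ) * 2 ^ (σ2 * S2)) / b < 1 / 4 ∧
      (∃ L : ℕ, S2 * L < b ∧ (((g k + 1) * A1 ^ g k : ℕ) : ℝ) * (b : ℝ) ^ (E * E1 * g k) <
        (1 + 1 / (((S2 + 1) ^ S2 : ℕ) : ℝ)) ^ L) := by
    have hT : Tendsto (fun b : ℕ => b ^ E) atTop atTop := tendsto_pow_atTop hE0
    have h1 := hT.eventually (ev_pool D (n + 3) c0 5 f (by omega) (Ap : ℝ) (Nat.cast_nonneg _) hS)
    have h2 := hT.eventually (ev_div ((2:ℝ) ^ k))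
    have h3 := hT.eventually (ev_kexp k)
    have := (((eventually_ge_atTop 2).and (eventually_ge_atTop (S2 + 1))).and
      ((h1.and (h2.and h3)).and ((ev_powexp E).and
        ((ev_div ((A2 : ℝ) * 2 ^ (σ2 * S2))).and
        (ev_steps ((g k + 1) * A1 ^ g k) (E * E1 * g k) ((S2 + 1) ^ S2) S2 (by positivity)
          (by omega)))))).exists
    obtain ⟨b, ⟨e1, e2⟩, ⟨e3, e4, e5⟩, e6, e7, e8⟩ := this
    exact ⟨b, e1, e2, e3, e4, e5, e6, e7, e8⟩
  have hNZ : NeZero b := ⟨by omega⟩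
  have hb0 : (0:ℝ) < b := by exact_mod_cast (by omega : 0 < b)
  obtain ⟨b1, hb1⟩ : ∃ b1, b1 = b ^ E := ⟨_, rfl⟩
  have hbb1 : b ≤ b1 := by rw [hb1]; exact Nat.le_self_pow hE0 _
  have hNZ1 : NeZero b1 := ⟨by omega⟩
  rw [← hb1] at hev1 hev2 hev3
  have hNB : NeZero (Bp S D b1) := ⟨by unfold Bp; exact pow_ne_zero _ (by omega)⟩
  obtain ⟨s, hs⟩ : ∃ s, s = sp S D b1 := ⟨_, rfl⟩
  obtain ⟨B, hB⟩ : ∃ B, B = Bp S D b1 := ⟨_, rfl⟩
  rw [← hB] at hNB
  obtain ⟨N2, hN2⟩ : ∃ N2, N2 = b ^ 2 * b ^ (2 * sg S2 + 1) := ⟨_, rfl⟩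
  have hN2' : N2 = b ^ (2 * σ2 + 3) := by
    rw [hN2, ← pow_add, hσ2]; congr 1; ring
  have hN20 : 0 < N2 := by rw [hN2']; positivity
  obtain ⟨P, hP⟩ : ∃ P, P = b * (b ^ 2 * N2 ^ n) := ⟨_, rfl⟩
  have hPb1 : P = b1 := by
    rw [hP, hN2', hb1, hE, ← pow_mul]
    ring
  have hok : SrcOK k B s ((b ^ 2 * B) :: List.replicate n N2) b := by
    rw [hk, hB, hs]
    apply srcOK_gen (by omega) (by omega) hbb1 (by positivity)
    · rw [hb1]; exact Nat.pow_le_pow_right (by omega) (by omega)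
    · exact hN20
    · intro hn
      rw [hN2', hb1]
      apply Nat.pow_le_pow_right (by omega)
      rw [hE]
      have : 1 * (2 * σ2 + 3) ≤ n * (2 * σ2 + 3) := Nat.mul_le_mul_right _ (by omega)
      omega
  have hlen : ((b ^ 2 * B) :: List.replicate n N2).length = n + 1 := by simp
  obtain ⟨nn, hnn⟩ : ∃ nn, nn = k + 1 + 2 * s ^ (((b ^ 2 * B) :: List.replicate n N2).length + 2) :=
    ⟨_, rfl⟩
  have hnn2 : k + 1 + 2 * s ^ (((b ^ 2 * B) :: List.replicate n N2).length + 2) =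
      k + 1 + 2 * s ^ (n + 3) := by rw [hlen]
  obtain ⟨m, out, hm, hout, hr⟩ :=
    hred (k + 1 + 2 * s ^ (((b ^ 2 * B) :: List.replicate n N2).length + 2)) k
  obtain ⟨X, hX⟩ : ∃ X, X = Xp S D (n + 3) b1 f c0 := ⟨_, rfl⟩
  have hXdef : X = f k * ((k + 1 + 2 * s ^ (n + 3)) + 1) ^ c0 + 1 := by
    rw [hX, hk, hs]; rfl
  have hX1 : 1 ≤ X := by omega
  have hmX : m ≤ X := by
    rw [hXdef, ← hnn2]; exact hm.trans (Nat.le_succ _)
  have hDout : ∀ i, (out i).depth ≤ D0 := fun i => (hout i).1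
  have hsz : ∀ i, (out i).size ≤ X := by
    intro i
    rw [hXdef, ← hnn2]; exact (hout i).2.trans (Nat.le_succ _)
  have hXb : X ≤ A1 * b ^ (E * E1) := by
    rw [hX, pow_mul, ← hb1, hE1]
    exact hXA b1 (by omega)
  -- the pool
  obtain ⟨Z, hZ⟩ : ∃ Z, Z = (Cthr (g k) + 4) * X ^ 3 := ⟨_, rfl⟩
  have hXZ3 : 4 * X ^ 3 ≤ Z := by rw [hZ]; exact Nat.mul_le_mul_right _ (by omega)
  have hXZ : X ≤ Z := by
    refine le_trans ?_ hXZ3
    have : X ≤ X ^ 3 := Nat.le_self_pow (by norm_num) _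
    omega
  have hdep : ∀ i, (pool3 (n + 2) out (g k) i).depth ≤ D := by
    rintro ⟨κ, p | j | t | t⟩
    · exact (depth_bitF_le hDout _).trans (by omega)
    · exact (depth_usedG hDout _ _ _).trans (by omega)
    · exact (depth_litG hDout _ _ _ _ _).trans (by omega)
    · exact (depth_ThrG hDout _ _ _ _ _).trans (by omega)
  have hsize : ∀ i, (pool3 (n + 2) out (g k) i).size ≤ Z := by
    rintro ⟨κ, p | j | t | t⟩
    · exact (size_bitF_le hX1 hsz _).trans hXZ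
    · exact (size_usedG hX1 hsz hmX (by omega) _ _).trans hXZ3
    · exact (size_litG hX1 hsz _ _ _ _ _).trans hXZ
    · refine (size_ThrG hX1 hsz hmX _ _ _ _ (g := g k) (by have := t.2.2.2; omega)).trans ?_
      rw [hZ]; exact Nat.mul_le_mul_right _ (by omega)
  have hcard : Fintype.card (I3 (g k) m) * Z ≤ Ap * X ^ 5 := by
    have h0 : Fintype.card (I3 (g k) m) =
        (g k + 1) * ((g k + 1) + (m + (m * (m * 2) + m * (2 * (g k + 1))))) := by
      simp only [I3, Fintype.card_prod, Fintype.card_sum, Fintype.card_fin, Fintype.card_bool]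
    have hX2 : 1 ≤ X ^ 2 := Nat.one_le_pow _ _ hX1
    have hXX2 : X ≤ X ^ 2 := Nat.le_self_pow (by norm_num) _
    have h1 : (g k + 1) + (m + (m * (m * 2) + m * (2 * (g k + 1)))) ≤ (3 * g k + 6) * X ^ 2 := by
      have e1 : m * (m * 2) ≤ 2 * X ^ 2 := by
        calc m * (m * 2) ≤ X * (X * 2) := Nat.mul_le_mul hmX (Nat.mul_le_mul_right _ hmX)
          _ = _ := by ring
      have e2 : m * (2 * (g k + 1)) ≤ X ^ 2 * (2 * (g k + 1)) :=
        Nat.mul_le_mul_right _ (hmX.trans hXX2)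
      calc _ ≤ (g k + 1) * X ^ 2 + (X ^ 2 + (2 * X ^ 2 + X ^ 2 * (2 * (g k + 1)))) := by
            apply Nat.add_le_add (Nat.le_mul_of_pos_right _ hX2)
            apply Nat.add_le_add (hmX.trans hXX2)
            exact Nat.add_le_add e1 e2
        _ = _ := by ring
    calc _ ≤ (g k + 1) * ((3 * g k + 6) * X ^ 2) * Z := by
          rw [h0]; exact Nat.mul_le_mul_right _ (Nat.mul_le_mul_left _ h1)
      _ = Ap * X ^ 5 := by rw [hAp, hZ]; ring
  obtain ⟨ω, hgood, hloc⟩ := phase1 (b := b1) (S := S) (D := D) (k := k) (B := B) (P := P)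
    (s := s) (rl := (b ^ 2 * B) :: List.replicate n N2) (Nt := b) (by omega) hS3
    (by rw [hB]; rfl) (by rw [hk]; rfl) (by omega) (by omega) (pool3 (n + 2) out (g k)) hdep hsize
    (by
      refine lt_of_le_of_lt ?_ hev1
      apply mul_le_mul_of_nonneg_right _ (by positivity)
      rw [← hX]
      exact_mod_cast hcard) hev2 hev3
  -- selections
  have hrow := hgood.hrow
  choose rs hrs using hrow
  set vs := vsel (Al (Aset b1 S) D ω) with hvs
  let enc : (Vx k B (P * B) → Vx k B (P * B) → Bool) →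
      (Fin (k + 1 + 2 * s ^ (((b ^ 2 * B) :: List.replicate n N2).length + 2)) → Bool) :=
    fun z => encS s ((b ^ 2 * B) :: List.replicate n N2) b
      (rho (Aset b1 S) (Mset b1 S) majS D ω z)
  have hlead : ∀ z, (pWSAT (n + 3)).κ _ (enc z) = k :=
    fun z => lead_encS s ((b ^ 2 * B) :: List.replicate n N2) b _
  let FF : Bool → Bool := fun v =>
    if fl ((List.replicate n N2).length + 1) false = true then !v else v
  let zy : (ℕ → Bool) → (Vx k B (P * B) → Vx k B (P * B) → Bool) :=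
    fun y => zP vs rs (fun p _ => FF (y p))
  have hpool : ∀ i, ∃ K : Finset (Vx k B (P * B)), K.card < S ∧
      Loc K (fun z => (pool3 (n + 2) out (g k) i).Holds (enc z)) := by
    intro i
    obtain ⟨K, hK1, -, hK3⟩ := hloc i
    exact ⟨K, hK1, hK3⟩
  have hSlt : 4 * (g k + 1) * S < S2 := by omega
  have hcondL : ∀ c : Ct (g k) m, LY S2 (fun y => condG (n + 2) out c (enc (zy y))) := by
    intro c
    obtain ⟨K, hK1, hK2⟩ := loc_comb (Ic c)
      (fun t z => (pool3 (n + 2) out (g k) t).Holds (enc z)) hpool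
      (G := fun z => condG (n + 2) out c (enc z))
      (fun z z' h hz => cond_det out c (enc z) (enc z') h hz)
    refine locY_of_loc vs rs FF (G := fun z => condG (n + 2) out c (enc z)) ⟨K, ?_, hK2⟩
    refine lt_of_le_of_lt hK1 (lt_of_le_of_lt ?_ hSlt)
    exact Nat.mul_le_mul_right _ (card_Ic_le c)
  have hleafL : ∀ (c : Ct (g k) m) β i, i < (sT (n + 2) m c.1) ^ (n + 1) →
      LY S2 (fun y => leafG (n + 2) out c (enc (zy y)) β i) := by
    intro c β i hi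
    have him : i < m := lt_of_lt_of_le hi (pow_sT_le (show 2 ≤ n + 2 by omega) m c.1)
    obtain ⟨K, hK1, hK2⟩ := loc_comb (Il c ⟨i, him⟩)
      (fun t z => (pool3 (n + 2) out (g k) t).Holds (enc z)) hpool
      (G := fun z => leafG (n + 2) out c (enc z) β i)
      (fun z z' h hz => leaf_det out c ⟨i, him⟩ β (enc z) (enc z') h hz)
    refine locY_of_loc vs rs FF (G := fun z => leafG (n + 2) out c (enc z) β i) ⟨K, ?_, hK2⟩
    refine lt_of_le_of_lt hK1 (lt_of_le_of_lt ?_ hSlt)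
    exact Nat.mul_le_mul_right _ (card_Il_le c _)
  have hcorr : ∀ y : ℕ → Bool, Fn b N2 n y ↔ ∃ c : Ct (g k) m,
      condG (n + 2) out c (enc (zy y)) ∧
      gate (sT (n + 2) m c.1) (fun β i => leafG (n + 2) out c (enc (zy y)) β i) (n + 1)
        true 0 := by
    intro y
    have h1 := hr (enc (zy y)) (hlead _)
    have h2 := acc3_iff (T := n + 2) out (g k) (enc (zy y)) h1.2
    have h3 := plant_gen hgood hk0 rs hrs (s := s) (N := b ^ 2) (Nt := b)
      (rl := List.replicate n N2) hok (by rw [List.prod_replicate, hP]) y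
    have h4 : (pWSAT (n + 3)).Q _ (enc (zy y)) ↔ Fn b N2 n y := by
      have h5 : pWSAT ((List.replicate n N2).length + 3) = pWSAT (n + 3) := by
        rw [List.length_replicate]
      rw [h5] at h3
      exact h3
    rw [← h4, h1.1, h2]
    rfl
  have hCt : Fintype.card (Ct (g k) m) ≤ (g k + 1) * A1 ^ g k * b ^ (E * E1 * g k) := by
    have h1 := card_Ct_le (g := g k) hX1 hmX
    have h2 : X ^ g k ≤ A1 ^ g k * b ^ (E * E1 * g k) := by
      rw [pow_mul, ← mul_pow]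
      exact Nat.pow_le_pow_left hXb _
    calc _ ≤ (g k + 1) * (A1 ^ g k * b ^ (E * E1 * g k)) :=
          h1.trans (Nat.mul_le_mul_left _ h2)
      _ = _ := by ring
  refine sipser_false (b := b) (S := S2) (N2 := N2) (X := X) hbS hS23 hN2
    (fun c : Ct (g k) m => sT (n + 2) m c.1) ?_ ?_ n
    (fun c y => condG (n + 2) out c (enc (zy y)))
    (fun c y β i => leafG (n + 2) out c (enc (zy y)) β i) ?_ hcondL hleafL ?_ hcorr
  · -- the numerical condition of the second phase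
    have h1 : Fintype.card (Ct (g k) m) * (2 * X) ≤ A2 * b ^ (E * E1 * (g k + 1)) := by
      have h2 := card_Ct_le (g := g k) hX1 hmX
      calc Fintype.card (Ct (g k) m) * (2 * X) ≤ (g k + 1) * X ^ g k * (2 * X) :=
            Nat.mul_le_mul_right _ h2
        _ = (g k + 1) * 2 * X ^ (g k + 1) := by ring
        _ ≤ (g k + 1) * 2 * (A1 * b ^ (E * E1)) ^ (g k + 1) :=
            Nat.mul_le_mul_left _ (Nat.pow_le_pow_left hXb _)
        _ = A2 * b ^ (E * E1 * (g k + 1)) := by rw [hA2, mul_pow, ← pow_mul]; ring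
    have h3 : ((Fintype.card (Ct (g k) m) : ℝ) * (2 * X)) ≤
        (A2 : ℝ) * (b : ℝ) ^ (E * E1 * (g k + 1)) := by exact_mod_cast h1
    refine lt_of_le_of_lt ?_ hev5
    rw [← hσ2]
    have h4 : ((2 / (b : ℝ)) ^ σ2) ^ S2 = 2 ^ (σ2 * S2) / (b : ℝ) ^ (σ2 * S2) := by
      rw [← pow_mul, div_pow]
    rw [h4]
    have h5 : (b : ℝ) ^ (E * E1 * (g k + 1)) * b ≤ (b : ℝ) ^ (σ2 * S2) := by
      rw [← pow_succ]
      exact pow_le_pow_right₀ (by exact_mod_cast (by omega : 1 ≤ b)) hexp2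
    rw [mul_div_assoc', div_le_div_iff₀ (by positivity) hb0]
    calc (Fintype.card (Ct (g k) m) : ℝ) * (2 * X) * 2 ^ (σ2 * S2) * b
        ≤ ((A2 : ℝ) * (b : ℝ) ^ (E * E1 * (g k + 1))) * 2 ^ (σ2 * S2) * b := by
          apply mul_le_mul_of_nonneg_right _ hb0.le
          exact mul_le_mul_of_nonneg_right h3 (by positivity)
      _ = ((A2 : ℝ) * 2 ^ (σ2 * S2)) * ((b : ℝ) ^ (E * E1 * (g k + 1)) * b) := by ring
      _ ≤ ((A2 : ℝ) * 2 ^ (σ2 * S2)) * (b : ℝ) ^ (σ2 * S2) :=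
          mul_le_mul_of_nonneg_left h5 (by positivity)
  · obtain ⟨L, hL1, hL2⟩ := hev6
    refine ⟨L, hL1, lt_of_le_of_lt ?_ hL2⟩
    exact_mod_cast hCt
  · have h1 : b * N2 ^ n ≤ b ^ E := by
      rw [← hb1, ← hPb1, hP]
      apply Nat.mul_le_mul_left
      exact Nat.le_mul_of_pos_left _ (by positivity)
    refine lt_of_le_of_lt ?_ hev4
    apply mul_le_mul_of_nonneg_right _ (Real.exp_pos _).le
    exact_mod_cast h1
  · intro c
    exact (pow_sT_le (show 2 ≤ n + 2 by omega) m c.1).trans hmX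

end

end Pool.Agent.H68WH
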