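import Pool.Agent.H592R2.Prob

set_option linter.unusedSectionVars false

/-! Perfect hash families. -/

namespace Pool.Agent.H68WH

open Finset Classical
open Pool.Agent.H592R2

noncomputable section

lemma avg_ind_eq {Ω : Type} [Fintype Ω] (p : Ω → Prop) [DecidablePred p] :
    avg (fun ω => ind (p ω)) = ((Finset.univ.filter p).card : ℝ) / Fintype.card Ω := by
  unfold avg
  congr 1
  rw [Finset.card_filter]
  push_cast
  apply Finset.sum_congr rfl
  intro ω _
  by_cases h : p ω
  · rw [ind_true h, if_pos h]
  · rw [ind_false h, if_neg h]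

/-- a random function is injective on a given tuple with positive probability -/
lemma avg_inj {s a : ℕ} (t : Fin (a + 1) → Fin s) (ht : Function.Injective t) :
    (1 / ((a + 1 : ℕ) : ℝ)) ^ (a + 1) ≤
      avg (fun h : Fin s → Fin (a + 1) => ind (Function.Injective (fun c => h (t c)))) := by
  have h1 := avg_box (T := fun _ : Fin s => Fin (a + 1)) (Finset.univ.image t)
    (fun j => Finset.univ.filter (fun x => ∀ c, t c = j → x = c))
  have h2 : ∏ j ∈ Finset.univ.image t,
      ((Finset.univ.filter (fun x : Fin (a + 1) => ∀ c, t c = j → x = c)).card : ℝ) /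
        (Fintype.card (Fin (a + 1)) : ℝ) = (1 / ((a + 1 : ℕ) : ℝ)) ^ (a + 1) := by
    rw [Finset.prod_congr rfl (g := fun _ => 1 / ((a + 1 : ℕ) : ℝ)), Finset.prod_const,
      Finset.card_image_of_injective _ ht, Finset.card_univ, Fintype.card_fin]
    intro j hj
    rw [Finset.mem_image] at hj
    obtain ⟨c, -, rfl⟩ := hj
    have : (Finset.univ.filter (fun x : Fin (a + 1) => ∀ c', t c' = t c → x = c')) = {c} := by
      ext x
      rw [Finset.mem_filter, Finset.mem_singleton]
      constructor
      · rintro ⟨-, h⟩; exact h c rfl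
      · rintro rfl
        refine ⟨Finset.mem_univ _, ?_⟩
        intro c' hc'
        exact (ht hc').symm
    rw [this, Finset.card_singleton, Fintype.card_fin, Nat.cast_one]
  rw [h2] at h1
  rw [← h1]
  apply avg_mono
  intro h
  apply ind_mono
  intro hall c c' hcc'
  have e1 : h (t c) = c := by
    have := hall (t c) (Finset.mem_image_of_mem _ (Finset.mem_univ c))
    exact (Finset.mem_filter.mp this).2 c rfl
  have e2 : h (t c') = c' := by
    have := hall (t c') (Finset.mem_image_of_mem _ (Finset.mem_univ c'))
    exact (Finset.mem_filter.mp this).2 c' rfl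
  simp only at hcc'
  rw [e1, e2] at hcc'
  exact hcc'

/-- perfect hash families -/
theorem exists_hash (s a : ℕ) : ∃ h : Fin ((a + 1) ^ (a + 1) * ((a + 1) * s + 1)) →
    Fin s → Fin (a + 1), ∀ t : Fin (a + 1) → Fin s, Function.Injective t →
      ∃ l, Function.Injective (fun c => h l (t c)) := by
  obtain ⟨L, hL⟩ : ∃ L, L = (a + 1) ^ (a + 1) * ((a + 1) * s + 1) := ⟨_, rfl⟩
  rw [← hL]
  set q : ℝ := (1 / ((a + 1 : ℕ) : ℝ)) ^ (a + 1) with hq
  have ha0 : (0:ℝ) < ((a + 1 : ℕ) : ℝ) := by exact_mod_cast Nat.succ_pos a
  have hq0 : 0 < q := by rw [hq]; positivity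
  have hq1 : q ≤ 1 := by
    rw [hq]
    apply pow_le_one₀ (by positivity)
    rw [div_le_one ha0]
    exact_mod_cast Nat.succ_le_succ (Nat.zero_le a)
  have hbad : avg (fun h : Fin L → Fin s → Fin (a + 1) =>
      ind (∃ t ∈ (Finset.univ.filter (fun t : Fin (a + 1) → Fin s => Function.Injective t)),
        ∀ l ∈ (Finset.univ : Finset (Fin L)), h l ∈ (Finset.univ.filter
          (fun f : Fin s → Fin (a + 1) => ¬ Function.Injective (fun c => f (t c)))))) < 1 := by
    refine lt_of_le_of_lt (avg_mono (fun h => ind_exists_le _ _)) ?_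
    rw [avg_sum]
    have h1 : ∀ t ∈ (Finset.univ.filter (fun t : Fin (a + 1) → Fin s => Function.Injective t)),
        avg (fun h : Fin L → Fin s → Fin (a + 1) =>
          ind (∀ l ∈ (Finset.univ : Finset (Fin L)), h l ∈ (Finset.univ.filter
            (fun f : Fin s → Fin (a + 1) => ¬ Function.Injective (fun c => f (t c)))))) ≤
        (1 - q) ^ L := by
      intro t ht
      rw [Finset.mem_filter] at ht
      rw [avg_box (T := fun _ : Fin L => (Fin s → Fin (a + 1))) Finset.univ
        (fun _ => Finset.univ.filter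
          (fun f : Fin s → Fin (a + 1) => ¬ Function.Injective (fun c => f (t c)))),
        Finset.prod_const, Finset.card_univ, Fintype.card_fin]
      apply pow_le_pow_left₀ (by positivity)
      rw [← avg_ind_eq]
      have h2 : (fun f : Fin s → Fin (a + 1) =>
          ind (¬ Function.Injective (fun c => f (t c)))) =
          fun f => 1 - ind (Function.Injective (fun c => f (t c))) := by
        funext f
        by_cases hf : Function.Injective (fun c => f (t c))
        · rw [ind_false (not_not.mpr hf), ind_true hf, sub_self]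
        · rw [ind_true hf, ind_false hf, sub_zero]
      rw [h2, avg_sub, avg_const]
      have := avg_inj t ht.2
      linarith
    refine lt_of_le_of_lt (Finset.sum_le_sum h1) ?_
    rw [Finset.sum_const, nsmul_eq_mul]
    have hc : ((Finset.univ.filter (fun t : Fin (a + 1) → Fin s =>
        Function.Injective t)).card : ℝ) ≤ (s : ℝ) ^ (a + 1) := by
      have : (Finset.univ.filter (fun t : Fin (a + 1) → Fin s =>
        Function.Injective t)).card ≤ s ^ (a + 1) := by
        refine (Finset.card_le_univ _).trans ?_
        rw [Fintype.card_fun, Fintype.card_fin, Fintype.card_fin]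
      exact_mod_cast this
    have h3 : (1 - q) ^ L ≤ Real.exp (-((a + 1 : ℕ) * s + 1)) := by
      have h4 : 1 - q ≤ Real.exp (-q) := by
        have := Real.add_one_le_exp (-q); linarith
      calc (1 - q) ^ L ≤ Real.exp (-q) ^ L := pow_le_pow_left₀ (by linarith) h4 L
        _ = Real.exp (-((a + 1 : ℕ) * s + 1)) := by
            rw [← Real.exp_nat_mul]
            congr 1
            rw [hq, hL]
            push_cast
            rw [one_div, inv_pow]
            have : ((a : ℝ) + 1) ^ (a + 1) ≠ 0 := by positivity
            field_simp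
    have h5 : (s : ℝ) ^ (a + 1) ≤ Real.exp ((a + 1 : ℕ) * s) := by
      have h6 : (s : ℝ) ≤ Real.exp s := by
        have := Real.add_one_le_exp (s : ℝ); linarith
      calc (s : ℝ) ^ (a + 1) ≤ Real.exp s ^ (a + 1) :=
            pow_le_pow_left₀ (Nat.cast_nonneg _) h6 _
        _ = _ := by rw [← Real.exp_nat_mul]
    calc _ ≤ Real.exp ((a + 1 : ℕ) * s) * Real.exp (-((a + 1 : ℕ) * s + 1)) :=
          mul_le_mul (hc.trans h5) h3 (by
            apply pow_nonneg; linarith) (Real.exp_pos _).le
      _ = Real.exp (-1) := by rw [← Real.exp_add]; congr 1; ring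
      _ < 1 := by rw [Real.exp_lt_one_iff]; norm_num
  obtain ⟨h, hh⟩ := exists_not_of_avg_lt hbad
  refine ⟨h, ?_⟩
  intro t ht
  by_contra hc
  push Not at hc
  apply hh
  exact ⟨t, Finset.mem_filter.mpr ⟨Finset.mem_univ _, ht⟩,
    fun l _ => Finset.mem_filter.mpr ⟨Finset.mem_univ _, hc l⟩⟩

end

end Pool.Agent.H68WH
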