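import Pool.Agent.H68WH.Phase1

set_option linter.unusedSectionVars false

/-! Choice of the parameters. -/

namespace Pool.Agent.H68WH

open Finset Classical Filter
open Pool.Agent.H592R2

noncomputable section

/-- block size -/
def Bp (S D b : ℕ) : ℕ := b ^ (2 * sg S * D + 1)
/-- the parameter of the source instances -/
def kp (S D : ℕ) : ℕ := 2 * sg S * D + 3
/-- fan-in of the source instances -/
def sp (S D b : ℕ) : ℕ := (kp S D * Bp S D b) ^ 2 + b * Bp S D b + 3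
/-- length of the source instances -/
def np (S D T b : ℕ) : ℕ := kp S D + 1 + 2 * (sp S D b) ^ T
/-- bound for the size of the reduction -/
def Xp (S D T b : ℕ) (f : ℕ → ℕ) (c0 : ℕ) : ℕ := f (kp S D) * (np S D T b + 1) ^ c0 + 1

lemma sp_le (S D : ℕ) {b : ℕ} (hb : 1 ≤ b) :
    sp S D b ≤ ((kp S D) ^ 2 + 4) * b ^ (4 * sg S * D + 2) := by
  unfold sp Bp
  have h1 : (kp S D * b ^ (2 * sg S * D + 1)) ^ 2 = (kp S D) ^ 2 * b ^ (4 * sg S * D + 2) := by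
    rw [mul_pow, ← pow_mul]; congr 2; ring
  have h2 : b * b ^ (2 * sg S * D + 1) ≤ b ^ (4 * sg S * D + 2) := by
    rw [← pow_succ']
    apply Nat.pow_le_pow_right hb
    have : 2 * sg S * D ≤ 4 * sg S * D := by
      apply Nat.mul_le_mul_right; apply Nat.mul_le_mul_right; norm_num
    omega
  have h3 : 1 ≤ b ^ (4 * sg S * D + 2) := Nat.one_le_pow _ _ hb
  rw [h1]
  calc _ ≤ (kp S D) ^ 2 * b ^ (4 * sg S * D + 2) + b ^ (4 * sg S * D + 2) +
        3 * b ^ (4 * sg S * D + 2) := by omega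
    _ = _ := by ring

lemma Xp_le (S D T : ℕ) (f : ℕ → ℕ) (c0 : ℕ) : ∃ A1 : ℕ, 1 ≤ A1 ∧ ∀ b : ℕ, 1 ≤ b →
    Xp S D T b f c0 ≤ A1 * b ^ (c0 * (T * (4 * sg S * D + 2))) := by
  refine ⟨f (kp S D) * (kp S D + 2 + 2 * ((kp S D) ^ 2 + 4) ^ T) ^ c0 + 1, by omega, ?_⟩
  intro b hb
  have h1 : np S D T b + 1 ≤ (kp S D + 2 + 2 * ((kp S D) ^ 2 + 4) ^ T) *
      b ^ (T * (4 * sg S * D + 2)) := by
    unfold np
    have h2 : (sp S D b) ^ T ≤ ((kp S D) ^ 2 + 4) ^ T * b ^ (T * (4 * sg S * D + 2)) := by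
      calc (sp S D b) ^ T ≤ (((kp S D) ^ 2 + 4) * b ^ (4 * sg S * D + 2)) ^ T :=
            Nat.pow_le_pow_left (sp_le S D hb) T
        _ = _ := by rw [mul_pow, ← pow_mul]; congr 2; ring
    have h3 : 1 ≤ b ^ (T * (4 * sg S * D + 2)) := Nat.one_le_pow _ _ hb
    calc kp S D + 1 + 2 * (sp S D b) ^ T + 1 ≤
          (kp S D + 2) * 1 + 2 * (((kp S D) ^ 2 + 4) ^ T * b ^ (T * (4 * sg S * D + 2))) := by
          omega
      _ ≤ (kp S D + 2) * b ^ (T * (4 * sg S * D + 2)) +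
          2 * (((kp S D) ^ 2 + 4) ^ T * b ^ (T * (4 * sg S * D + 2))) :=
          Nat.add_le_add_right (Nat.mul_le_mul_left _ h3) _
      _ = _ := by ring
  unfold Xp
  have h4 : (np S D T b + 1) ^ c0 ≤ (kp S D + 2 + 2 * ((kp S D) ^ 2 + 4) ^ T) ^ c0 *
      b ^ (c0 * (T * (4 * sg S * D + 2))) := by
    calc _ ≤ ((kp S D + 2 + 2 * ((kp S D) ^ 2 + 4) ^ T) * b ^ (T * (4 * sg S * D + 2))) ^ c0 :=
          Nat.pow_le_pow_left h1 c0
      _ = _ := by rw [mul_pow, ← pow_mul]; congr 2; ring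
  have h5 : 1 ≤ b ^ (c0 * (T * (4 * sg S * D + 2))) := Nat.one_le_pow _ _ hb
  calc _ ≤ f (kp S D) * ((kp S D + 2 + 2 * ((kp S D) ^ 2 + 4) ^ T) ^ c0 *
      b ^ (c0 * (T * (4 * sg S * D + 2)))) + b ^ (c0 * (T * (4 * sg S * D + 2))) :=
        Nat.add_le_add (Nat.mul_le_mul_left _ h4) h5
    _ = _ := by ring

lemma ev_pool (D T c0 e : ℕ) (f : ℕ → ℕ) (hT : 1 ≤ T) (A : ℝ) (hA : 0 ≤ A) {S : ℕ}
    (hS : S = c0 * (T * (4 * D + 2)) * e + 3) :
    ∀ᶠ b : ℕ in atTop, A * (Xp S D T b f c0 : ℝ) ^ e * ((2 / (b : ℝ)) ^ sg S) ^ S < 1 / 4 := by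
  obtain ⟨A1, hA1, hX⟩ := Xp_le S D T f c0
  obtain ⟨σ, hσ⟩ : ∃ σ, σ = sg S := ⟨_, rfl⟩
  have hσ1 : 1 ≤ σ := by rw [hσ]; exact sg_pos (by omega)
  obtain ⟨E1, hE1⟩ : ∃ E1, E1 = c0 * (T * (4 * σ * D + 2)) := ⟨_, rfl⟩
  have hexp : E1 * e + 1 ≤ σ * S := by
    have h1 : c0 * (T * (4 * σ * D + 2)) * e ≤ σ * (c0 * (T * (4 * D + 2)) * e) := by
      calc c0 * (T * (4 * σ * D + 2)) * e ≤ c0 * (T * (4 * σ * D + 2 * σ)) * e := by
            apply Nat.mul_le_mul_right; apply Nat.mul_le_mul_left; apply Nat.mul_le_mul_left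
            omega
        _ = σ * (c0 * (T * (4 * D + 2)) * e) := by ring
    have h3 : σ * S = σ * (c0 * (T * (4 * D + 2)) * e) + σ * 3 := by
      conv_lhs => rw [hS]
      ring
    rw [hE1, h3]
    omega
  filter_upwards [ev_div (A * A1 ^ e * 2 ^ (σ * S)), eventually_ge_atTop 1] with b hb hb1
  have hb0 : (0:ℝ) < b := by exact_mod_cast hb1
  refine lt_of_le_of_lt ?_ hb
  have h1 : (Xp S D T b f c0 : ℝ) ^ e ≤ (A1 : ℝ) ^ e * (b : ℝ) ^ (E1 * e) := by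
    rw [pow_mul, ← mul_pow]
    apply pow_le_pow_left₀ (by positivity)
    have := hX b hb1
    rw [← hσ, ← hE1] at this
    exact_mod_cast this
  have h2 : ((2 / (b : ℝ)) ^ sg S) ^ S = 2 ^ (σ * S) / (b : ℝ) ^ (σ * S) := by
    rw [← pow_mul, div_pow, hσ]
  rw [h2]
  have h3 : (b : ℝ) ^ (E1 * e) * b ≤ (b : ℝ) ^ (σ * S) := by
    rw [← pow_succ]
    exact pow_le_pow_right₀ (by exact_mod_cast hb1) hexp
  rw [mul_div_assoc', div_le_div_iff₀ (by positivity) hb0]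
  have h4 : (0:ℝ) ≤ A * 2 ^ (σ * S) := by positivity
  calc A * (Xp S D T b f c0 : ℝ) ^ e * 2 ^ (σ * S) * b
      = (A * 2 ^ (σ * S)) * ((Xp S D T b f c0 : ℝ) ^ e * b) := by ring
    _ ≤ (A * 2 ^ (σ * S)) * (((A1 : ℝ) ^ e * (b : ℝ) ^ (E1 * e)) * b) := by
        apply mul_le_mul_of_nonneg_left _ h4
        exact mul_le_mul_of_nonneg_right h1 hb0.le
    _ = (A * 2 ^ (σ * S)) * ((A1 : ℝ) ^ e) * ((b : ℝ) ^ (E1 * e) * b) := by ring
    _ ≤ (A * 2 ^ (σ * S)) * ((A1 : ℝ) ^ e) * (b : ℝ) ^ (σ * S) := by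
        apply mul_le_mul_of_nonneg_left h3; positivity
    _ = _ := by ring

lemma ev_pow2 (A E C : ℕ) : ∀ᶠ q : ℕ in atTop, (A : ℝ) * ((C : ℝ) * (q + 1)) ^ E < 2 ^ q := by
  have h1 := tendsto_pow_const_div_const_pow_of_one_lt E (show (1:ℝ) < 2 by norm_num)
  have h2 := h1.comp (tendsto_add_atTop_nat 1)
  have h3 := (h2.const_mul ((A : ℝ) * (C : ℝ) ^ E * 2))
  rw [mul_zero] at h3
  filter_upwards [h3.eventually (gt_mem_nhds (show (0:ℝ) < 1 by norm_num))] with q hq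
  simp only [Function.comp] at hq
  rw [mul_div_assoc', div_lt_one (by positivity), pow_succ (2:ℝ) q] at hq
  have h4 : (A : ℝ) * (C : ℝ) ^ E * 2 * ((q + 1 : ℕ) : ℝ) ^ E =
      (A : ℝ) * ((C : ℝ) * (q + 1)) ^ E * 2 := by
    rw [mul_pow]; push_cast; ring
  rw [h4] at hq
  linarith

/-- powers of `1 + 1/N` -/
lemma two_pow_le {N : ℕ} (hN : 0 < N) (q : ℕ) : (2:ℝ) ^ q ≤ (1 + 1 / (N : ℝ)) ^ (N * q) := by
  rw [pow_mul]
  apply pow_le_pow_left₀ (by norm_num)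
  have h1 := one_add_mul_le_pow (show (-2:ℝ) ≤ 1 / (N : ℝ) by
    have : (0:ℝ) ≤ 1 / (N : ℝ) := by positivity
    linarith) N
  have hN' : (N : ℝ) ≠ 0 := by exact_mod_cast hN.ne'
  have h2 : (1:ℝ) + N * (1 / (N : ℝ)) = 2 := by
    field_simp; norm_num
  linarith

/-- choice of the number of steps in the density argument -/
lemma ev_steps (A E N : ℕ) (C : ℕ) (hN : 0 < N) (hC : 0 < C) : ∀ᶠ b : ℕ in atTop,
    ∃ L : ℕ, C * L < b ∧ (A : ℝ) * (b : ℝ) ^ E < (1 + 1 / (N : ℝ)) ^ L := by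
  have h1 := ev_pow2 A E (C * N)
  rw [eventually_atTop] at h1
  obtain ⟨q0, hq0⟩ := h1
  filter_upwards [eventually_ge_atTop (C * N * (q0 + 1) + 1)] with b hb
  have hCN : 0 < C * N := Nat.mul_pos hC hN
  set q := (b - 1) / (C * N) with hq
  have hqq : q0 ≤ q := by
    rw [hq, Nat.le_div_iff_mul_le hCN]
    have : q0 * (C * N) ≤ C * N * (q0 + 1) := by
      calc q0 * (C * N) = C * N * q0 := by ring
        _ ≤ _ := Nat.mul_le_mul_left _ (by omega)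
    omega
  have h2 := hq0 q hqq
  have h3 : C * N * q ≤ b - 1 := by
    rw [hq]; exact Nat.mul_div_le _ _
  have h4 : b ≤ C * N * (q + 1) := by
    have h5 : b - 1 < C * N * (q + 1) := by
      have := Nat.lt_mul_div_succ (b - 1) hCN
      rw [← hq] at this
      exact this
    omega
  refine ⟨N * q, ?_, ?_⟩
  · have : C * (N * q) = C * N * q := by ring
    omega
  · refine lt_of_le_of_lt ?_ (lt_of_lt_of_le h2 (two_pow_le hN q))
    apply mul_le_mul_of_nonneg_left _ (Nat.cast_nonneg _)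
    apply pow_le_pow_left₀ (Nat.cast_nonneg _)
    exact_mod_cast h4

end

end Pool.Agent.H68WH
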