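import Pool.Agent.H68WH.Plant

set_option linter.unusedSectionVars false

/-! The first phase: existence of a good restriction. -/

namespace Pool.Agent.H68WH

open Finset Classical
open Pool.Agent.H592R2

noncomputable section

lemma one_add_pow_le {x : ℝ} (h0 : 0 ≤ x) (h1 : x ≤ 1) (k : ℕ) :
    (1 + x) ^ k ≤ 1 + (2 ^ k - 1) * x := by
  induction k with
  | zero => simp
  | succ k ih =>
    have h2 : (1:ℝ) ≤ 2 ^ k := one_le_pow₀ (by norm_num)
    calc (1 + x) ^ (k + 1) = (1 + x) ^ k * (1 + x) := pow_succ _ _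
      _ ≤ (1 + (2 ^ k - 1) * x) * (1 + x) := mul_le_mul_of_nonneg_right ih (by linarith)
      _ = 1 + 2 ^ k * x + (2 ^ k - 1) * (x * x) := by ring
      _ ≤ 1 + 2 ^ k * x + (2 ^ k - 1) * x := by
          have : x * x ≤ x := by nlinarith
          have := mul_le_mul_of_nonneg_left this (by linarith : (0:ℝ) ≤ 2 ^ k - 1)
          linarith
      _ = 1 + (2 ^ (k + 1) - 1) * x := by rw [pow_succ]; ring

lemma one_sub_pow_le_exp {b e B : ℕ} (hb : 1 ≤ b) (hB : B = b ^ (e + 1)) {p : ℝ}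
    (hp : p = 1 / (b : ℝ) ^ e) : (1 - p) ^ B ≤ Real.exp (-b) := by
  have hb0 : (0:ℝ) < b := by exact_mod_cast hb
  have hp1 : p ≤ 1 := by
    rw [hp, div_le_one (by positivity)]
    exact one_le_pow₀ (by exact_mod_cast hb)
  have h1 : 1 - p ≤ Real.exp (-p) := by
    have := Real.add_one_le_exp (-p); linarith
  calc (1 - p) ^ B ≤ Real.exp (-p) ^ B := pow_le_pow_left₀ (by linarith) h1 B
    _ = Real.exp (-b) := by
        rw [← Real.exp_nat_mul]
        congr 1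
        rw [hp, hB]
        push_cast
        rw [pow_succ]
        field_simp

/-- existence of a good restriction that makes all formulas of a pool local -/
theorem phase1 {b S D k B P s : ℕ} [NeZero b] [NeZero B] {rl : List ℕ} {Nt : ℕ}
    (hb2 : 2 ≤ b) (hS3 : 3 ≤ S) (hB : B = b ^ (2 * sg S * D + 1)) (hk : k = 2 * sg S * D + 3)
    (hP : P ≤ b) (hP0 : 0 < P)
    {ι : Type} [Fintype ι] (φ : ι → Fml (k + 1 + 2 * s ^ (rl.length + 2))) {Z : ℕ}
    (hdep : ∀ i, (φ i).depth ≤ D) (hsize : ∀ i, (φ i).size ≤ Z)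
    (hN1 : (Fintype.card ι : ℝ) * Z * ((2 / (b : ℝ)) ^ sg S) ^ S < 1 / 4)
    (hN2 : (2 : ℝ) ^ k / b < 1 / 4) (hN4 : ((k : ℝ) + b) * Real.exp (-b) < 1 / 4) :
    ∃ ω : Crd D (Vx k B (P * B)) → Tau b S, GoodW (Aset b S) (Mset b S) ω ∧
      ∀ i, LocAt (Aset b S) S D ω
        (fun z => (φ i).Holds (encS s rl Nt (rho (Aset b S) (Mset b S) majS D ω z))) := by
  have hb0 : (0 : ℝ) < b := by exact_mod_cast (by omega : 0 < b)
  have hb1' : 1 ≤ b := by omega
  have hb1r : (1:ℝ) ≤ b := by exact_mod_cast hb1'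
  obtain ⟨σ, hσ⟩ : ∃ σ, σ = sg S := ⟨_, rfl⟩
  have hσ1 : 1 ≤ σ := by rw [hσ]; exact sg_pos hS3
  have hP1 := P1_inst (b := b) (S := S) hb2 hS3
  have hBpos : 0 < B := NeZero.pos B
  have hne : Nonempty (Vx k B (P * B)) :=
    ⟨Sum.inr ⟨0, Nat.mul_pos hP0 hBpos⟩⟩
  have hcardτ : (Fintype.card (Tau b S) : ℝ) = (b : ℝ) ^ (2 * σ) := by
    simp [Tau, Fintype.card_fin, hσ]
  have hAr : ((Aset b S).card : ℝ) / Fintype.card (Tau b S) = 1 / (b : ℝ) ^ (2 * σ) := by
    rw [hcardτ]; simp [Aset]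
  have hMr : ((Mset b S).card : ℝ) / Fintype.card (Tau b S) = 1 / b := by
    rw [card_Mset b S hb1', hcardτ, ← hσ]
    have hpow : (b : ℝ) ^ (2 * σ) = b ^ (2 * σ - 1) * b := by
      rw [← pow_succ]; congr 1; omega
    rw [hpow]
    push_cast
    field_simp
  have hpD : (((Aset b S).card : ℝ) / Fintype.card (Tau b S)) ^ D =
      1 / (b : ℝ) ^ (2 * σ * D) := by
    rw [hAr, one_div_pow, ← pow_mul]
  have hexp : (1 - (((Aset b S).card : ℝ) / Fintype.card (Tau b S)) ^ D) ^ B ≤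
      Real.exp (-b) := by
    apply one_sub_pow_le_exp hb1' (e := 2 * σ * D) _ hpD
    rw [hB, hσ]
  -- bad events
  let bad : (Crd D (Vx k B (P * B)) → Tau b S) → Prop := fun ω =>
    (∃ i ∈ (Finset.univ : Finset ι), ¬ LocAt (Aset b S) S D ω
        (fun z => (φ i).Holds (encS s rl Nt (rho (Aset b S) (Mset b S) majS D ω z)))) ∨
    ((∃ u : Fin k → Fin B, u ≠ vsel (Al (Aset b S) D ω) ∧
      ∀ p ∈ dpairs u (vsel (Al (Aset b S) D ω)),
        ω (Sum.inr (Sum.inl (p.1, u p.1), Sum.inl (p.2, u p.2))) ∈ Mset b S) ∨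
    ((∃ w : Fin (P * B), ∀ i : Fin k,
      ω (Sum.inr (Sum.inr w, Sum.inl (i, vsel (Al (Aset b S) D ω) i))) ∈ Mset b S) ∨
    ((∃ i : Fin k, ∀ x : Fin B, ¬ Al (Aset b S) D ω (Sum.inl (i, x) : Vx k B (P * B))) ∨
    (∃ p : Fin P, ∀ j : Fin B,
      ¬ Al (Aset b S) D ω (Sum.inr (finProdFinEquiv (p, j)) : Vx k B (P * B))))))
  have hb1 : avg (fun ω : Crd D (Vx k B (P * B)) → Tau b S =>
      ind (∃ i ∈ (Finset.univ : Finset ι), ¬ LocAt (Aset b S) S D ω
        (fun z => (φ i).Holds (encS s rl Nt (rho (Aset b S) (Mset b S) majS D ω z))))) ≤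
      (Fintype.card ι : ℝ) * Z * ((2 / (b : ℝ)) ^ sg S) ^ S := by
    refine (avg_mono (fun ω => ind_exists_le _ _)).trans ?_
    rw [avg_sum]
    have h1 : ∀ i ∈ (Finset.univ : Finset ι),
        avg (fun ω : Crd D (Vx k B (P * B)) → Tau b S => ind (¬ LocAt (Aset b S) S D ω
        (fun z => (φ i).Holds (encS s rl Nt (rho (Aset b S) (Mset b S) majS D ω z))))) ≤
        (Z : ℝ) * ((2 / (b : ℝ)) ^ sg S) ^ S := by
      intro i _
      have h1 := fml_local (D := D) (V := Vx k B (P * B)) hP1 majS (encS s rl Nt)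
        (encS_henc s rl Nt) (φ i) D le_rfl (hdep i)
      refine h1.trans ?_
      exact mul_le_mul_of_nonneg_right (by exact_mod_cast hsize i) (by positivity)
    refine (Finset.sum_le_sum h1).trans ?_
    rw [Finset.sum_const, nsmul_eq_mul, Finset.card_univ, mul_assoc]
  have hb2' := avg_uniq (k := k) (Bu := B) (Wn := P * B) (D := D) (Aset b S) (Mset b S)
  have hb3 := avg_row (k := k) (Bu := B) (Wn := P * B) (D := D) (Aset b S) (Mset b S)
  have hb4 := avg_col (k := k) (Bu := B) (Wn := P * B) (D := D) (Aset b S)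
  have hb5 := avg_rsel (k := k) (Bu := B) (P := P) (B := B) (D := D) (Aset b S)
  rw [hMr] at hb2' hb3
  have hBr : (B : ℝ) = (b : ℝ) ^ (2 * σ * D + 1) := by rw [hB, hσ]; push_cast; rfl
  have hq : (B : ℝ) * (1 / (b : ℝ)) ^ (k - 1) = 1 / b := by
    rw [hBr, one_div_pow]
    have : k - 1 = (2 * σ * D + 1) + 1 := by rw [hk, hσ]; omega
    rw [this, pow_succ (b : ℝ) (2 * σ * D + 1)]
    field_simp
  rw [hq] at hb2'
  have hb2'' : (1 + 1 / (b : ℝ)) ^ k - 1 ≤ (2 ^ k) / b := by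
    have h0 : 0 ≤ 1 / (b : ℝ) := by positivity
    have h1 : 1 / (b : ℝ) ≤ 1 := by rw [div_le_one hb0]; exact hb1r
    have := one_add_pow_le h0 h1 k
    have h2 : (2 ^ k - 1) * (1 / (b:ℝ)) ≤ 2 ^ k / b := by
      rw [mul_one_div]
      exact div_le_div_of_nonneg_right (by linarith) hb0.le
    linarith
  have hb3' : ((P * B : ℕ) : ℝ) * (1 / (b : ℝ)) ^ k ≤ 1 / b := by
    have h1 : ((P * B : ℕ) : ℝ) ≤ b * B := by
      push_cast
      exact mul_le_mul_of_nonneg_right (by exact_mod_cast hP) (Nat.cast_nonneg _)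
    have h2 : (b : ℝ) * B * (1 / (b : ℝ)) ^ k = 1 / b := by
      rw [hBr, one_div_pow]
      have : k = (2 * σ * D + 1) + 1 + 1 := by rw [hk, hσ]
      rw [this, pow_succ (b : ℝ) (2 * σ * D + 1 + 1), pow_succ (b : ℝ) (2 * σ * D + 1)]
      field_simp
    calc _ ≤ (b : ℝ) * B * (1 / (b : ℝ)) ^ k := mul_le_mul_of_nonneg_right h1 (by positivity)
      _ = _ := h2
  have hk8 : (8 : ℝ) ≤ 2 ^ k := by
    have : (2:ℝ) ^ 3 ≤ 2 ^ k := pow_le_pow_right₀ (by norm_num) (by omega)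
    linarith
  have hb32 : 1 / (b : ℝ) < 1 / 32 := by
    have h1 : 8 / (b : ℝ) ≤ 2 ^ k / b := div_le_div_of_nonneg_right hk8 hb0.le
    have h2 : 8 / (b : ℝ) = 8 * (1 / b) := by ring
    linarith
  have hb4' : (k : ℝ) * (1 - (((Aset b S).card : ℝ) / Fintype.card (Tau b S)) ^ D) ^ B ≤
      k * Real.exp (-b) := mul_le_mul_of_nonneg_left hexp (Nat.cast_nonneg _)
  have hb5' : (P : ℝ) * (1 - (((Aset b S).card : ℝ) / Fintype.card (Tau b S)) ^ D) ^ B ≤
      b * Real.exp (-b) := by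
    calc _ ≤ (P : ℝ) * Real.exp (-b) := mul_le_mul_of_nonneg_left hexp (Nat.cast_nonneg _)
      _ ≤ _ := mul_le_mul_of_nonneg_right (by exact_mod_cast hP) (Real.exp_pos _).le
  have hbad : avg (fun ω => ind (bad ω)) < 1 := by
    have h1 : ∀ ω, ind (bad ω) ≤ _ := fun ω => (ind_or_le _ _).trans
      (add_le_add le_rfl ((ind_or_le _ _).trans (add_le_add le_rfl ((ind_or_le _ _).trans
        (add_le_add le_rfl (ind_or_le _ _))))))
    refine lt_of_le_of_lt (avg_mono h1) ?_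
    rw [avg_add, avg_add, avg_add, avg_add]
    have h6 : ((k : ℝ) + b) * Real.exp (-b) = k * Real.exp (-b) + b * Real.exp (-b) := by ring
    linarith
  obtain ⟨ω, hω⟩ := exists_not_of_avg_lt hbad
  simp only [bad, not_or] at hω
  obtain ⟨hω1, hω2, hω3, hω4, hω5⟩ := hω
  refine ⟨ω, ⟨?_, ?_, ?_, ?_⟩, ?_⟩
  · intro i
    by_contra hc
    push Not at hc
    exact hω4 ⟨i, hc⟩
  · intro p
    by_contra hc
    push Not at hc
    exact hω5 ⟨p, hc⟩
  · intro u hu
    by_contra hc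
    push Not at hc
    exact hω2 ⟨u, hu, hc⟩
  · intro w
    by_contra hc
    push Not at hc
    exact hω3 ⟨w, hc⟩
  · intro i
    by_contra hc
    exact hω1 ⟨i, Finset.mem_univ _, hc⟩

end

end Pool.Agent.H68WH
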