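import Pool.Agent.H68WH.Events

set_option linter.unusedSectionVars false

/-! Planted instances. -/

namespace Pool.Agent.H68WH

open Finset Classical
open Pool.Agent.H592R2

noncomputable section

variable {k Bu P B D : ℕ} [NeZero Bu] {τ : Type} [Fintype τ] [Nonempty τ] [DecidableEq τ]

/-- good restrictions -/
structure GoodW (A Mi : Finset τ) (ω : Crd D (Vx k Bu (P * B)) → τ) : Prop where
  hcol : ∀ i : Fin k, ∃ x : Fin Bu, Al A D ω (Sum.inl (i, x) : Vx k Bu (P * B))
  hrow : ∀ p : Fin P, ∃ j : Fin B, Al A D ω (Sum.inr (finProdFinEquiv (p, j)) : Vx k Bu (P * B))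
  huniq : ∀ u : Fin k → Fin Bu, u ≠ vsel (Al A D ω) → ∃ p ∈ dpairs u (vsel (Al A D ω)),
    ω (Sum.inr (Sum.inl (p.1, u p.1), Sum.inl (p.2, u p.2))) ∉ Mi
  hr : ∀ w : Fin (P * B), ∃ i : Fin k,
    ω (Sum.inr (Sum.inr w, Sum.inl (i, vsel (Al A D ω) i))) ∉ Mi

/-- the planted assignment: `vs` is the planted clique, `rs` selects the rows, and `Y` gives the
entries of the selected rows at the planted columns -/
def zP (vs : Fin k → Fin Bu) (rs : Fin P → Fin B) (Y : ℕ → Fin k → Bool) :
    Vx k Bu (P * B) → Vx k Bu (P * B) → Bool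
  | Sum.inl u, Sum.inl u' => decide (u.2 = vs u.1 ∧ u'.2 = vs u'.1)
  | Sum.inr w, Sum.inl u =>
      if (finProdFinEquiv.symm w).2 = rs (finProdFinEquiv.symm w).1 ∧ u.2 = vs u.1 then
        Y (finProdFinEquiv.symm w).1.val u.1 else true
  | _, Sum.inr _ => false

section
variable {A Mi : Finset τ} {ω : Crd D (Vx k Bu (P * B)) → τ}

lemma plant_clique (h : GoodW A Mi ω) (rs : Fin P → Fin B) (Y : ℕ → Fin k → Bool)
    (u : Fin k → Fin Bu) :
    (∀ i i', i ≠ i' → rho A Mi majS D ω (zP (vsel (Al A D ω)) rs Y)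
      (Sum.inl (i, u i)) (Sum.inl (i', u i')) = true) ↔ u = vsel (Al A D ω) := by
  constructor
  · intro hu
    by_contra hne
    obtain ⟨p, hp, hM⟩ := h.huniq u hne
    rw [dpairs, Finset.mem_filter] at hp
    have h1 := hu p.1 p.2 (fun h => hp.2.2 h.symm)
    unfold rho at h1
    split_ifs at h1 with hal
    · simp only [zP, decide_eq_true_eq] at h1
      exact hp.2.1 h1.1
    · simp [rv, majS, hM] at h1
  · rintro rfl i i' _
    unfold rho
    rw [if_pos ⟨vsel_spec _ i (h.hcol i), vsel_spec _ i' (h.hcol i')⟩]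
    simp [zP]

lemma plant_row (h : GoodW A Mi ω) (hk : 0 < k) (rs : Fin P → Fin B)
    (hrs : ∀ p, Al A D ω (Sum.inr (finProdFinEquiv (p, rs p)) : Vx k Bu (P * B)))
    (Y : ℕ → Fin k → Bool) (β : Bool) (p : Fin P) (j : Fin B) :
    rowV (rho A Mi majS D ω (zP (vsel (Al A D ω)) rs Y)) (vsel (Al A D ω)) β
      (p.val * B + j.val) ↔
      if j = rs p then (if β = true then ∀ i, Y p.val i = false else ∃ i, Y p.val i = true)
      else β = false := by
  have hw : p.val * B + j.val = (finProdFinEquiv (p, j)).val := by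
    simp [finProdFinEquiv]; ring
  set vs := vsel (Al A D ω) with hvs
  have hval : ∀ i, rowN (rho A Mi majS D ω (zP vs rs Y)) (p.val * B + j.val) (cn (i, vs i)) =
      if Al A D ω (Sum.inr (finProdFinEquiv (p, j)) : Vx k Bu (P * B)) then
        (if j = rs p then Y p.val i else true)
      else !(decide (ω (Sum.inr (Sum.inr (finProdFinEquiv (p, j)), Sum.inl (i, vs i))) ∈ Mi)) := by
    intro i
    rw [hw, rowN_cn]
    have hali : Al A D ω (Sum.inl (i, vs i) : Vx k Bu (P * B)) := vsel_spec _ i (h.hcol i)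
    unfold rho
    by_cases hal : Al A D ω (Sum.inr (finProdFinEquiv (p, j)) : Vx k Bu (P * B))
    · rw [if_pos ⟨hal, hali⟩, if_pos hal]
      simp [zP]
    · rw [if_neg (fun h => hal h.1), if_neg hal]
      simp [rv, majS]
  unfold rowV
  simp only [hval]
  by_cases hj : j = rs p
  · subst hj
    simp only [hrs p, if_true]
  · rw [if_neg hj]
    have hex : ∃ i, (if Al A D ω (Sum.inr (finProdFinEquiv (p, j)) : Vx k Bu (P * B)) then
        (if j = rs p then Y p.val i else true)
      else !(decide (ω (Sum.inr (Sum.inr (finProdFinEquiv (p, j)), Sum.inl (i, vs i))) ∈ Mi))) =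
        true := by
      by_cases hal : Al A D ω (Sum.inr (finProdFinEquiv (p, j)) : Vx k Bu (P * B))
      · exact ⟨⟨0, hk⟩, by simp [hal, hj]⟩
      · obtain ⟨i, hi⟩ := h.hr (finProdFinEquiv (p, j))
        exact ⟨i, by simp [hal, hi, hvs]⟩
    obtain ⟨i, hi⟩ := hex
    cases β
    · simp only [Bool.false_eq_true, if_false, iff_true]
      exact ⟨i, hi⟩
    · simp only [if_true, Bool.true_eq_false, iff_false]
      intro hall
      rw [hall i] at hi
      exact absurd hi (by simp)

/-- value of a block of rows -/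
lemma plant_block (h : GoodW A Mi ω) (hk : 0 < k) (rs : Fin P → Fin B)
    (hrs : ∀ p, Al A D ω (Sum.inr (finProdFinEquiv (p, rs p)) : Vx k Bu (P * B)))
    (Y : ℕ → Fin k → Bool) {p : ℕ} (hp : p < P) :
    ((∀ j < B, rowV (rho A Mi majS D ω (zP (vsel (Al A D ω)) rs Y)) (vsel (Al A D ω)) false
      (p * B + j)) ↔ ∃ i, Y p i = true) ∧
    ((∃ j < B, rowV (rho A Mi majS D ω (zP (vsel (Al A D ω)) rs Y)) (vsel (Al A D ω)) true
      (p * B + j)) ↔ ∀ i, Y p i = false) := by
  have key : ∀ β (j : ℕ) (hj : j < B), rowV (rho A Mi majS D ω (zP (vsel (Al A D ω)) rs Y))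
      (vsel (Al A D ω)) β (p * B + j) ↔ if (⟨j, hj⟩ : Fin B) = rs ⟨p, hp⟩ then
        (if β = true then ∀ i, Y p i = false else ∃ i, Y p i = true) else β = false := by
    intro β j hj
    exact plant_row h hk rs hrs Y β ⟨p, hp⟩ ⟨j, hj⟩
  constructor
  · constructor
    · intro hall
      have := (key false _ (rs ⟨p, hp⟩).2).1 (hall _ (rs ⟨p, hp⟩).2)
      simpa using this
    · intro hex j hj
      rw [key false j hj]
      by_cases h1 : (⟨j, hj⟩ : Fin B) = rs ⟨p, hp⟩
      · rw [if_pos h1]; simpa using hex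
      · rw [if_neg h1]
  · constructor
    · rintro ⟨j, hj, hv⟩
      rw [key true j hj] at hv
      by_cases h1 : (⟨j, hj⟩ : Fin B) = rs ⟨p, hp⟩
      · rw [if_pos h1] at hv; simpa using hv
      · rw [if_neg h1] at hv; exact absurd hv (by simp)
    · intro hall
      refine ⟨_, (rs ⟨p, hp⟩).2, ?_⟩
      rw [key true _ (rs ⟨p, hp⟩).2]
      simpa using hall

/-- the planted instance, formulas with two levels -/
theorem plant_two (h : GoodW A Mi ω) (hk : 0 < k) (rs : Fin P → Fin B)
    (hrs : ∀ p, Al A D ω (Sum.inr (finProdFinEquiv (p, rs p)) : Vx k Bu (P * B)))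
    (Y : ℕ → Fin k → Bool) {s : ℕ} (hok : SrcOK k Bu s [] (P * B)) :
    (pWSAT 2).Q _ (encS s [] (P * B) (rho A Mi majS D ω (zP (vsel (Al A D ω)) rs Y))) ↔
      ∀ p < P, ∃ i, Y p i = true := by
  refine Iff.trans (src_correct hok _) ?_
  constructor
  · rintro ⟨u, hu, hr⟩ p hp
    rw [plant_clique h] at hu
    subst hu
    rw [← (plant_block h hk rs hrs Y hp).1]
    intro j hj
    have hlt : p * B + j < P * B := by
      calc p * B + j < p * B + B := by omega
        _ = (p + 1) * B := by ring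
        _ ≤ P * B := Nat.mul_le_mul_right _ hp
    exact hr _ hlt
  · intro hall
    refine ⟨vsel (Al A D ω), (plant_clique h rs Y _).2 rfl, ?_⟩
    intro a ha
    simp only [gateR]
    have hB : 0 < B := by
      rcases Nat.eq_zero_or_pos B with hB | hB
      · subst hB; simp at ha
      · exact hB
    have h1 : a / B < P := by rw [Nat.div_lt_iff_lt_mul hB]; exact ha
    have h2 := (plant_block h hk rs hrs Y h1).1.2 (hall _ h1) (a % B) (Nat.mod_lt _ hB)
    have h3 : a / B * B + a % B = a := by rw [mul_comm]; exact Nat.div_add_mod a B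
    rwa [h3] at h2

/-- the planted instance, formulas with at least three levels -/
theorem plant_gen (h : GoodW A Mi ω) (hk : 0 < k) (rs : Fin P → Fin B)
    (hrs : ∀ p, Al A D ω (Sum.inr (finProdFinEquiv (p, rs p)) : Vx k Bu (P * B)))
    {s N Nt : ℕ} {rl : List ℕ} (hok : SrcOK k Bu s ((N * B) :: rl) Nt)
    (hP : Nt * (N * rl.prod) ≤ P) (y : ℕ → Bool) :
    (pWSAT (rl.length + 3)).Q _ (encS s ((N * B) :: rl) Nt
      (rho A Mi majS D ω (zP (vsel (Al A D ω)) rs
        (fun p _ => if fl (rl.length + 1) false = true then !(y p) else y p)))) ↔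
      ∀ a < Nt, gateR (N :: rl) (fun _ p => y p = true) false a := by
  set Y : ℕ → Fin k → Bool :=
    (fun p _ => if fl (rl.length + 1) false = true then !(y p) else y p) with hY
  have hgate : ∀ a < Nt, (gateR ((N * B) :: rl)
      (rowV (rho A Mi majS D ω (zP (vsel (Al A D ω)) rs Y)) (vsel (Al A D ω))) false a ↔
      gateR (N :: rl) (fun _ p => y p = true) false a) := by
    intro a ha
    simp only [gateR]
    apply gateR_congr
    intro i' hi'
    have hpos : ∀ x < N, i' * N + x < P := by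
      intro x hx
      calc i' * N + x < i' * N + N := by omega
        _ = (i' + 1) * N := by ring
        _ ≤ ((a + 1) * rl.prod) * N := Nat.mul_le_mul_right _ hi'
        _ ≤ (Nt * rl.prod) * N := Nat.mul_le_mul_right _ (Nat.mul_le_mul_right _ ha)
        _ = Nt * (N * rl.prod) := by ring
        _ ≤ P := hP
    rw [gate1_mul]
    rcases hβ : fl rl.length false with _ | _
    · have hY' : Y = fun p _ => !(y p) := by
        rw [hY]; simp [fl, hβ]
      rw [gate1_false, if_neg (by simp)]
      constructor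
      · rintro ⟨x, hx, j, hj, hv⟩
        have := (plant_block h hk rs hrs Y (hpos x hx)).2.1 ⟨j, hj, hv⟩ ⟨0, hk⟩
        rw [hY'] at this
        exact ⟨x, hx, by simpa using this⟩
      · rintro ⟨x, hx, hv⟩
        obtain ⟨j, hj, h1⟩ := (plant_block h hk rs hrs Y (hpos x hx)).2.2 (by
          intro i; rw [hY']; simp [hv])
        exact ⟨x, hx, j, hj, h1⟩
    · have hY' : Y = fun p _ => y p := by
        rw [hY]; simp [fl, hβ]
      rw [gate1_true, if_pos rfl]
      constructor
      · intro hv x hx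
        obtain ⟨i, hi⟩ := (plant_block h hk rs hrs Y (hpos x hx)).1.1 (hv x hx)
        rw [hY'] at hi
        exact hi
      · intro hv x hx
        refine (plant_block h hk rs hrs Y (hpos x hx)).1.2 ⟨⟨0, hk⟩, ?_⟩
        rw [hY']
        exact hv x hx
  refine Iff.trans (src_correct hok _) ?_
  constructor
  · rintro ⟨u, hu, hr⟩ a ha
    rw [plant_clique h] at hu
    subst hu
    exact (hgate a ha).1 (hr a ha)
  · intro hall
    exact ⟨vsel (Al A D ω), (plant_clique h rs Y _).2 rfl, fun a ha => (hgate a ha).2 (hall a ha)⟩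

end

end

end Pool.Agent.H68WH
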