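import Pool.Agent.H68WH.Tree
import Pool.Agent.H68WH.Gates
import Pool.Agent.H68WH.Dense
import Pool.Agent.H68WH.Phase1

set_option linter.unusedSectionVars false

/-! Restrictions of alternating formulas, one round. -/

namespace Pool.Agent.H68WH

open Finset Classical
open Pool.Agent.H592R2

noncomputable section

variable {τ : Type} [Fintype τ] [Nonempty τ] [DecidableEq τ]

/-- existence of a good restriction for one round -/
theorem tree_round {b S Q B' M : ℕ} [NeZero b] (hb2 : 2 ≤ b) (hS3 : 3 ≤ S)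
    (hB' : B' = b ^ (2 * sg S + 1)) (hM : M = b ^ 2) (m0 : Bool)
    {I : Type} [Fintype I] (sz : I → ℕ) (g : ∀ i : I, Fin (sz i) → (ℕ → Bool) → Prop)
    (hg : ∀ i a, ∃ K : Finset ℕ, K.card < S ∧ LocY K (g i a))
    (hN1 : (Fintype.card I : ℝ) * ((2 / (b : ℝ)) ^ sg S) ^ S < 1 / 4)
    (hN2 : ((Q * B' : ℕ) : ℝ) * Real.exp (-b) < 1 / 4) :
    ∃ ω : CrT (Q * B') M → Tau b S,
      (∀ i, ∃ K : Finset (Fin (Q * B')), K.card < S ∧
        ∀ z z' : Fin (Q * B') → Bool, (∀ P ∈ K, z P = z' P) →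
          (∃ a, g i a (lv (Aset b S) (Mset b S) m0 ω z)) →
          (∃ a, g i a (lv (Aset b S) (Mset b S) m0 ω z'))) ∧
      (∀ P, ∃ a : Fin M, ω (Sum.inr (P, a)) ∈ Mset b S) ∧
      (∀ q : Fin Q, ∃ j : Fin B', ω (Sum.inl (finProdFinEquiv (q, j))) ∈ Aset b S) := by
  have hb0 : (0 : ℝ) < b := by exact_mod_cast (by omega : 0 < b)
  have hb1' : 1 ≤ b := by omega
  obtain ⟨σ, hσ⟩ : ∃ σ, σ = sg S := ⟨_, rfl⟩
  have hσ1 : 1 ≤ σ := by rw [hσ]; exact sg_pos hS3
  have hP1 := P1_inst (b := b) (S := S) hb2 hS3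
  have hcardτ : (Fintype.card (Tau b S) : ℝ) = (b : ℝ) ^ (2 * σ) := by
    simp [Tau, Fintype.card_fin, hσ]
  have hcardτ0 : (Fintype.card (Tau b S) : ℝ) ≠ 0 := by rw [hcardτ]; positivity
  have hAr : ((Aset b S).card : ℝ) / Fintype.card (Tau b S) = 1 / (b : ℝ) ^ (2 * σ) := by
    rw [hcardτ]; simp [Aset]
  have hMr : ((Mset b S).card : ℝ) / Fintype.card (Tau b S) = 1 / b := by
    rw [card_Mset b S hb1', hcardτ, ← hσ]
    have hpow : (b : ℝ) ^ (2 * σ) = b ^ (2 * σ - 1) * b := by
      rw [← pow_succ]; congr 1; omega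
    rw [hpow]
    push_cast
    field_simp
  have hcompl : ∀ X : Finset (Tau b S), ((Finset.univ \ X : Finset (Tau b S)).card : ℝ) /
      Fintype.card (Tau b S) = 1 - (X.card : ℝ) / Fintype.card (Tau b S) := by
    intro X
    rw [Finset.card_univ_sdiff]
    have h1 : X.card ≤ Fintype.card (Tau b S) := Finset.card_le_univ X
    rw [Nat.cast_sub h1, sub_div, div_self hcardτ0]
  let bad : (CrT (Q * B') M → Tau b S) → Prop := fun ω =>
    (∃ i ∈ (Finset.univ : Finset I), ¬ ∃ K : Finset (Fin (Q * B')), K.card < S ∧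
        ∀ z z' : Fin (Q * B') → Bool, (∀ P ∈ K, z P = z' P) →
          (∃ a ∈ List.finRange (sz i), g i a (lv (Aset b S) (Mset b S) m0 ω z)) →
          (∃ a ∈ List.finRange (sz i), g i a (lv (Aset b S) (Mset b S) m0 ω z'))) ∨
    ((∃ P ∈ (Finset.univ : Finset (Fin (Q * B'))),
        ∀ c ∈ (Finset.univ : Finset (Fin M)).image (fun a => (Sum.inr (P, a) : CrT (Q * B') M)),
          ω c ∈ Finset.univ \ Mset b S) ∨
    (∃ q ∈ (Finset.univ : Finset (Fin Q)),
        ∀ c ∈ (Finset.univ : Finset (Fin B')).image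
          (fun j => (Sum.inl (finProdFinEquiv (q, j)) : CrT (Q * B') M)),
          ω c ∈ Finset.univ \ Aset b S))
  have h1 : avg (fun ω : CrT (Q * B') M → Tau b S => ind (∃ i ∈ (Finset.univ : Finset I),
      ¬ ∃ K : Finset (Fin (Q * B')), K.card < S ∧
        ∀ z z' : Fin (Q * B') → Bool, (∀ P ∈ K, z P = z' P) →
          (∃ a ∈ List.finRange (sz i), g i a (lv (Aset b S) (Mset b S) m0 ω z)) →
          (∃ a ∈ List.finRange (sz i), g i a (lv (Aset b S) (Mset b S) m0 ω z')))) ≤
      (Fintype.card I : ℝ) * ((2 / (b : ℝ)) ^ sg S) ^ S := by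
    refine (avg_mono (fun ω => ind_exists_le _ _)).trans ?_
    rw [avg_sum]
    refine (Finset.sum_le_sum (fun i _ => tree_collapse (G := Q * B') (M := M) m0 hP1 (g i) (hg i)
      (List.finRange (sz i)))).trans ?_
    rw [Finset.sum_const, nsmul_eq_mul, Finset.card_univ]
  have hM1 : (1 - 1 / (b : ℝ)) ^ M ≤ Real.exp (-b) := by
    apply one_sub_pow_le_exp hb1' (e := 1) hM
    rw [pow_one]
  have hA1 : (1 - 1 / (b : ℝ) ^ (2 * σ)) ^ B' ≤ Real.exp (-b) := by
    apply one_sub_pow_le_exp hb1' (e := 2 * σ) _ rfl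
    rw [hB', hσ]
  have h2 : avg (fun ω : CrT (Q * B') M → Tau b S => ind (∃ P ∈ (Finset.univ :
      Finset (Fin (Q * B'))),
        ∀ c ∈ (Finset.univ : Finset (Fin M)).image (fun a => (Sum.inr (P, a) : CrT (Q * B') M)),
          ω c ∈ Finset.univ \ Mset b S)) ≤ ((Q * B' : ℕ) : ℝ) * Real.exp (-b) := by
    refine (avg_mono (fun ω => ind_exists_le _ _)).trans ?_
    rw [avg_sum]
    have h3 : ∀ P : Fin (Q * B'), avg (fun ω : CrT (Q * B') M → Tau b S =>
        ind (∀ c ∈ (Finset.univ : Finset (Fin M)).image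
          (fun a => (Sum.inr (P, a) : CrT (Q * B') M)), ω c ∈ Finset.univ \ Mset b S)) ≤
        Real.exp (-b) := by
      intro P
      rw [avg_box (T := fun _ : CrT (Q * B') M => Tau b S) _ (fun _ => Finset.univ \ Mset b S),
        Finset.prod_const, Finset.card_image_of_injective, Finset.card_univ,
        hcompl, hMr, Fintype.card_fin]
      · exact hM1
      · intro a a' h
        simpa using h
    refine (Finset.sum_le_sum (fun P _ => h3 P)).trans ?_
    rw [Finset.sum_const, nsmul_eq_mul, Finset.card_univ, Fintype.card_fin]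
  have h4 : avg (fun ω : CrT (Q * B') M → Tau b S => ind (∃ q ∈ (Finset.univ : Finset (Fin Q)),
        ∀ c ∈ (Finset.univ : Finset (Fin B')).image
          (fun j => (Sum.inl (finProdFinEquiv (q, j)) : CrT (Q * B') M)),
          ω c ∈ Finset.univ \ Aset b S)) ≤ ((Q * B' : ℕ) : ℝ) * Real.exp (-b) := by
    refine (avg_mono (fun ω => ind_exists_le _ _)).trans ?_
    rw [avg_sum]
    have h3 : ∀ q : Fin Q, avg (fun ω : CrT (Q * B') M → Tau b S =>
        ind (∀ c ∈ (Finset.univ : Finset (Fin B')).image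
          (fun j => (Sum.inl (finProdFinEquiv (q, j)) : CrT (Q * B') M)),
          ω c ∈ Finset.univ \ Aset b S)) ≤ Real.exp (-b) := by
      intro q
      rw [avg_box (T := fun _ : CrT (Q * B') M => Tau b S) _ (fun _ => Finset.univ \ Aset b S),
        Finset.prod_const, Finset.card_image_of_injective, Finset.card_univ,
        hcompl, hAr, Fintype.card_fin]
      · exact hA1
      · intro a a' h
        simpa using h
    refine (Finset.sum_le_sum (fun q _ => h3 q)).trans ?_
    rw [Finset.sum_const, nsmul_eq_mul, Finset.card_univ, Fintype.card_fin]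
    apply mul_le_mul_of_nonneg_right _ (Real.exp_pos _).le
    have : 1 ≤ B' := by rw [hB']; exact Nat.one_le_pow _ _ (by omega)
    exact_mod_cast Nat.le_mul_of_pos_right Q this
  have hbad : avg (fun ω => ind (bad ω)) < 1 := by
    have h5 : ∀ ω, ind (bad ω) ≤ _ := fun ω => (ind_or_le _ _).trans
      (add_le_add le_rfl (ind_or_le _ _))
    refine lt_of_le_of_lt (avg_mono h5) ?_
    rw [avg_add, avg_add]
    linarith
  obtain ⟨ω, hω⟩ := exists_not_of_avg_lt hbad
  simp only [bad, not_or] at hω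
  obtain ⟨hω1, hω2, hω3⟩ := hω
  refine ⟨ω, ?_, ?_, ?_⟩
  · intro i
    by_contra hc
    apply hω1
    refine ⟨i, Finset.mem_univ _, ?_⟩
    rintro ⟨K, hK, hl⟩
    apply hc
    refine ⟨K, hK, ?_⟩
    intro z z' hzz' ⟨a, ha⟩
    obtain ⟨a', -, ha'⟩ := hl z z' hzz' ⟨a, List.mem_finRange a, ha⟩
    exact ⟨a', ha'⟩
  · intro P
    by_contra hc
    push Not at hc
    apply hω2
    refine ⟨P, Finset.mem_univ _, ?_⟩
    intro c hcm
    rw [Finset.mem_image] at hcm
    obtain ⟨a, -, rfl⟩ := hcm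
    exact Finset.mem_sdiff.mpr ⟨Finset.mem_univ _, hc a⟩
  · intro q
    by_contra hc
    push Not at hc
    apply hω3
    refine ⟨q, Finset.mem_univ _, ?_⟩
    intro c hcm
    rw [Finset.mem_image] at hcm
    obtain ⟨a, -, rfl⟩ := hcm
    exact Finset.mem_sdiff.mpr ⟨Finset.mem_univ _, hc a⟩

section sel
variable {Q B' M : ℕ}

/-- values of the gates: selected gates carry the new variables, the others are neutral -/
def zs (sel : Fin Q → Fin B') (nv : Bool) (y : ℕ → Bool) : Fin (Q * B') → Bool :=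
  fun P => if (finProdFinEquiv.symm P).2 = sel (finProdFinEquiv.symm P).1 then
    y (finProdFinEquiv.symm P).1.val else nv

/-- the restriction -/
def rhoT (A Mi : Finset τ) (m0 : Bool) (ω : CrT (Q * B') M → τ) (sel : Fin Q → Fin B')
    (y : ℕ → Bool) : ℕ → Bool := lv A Mi m0 ω (zs sel (!m0) y)

variable {A Mi : Finset τ} {m0 : Bool} {ω : CrT (Q * B') M → τ} {sel : Fin Q → Fin B'}

lemma gate_val (hM : 0 < M) (hmin : ∀ P, ∃ a : Fin M, ω (Sum.inr (P, a)) ∈ Mi)
    (hsel : ∀ q, ω (Sum.inl (finProdFinEquiv (q, sel q))) ∈ A) (y : ℕ → Bool)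
    (q : Fin Q) (j : Fin B') :
    gate1 M (fun _ p => rhoT A Mi m0 ω sel y p = true) m0 (q.val * B' + j.val) ↔
      (if j = sel q then y q.val else !m0) = true := by
  have hP : q.val * B' + j.val = (finProdFinEquiv (q, j)).val := by
    simp [finProdFinEquiv]; ring
  rw [hP]
  have hval : ∀ a : Fin M, rhoT A Mi m0 ω sel y ((finProdFinEquiv (q, j)).val * M + a.val) =
      if ω (Sum.inl (finProdFinEquiv (q, j))) ∈ A then (if j = sel q then y q.val else !m0)
      else xor m0 (decide (ω (Sum.inr (finProdFinEquiv (q, j), a)) ∈ Mi)) := by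
    intro a
    unfold rhoT
    rw [lv_apply]
    simp [zs]
  by_cases hal : ω (Sum.inl (finProdFinEquiv (q, j))) ∈ A
  · simp only [if_pos hal] at hval
    cases m0
    · rw [gate1_false]
      constructor
      · rintro ⟨a, ha, h⟩
        rw [hval ⟨a, ha⟩] at h
        exact h
      · intro h
        refine ⟨0, hM, ?_⟩
        have := hval ⟨0, hM⟩
        rw [this]; exact h
    · rw [gate1_true]
      constructor
      · intro h
        have h1 := h 0 hM
        have := hval ⟨0, hM⟩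
        rw [this] at h1
        exact h1
      · intro h a ha
        rw [hval ⟨a, ha⟩]; exact h
  · have hne : j ≠ sel q := by
      rintro rfl
      exact hal (hsel q)
    rw [if_neg hne]
    simp only [if_neg hal] at hval
    obtain ⟨a0, ha0⟩ := hmin (finProdFinEquiv (q, j))
    cases m0
    · rw [gate1_false]
      simp only [Bool.not_false, iff_true]
      refine ⟨a0, a0.2, ?_⟩
      rw [hval a0]; simp [ha0]
    · rw [gate1_true]
      simp only [Bool.not_true, Bool.false_eq_true, iff_false]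
      intro h
      have := h a0 a0.2
      rw [hval a0] at this
      simp [ha0] at this

/-- two levels collapse to one -/
lemma gate_two (hM : 0 < M) (hmin : ∀ P, ∃ a : Fin M, ω (Sum.inr (P, a)) ∈ Mi)
    (hsel : ∀ q, ω (Sum.inl (finProdFinEquiv (q, sel q))) ∈ A) (y : ℕ → Bool)
    {N i' : ℕ} {β1 : Bool} (hm0 : m0 = !β1) (hpos : ∀ a < N, i' * N + a < Q) :
    gate1 (N * B') (gate1 M (fun _ p => rhoT A Mi m0 ω sel y p = true)) β1 i' ↔
      gate1 N (fun _ p => y p = true) β1 i' := by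
  rw [gate1_mul]
  cases β1
  · have hm : m0 = true := by simpa using hm0
    subst hm
    rw [gate1_false, if_neg (by simp)]
    constructor
    · rintro ⟨a, ha, j, hj, h⟩
      have h1 := (gate_val hM hmin hsel y ⟨i' * N + a, hpos a ha⟩ ⟨j, hj⟩).1 h
      refine ⟨a, ha, ?_⟩
      by_cases hjs : (⟨j, hj⟩ : Fin B') = sel ⟨i' * N + a, hpos a ha⟩
      · rw [if_pos hjs] at h1; exact h1
      · rw [if_neg hjs] at h1; simp at h1
    · rintro ⟨a, ha, h⟩
      refine ⟨a, ha, (sel ⟨i' * N + a, hpos a ha⟩).val, (sel ⟨i' * N + a, hpos a ha⟩).2, ?_⟩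
      refine (gate_val hM hmin hsel y ⟨i' * N + a, hpos a ha⟩ _).2 ?_
      rw [if_pos rfl]; exact h
  · have hm : m0 = false := by simpa using hm0
    subst hm
    rw [gate1_true, if_pos rfl]
    constructor
    · intro h a ha
      have h1 := (gate_val hM hmin hsel y ⟨i' * N + a, hpos a ha⟩ _).1
        (h a ha (sel ⟨i' * N + a, hpos a ha⟩).val (sel ⟨i' * N + a, hpos a ha⟩).2)
      rw [if_pos rfl] at h1
      exact h1
    · intro h a ha j hj
      refine (gate_val hM hmin hsel y ⟨i' * N + a, hpos a ha⟩ ⟨j, hj⟩).2 ?_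
      split_ifs
      · exact h a ha
      · simp

/-- pulling back locality of a function of the gate values -/
lemma loc_of_gates {S : ℕ} {G : (Fin (Q * B') → Bool) → Prop} {nv : Bool}
    (h : ∃ K : Finset (Fin (Q * B')), K.card < S ∧
      ∀ z z' : Fin (Q * B') → Bool, (∀ P ∈ K, z P = z' P) → G z → G z') :
    ∃ K : Finset ℕ, K.card < S ∧ LocY K (fun y => G (zs sel nv y)) := by
  obtain ⟨K, hK, hG⟩ := h
  refine ⟨K.image (fun P => (finProdFinEquiv.symm P).1.val),
    lt_of_le_of_lt Finset.card_image_le hK, ?_⟩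
  intro y y' hyy' hy
  refine hG _ _ ?_ hy
  intro P hP
  unfold zs
  rw [hyy' _ (Finset.mem_image_of_mem _ hP)]

/-- pulling back locality of a function of the leaves -/
lemma loc_of_leaves {S : ℕ} {G : (ℕ → Bool) → Prop}
    (h : ∃ K : Finset ℕ, K.card < S ∧ LocY K G) :
    ∃ K : Finset ℕ, K.card < S ∧ LocY K (fun y => G (rhoT A Mi m0 ω sel y)) := by
  obtain ⟨K, hK, hG⟩ := h
  apply loc_of_gates (G := fun z => G (lv A Mi m0 ω z))
  refine ⟨Kg (Q * B') M K, lt_of_le_of_lt (card_Kg_le _) hK, ?_⟩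
  intro z z' hzz' hz
  refine hG _ _ ?_ hz
  intro p hp
  unfold lv
  by_cases hlt : p < Q * B' * M
  · rw [dif_pos hlt, dif_pos hlt]
    have hPm : (finProdFinEquiv.symm (⟨p, hlt⟩ : Fin (Q * B' * M))).1 ∈ Kg (Q * B') M K := by
      rw [Kg, Finset.mem_filter]
      refine ⟨Finset.mem_univ _, (finProdFinEquiv.symm (⟨p, hlt⟩ : Fin (Q * B' * M))).2, ?_⟩
      simp only [Prod.mk.eta, Equiv.apply_symm_apply]
      exact hp
    rw [hzz' _ hPm]
  · rw [dif_neg hlt, dif_neg hlt]

end sel

end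

end Pool.Agent.H68WH
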