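import Pool.Agent.H68WH.Sipser

set_option linter.unusedSectionVars false

/-! A conjunction of alternating gates is not a disjunction of few alternating formulas with one
level less whose leaves are local. -/

namespace Pool.Agent.H68WH

open Finset Classical
open Pool.Agent.H592R2

noncomputable section

/-- local, with fewer than `S` variables -/
def LY (S : ℕ) (G : (ℕ → Bool) → Prop) : Prop := ∃ K : Finset ℕ, K.card < S ∧ LocY K G

/-- the alternating function with `n + 2` levels, a conjunction on top -/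
def Fn (b N2 n : ℕ) (y : ℕ → Bool) : Prop :=
  ∀ a < b, gateR (b ^ 2 :: List.replicate n N2) (fun _ p => y p = true) false a

/-- the input given by a partial choice function -/
def yb {b S : ℕ} (β : Fin b → Option (Fin (S + 1))) (p : ℕ) : Bool :=
  decide (∃ (a : Fin b) (x : Fin (S + 1)), p = a.val * b ^ 2 + x.val ∧ β a = some x)

lemma div_mod_aux {b S : ℕ} (hb : S + 1 ≤ b) (a : ℕ) (x : Fin (S + 1)) :
    (a * b ^ 2 + x.val) / b ^ 2 = a ∧ (a * b ^ 2 + x.val) % b ^ 2 = x.val := by
  have hb0 : 0 < b ^ 2 := Nat.pow_pos (by omega)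
  have hx : x.val < b ^ 2 := by
    have h1 := x.2
    have h2 : b ≤ b ^ 2 := Nat.le_self_pow (by norm_num) _
    omega
  constructor
  · rw [mul_comm, Nat.mul_add_div hb0, Nat.div_eq_of_lt hx, add_zero]
  · rw [mul_comm, Nat.mul_add_mod, Nat.mod_eq_of_lt hx]

lemma locJ_yb {b S : ℕ} (hb : S + 1 ≤ b) {G : (ℕ → Bool) → Prop} (hG : LY S G) :
    LocJ (S - 1) (fun β : Fin b → Option (Fin (S + 1)) => G (yb β)) := by
  obtain ⟨K, hK, hL⟩ := hG
  refine ⟨Finset.univ.filter (fun a : Fin b => ∃ p ∈ K, p / b ^ 2 = a.val),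
    Finset.univ.filter (fun x : Fin (S + 1) => ∃ p ∈ K, p % b ^ 2 = x.val), ?_, ?_, ?_, ?_⟩
  · have h1 : (Finset.univ.filter (fun a : Fin b => ∃ p ∈ K, p / b ^ 2 = a.val)).card ≤
        (K.image (fun p => p / b ^ 2)).card := by
      apply Finset.card_le_card_of_injOn Fin.val
      · intro a ha
        obtain ⟨p, hp, h⟩ := (Finset.mem_filter.mp ha).2
        exact Finset.mem_image.mpr ⟨p, hp, h⟩
      · intro a _ a' _ h
        exact Fin.ext h
    have h2 := h1.trans Finset.card_image_le
    omega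
  · have h1 : (Finset.univ.filter (fun x : Fin (S + 1) => ∃ p ∈ K, p % b ^ 2 = x.val)).card ≤
        (K.image (fun p => p % b ^ 2)).card := by
      apply Finset.card_le_card_of_injOn Fin.val
      · intro a ha
        obtain ⟨p, hp, h⟩ := (Finset.mem_filter.mp ha).2
        exact Finset.mem_image.mpr ⟨p, hp, h⟩
      · intro a _ a' _ h
        exact Fin.ext h
    have h2 := h1.trans Finset.card_image_le
    rw [Fintype.card_fin]
    omega
  · intro β β' hββ' h
    refine hL _ _ ?_ h
    intro p hp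
    unfold yb
    congr 1
    apply propext
    have key : ∀ (a : Fin b) (x : Fin (S + 1)), p = a.val * b ^ 2 + x.val → β a = β' a := by
      intro a x hpx
      apply hββ'
      rw [Finset.mem_filter]
      refine ⟨Finset.mem_univ _, p, hp, ?_⟩
      rw [hpx]; exact (div_mod_aux hb a x).1
    constructor
    · rintro ⟨a, x, hpx, h⟩
      exact ⟨a, x, hpx, by rw [← key a x hpx]; exact h⟩
    · rintro ⟨a, x, hpx, h⟩
      exact ⟨a, x, hpx, by rw [key a x hpx]; exact h⟩
  · intro β ρ j hj hβ h
    refine hL _ _ ?_ h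
    intro p hp
    unfold yb
    congr 1
    apply propext
    constructor
    · rintro ⟨a, x, hpx, h⟩
      have hne : a ≠ ρ := by
        rintro rfl
        rw [hβ, Option.some.injEq] at h
        subst h
        apply hj
        rw [Finset.mem_filter]
        refine ⟨Finset.mem_univ _, p, hp, ?_⟩
        rw [hpx]; exact (div_mod_aux hb a j).2
      exact ⟨a, x, hpx, by rw [Function.update_of_ne hne]; exact h⟩
    · rintro ⟨a, x, hpx, h⟩
      by_cases hne : a = ρ
      · subst hne; simp at h
      · rw [Function.update_of_ne hne] at h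
        exact ⟨a, x, hpx, h⟩

lemma F0_yb {b S : ℕ} (hb : S + 1 ≤ b) (N2 : ℕ) (β : Fin b → Option (Fin (S + 1))) :
    Fn b N2 0 (yb β) ↔ ∀ a, β a ≠ none := by
  unfold Fn
  simp only [List.replicate_zero, gateR, gate1_false]
  constructor
  · intro h a hn
    obtain ⟨x, hx, hy⟩ := h a.val a.2
    unfold yb at hy
    rw [decide_eq_true_eq] at hy
    obtain ⟨a', x', he, hβ⟩ := hy
    have h1 : (a.val * b ^ 2 + x) / b ^ 2 = a.val := by
      rw [mul_comm, Nat.mul_add_div (by omega), Nat.div_eq_of_lt hx, add_zero]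
    have h2 := (div_mod_aux hb a' x').1
    rw [← he, h1] at h2
    have : a' = a := Fin.ext h2.symm
    subst this
    rw [hn] at hβ
    exact absurd hβ (by simp)
  · intro h a ha
    obtain ⟨x, hx⟩ := Option.ne_none_iff_exists'.mp (h ⟨a, ha⟩)
    refine ⟨x.val, ?_, ?_⟩
    · have h1 := x.2
      have h2 : b ≤ b ^ 2 := Nat.le_self_pow (by norm_num) _
      omega
    · unfold yb
      rw [decide_eq_true_eq]
      exact ⟨⟨a, ha⟩, x, rfl, hx⟩

theorem sipser_false {b S N2 X : ℕ} [NeZero b] (hb : S + 1 ≤ b) (hS3 : 3 ≤ S)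
    (hN2 : N2 = b ^ 2 * b ^ (2 * sg S + 1)) {Ct : Type} [Fintype Ct] (s' : Ct → ℕ)
    (hN1 : (Fintype.card Ct : ℝ) * (2 * X) * ((2 / (b : ℝ)) ^ sg S) ^ S < 1 / 4)
    (hL : ∃ L : ℕ, S * L < b ∧
      (Fintype.card Ct : ℝ) < (1 + 1 / (((S + 1) ^ S : ℕ) : ℝ)) ^ L) :
    ∀ (n : ℕ) (cond : Ct → (ℕ → Bool) → Prop) (leaf : Ct → (ℕ → Bool) → Bool → ℕ → Prop),
      (((b * N2 ^ n : ℕ) : ℝ) * Real.exp (-b) < 1 / 4) →
      (∀ c, LY S (cond c)) →
      (∀ c β i, i < (s' c) ^ (n + 1) → LY S (fun y => leaf c y β i)) →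
      (∀ c, (s' c) ^ (n + 1) ≤ X) →
      (∀ y, Fn b N2 n y ↔ ∃ c, cond c y ∧ gate (s' c) (leaf c y) (n + 1) true 0) → False := by
  intro n
  induction n with
  | zero =>
    intro cond leaf _ hcond hleaf _ hF
    obtain ⟨L, hL1, hL2⟩ := hL
    let H : Ct → Set ((Fin b → Option (Fin (S + 1))) → Prop) := fun c =>
      {h | h = (fun β => cond c (yb β)) ∨ ∃ i < s' c, h = (fun β => leaf c (yb β) false i)}
    have hacc : ∀ (c : Ct) (β : Fin b → Option (Fin (S + 1))), (∀ h ∈ H c, h β) ↔
        (cond c (yb β) ∧ gate (s' c) (leaf c (yb β)) (0 + 1) true 0) := by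
      intro c β
      simp only [gate, zero_mul, zero_add]
      constructor
      · intro h
        exact ⟨h _ (Or.inl rfl), fun i hi => h _ (Or.inr ⟨i, hi, rfl⟩)⟩
      · rintro ⟨h1, h2⟩ h (rfl | ⟨i, hi, rfl⟩)
        · exact h1
        · exact h2 i hi
    obtain ⟨c, γ, ρ, hfin⟩ := final_lemma (R := Fin b) (J := Fin (S + 1)) (S - 1) L H
      (by
        rintro c h (rfl | ⟨i, hi, rfl⟩)
        · exact locJ_yb hb (hcond c)
        · exact locJ_yb hb (hleaf c false i (by simpa using hi)))
      (by
        rw [Fintype.card_fin]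
        have : S - 1 + 1 = S := by omega
        rw [this]; exact hL1)
      (by
        have : S - 1 + 1 = S := by omega
        rw [this, Fintype.card_fin]
        push_cast at hL2 ⊢
        exact hL2)
      (by
        intro β
        have h1 := (hF (yb (fun ρ => some (β ρ)))).1 ((F0_yb hb N2 _).2 (by simp))
        obtain ⟨c, hc⟩ := h1
        exact ⟨c, (hacc c _).2 hc⟩)
    have h2 := (F0_yb hb N2 _).1 ((hF _).2 ⟨c, (hacc c _).1 hfin⟩) ρ
    simp at h2
  | succ n ih =>
    intro cond leaf hexp hcond hleaf hX hF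
    have hb2 : 2 ≤ b := by omega
    obtain ⟨B', hB'⟩ : ∃ B', B' = b ^ (2 * sg S + 1) := ⟨_, rfl⟩
    obtain ⟨Q, hQ⟩ : ∃ Q, Q = b * (b ^ 2 * N2 ^ n) := ⟨_, rfl⟩
    have hQB : Q * B' = b * N2 ^ (n + 1) := by
      rw [hQ, pow_succ, hN2, ← hB']; ring
    have hpw : ∀ c, (s' c) ^ (n + 1) ≤ X := by
      intro c
      refine le_trans ?_ (hX c)
      rcases Nat.eq_zero_or_pos (s' c) with h0 | h0
      · rw [h0, zero_pow (by omega)]; omega
      · exact Nat.pow_le_pow_right h0 (by omega)
    let sz : Ct × Bool × Fin X → ℕ := fun t =>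
      if t.2.2.val < (s' t.1) ^ (n + 1) then s' t.1 else 0
    let g : ∀ t : Ct × Bool × Fin X, Fin (sz t) → (ℕ → Bool) → Prop := fun t a y =>
      if t.2.1 = true then ¬ leaf t.1 y false (t.2.2.val * s' t.1 + a.val)
      else leaf t.1 y true (t.2.2.val * s' t.1 + a.val)
    have hg : ∀ t a, ∃ K : Finset ℕ, K.card < S ∧ LocY K (g t a) := by
      rintro ⟨c, β, i⟩ a
      have ha := a.2
      simp only [sz] at ha
      split_ifs at ha with hi
      · have hlt : i.val * s' c + a.val < (s' c) ^ (n + 1 + 1) := by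
          calc i.val * s' c + a.val < i.val * s' c + s' c := by omega
            _ = (i.val + 1) * s' c := by ring
            _ ≤ (s' c) ^ (n + 1) * s' c := Nat.mul_le_mul_right _ hi
            _ = _ := by ring
        cases β
        · obtain ⟨K, hK1, hK2⟩ := hleaf c true _ hlt
          refine ⟨K, hK1, ?_⟩
          simpa [g] using hK2
        · obtain ⟨K, hK1, hK2⟩ := hleaf c false _ hlt
          refine ⟨K, hK1, ?_⟩
          simpa [g] using hK2.not
      · omega
    obtain ⟨ω, hω1, hω2, hω3⟩ := tree_round (Q := Q) (B' := B') (M := b ^ 2) hb2 hS3 hB' rfl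
      (!(fl n false)) sz g hg
      (by
        rw [Fintype.card_prod, Fintype.card_prod, Fintype.card_bool, Fintype.card_fin]
        push_cast
        exact hN1)
      (by rw [hQB]; exact hexp)
    choose sel hsel using hω3
    set ρ : (ℕ → Bool) → (ℕ → Bool) := rhoT (Aset b S) (Mset b S) (!(fl n false)) ω sel with hρ
    have hM0 : 0 < b ^ 2 := by positivity
    refine ih (fun c y => cond c (ρ y)) (fun c y => gate1 (s' c) (leaf c (ρ y))) ?_ ?_ ?_ hpw ?_
    · refine lt_of_le_of_lt ?_ hexp
      apply mul_le_mul_of_nonneg_right _ (Real.exp_pos _).le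
      have hN20 : 0 < N2 := by rw [hN2]; positivity
      exact_mod_cast Nat.mul_le_mul_left b (Nat.pow_le_pow_right hN20 (by omega))
    · intro c
      exact loc_of_leaves (hcond c)
    · intro c β i hi
      have hiX : i < X := lt_of_lt_of_le hi (hpw c)
      obtain ⟨K, hK1, hK2⟩ := hω1 (c, β, ⟨i, hiX⟩)
      have hsz : sz (c, β, ⟨i, hiX⟩) = s' c := by
        simp only [sz]; rw [if_pos hi]
      have hloc := loc_of_gates (sel := sel) (nv := !(!(fl n false))) (G := fun z =>
        ∃ a, g (c, β, ⟨i, hiX⟩) a (lv (Aset b S) (Mset b S) (!(fl n false)) ω z))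
        ⟨K, hK1, hK2⟩
      have heq : ∀ y, (∃ a, g (c, β, ⟨i, hiX⟩) a (ρ y)) ↔
          (if β = true then ¬ gate1 (s' c) (leaf c (ρ y)) β i
            else gate1 (s' c) (leaf c (ρ y)) β i) := by
        intro y
        cases β
        · rw [if_neg (by simp), gate1_false]
          constructor
          · rintro ⟨a, ha⟩
            exact ⟨a.val, by rw [← hsz]; exact a.2, by simpa [g] using ha⟩
          · rintro ⟨a, ha, h⟩
            exact ⟨⟨a, by rw [hsz]; exact ha⟩, by simpa [g] using h⟩
        · rw [if_pos rfl, gate1_true]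
          push Not
          constructor
          · rintro ⟨a, ha⟩
            exact ⟨a.val, by rw [← hsz]; exact a.2, by simpa [g] using ha⟩
          · rintro ⟨a, ha, h⟩
            exact ⟨⟨a, by rw [hsz]; exact ha⟩, by simpa [g] using h⟩
      obtain ⟨K', hK'1, hK'2⟩ := hloc
      refine ⟨K', hK'1, ?_⟩
      have hK'3 : LocY K' (fun y => ∃ a, g (c, β, ⟨i, hiX⟩) a (ρ y)) := hK'2
      simp only [heq] at hK'3
      cases β
      · simpa using hK'3
      · have := hK'3.not
        simpa using this
    · intro y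
      have h1 : Fn b N2 n y ↔ Fn b N2 (n + 1) (ρ y) := by
        unfold Fn
        apply forall_congr'
        intro a
        apply imp_congr_right
        intro ha
        simp only [gateR, List.replicate_succ]
        apply gateR_congr
        intro i' hi'
        rw [List.length_replicate]
        rw [List.prod_replicate] at hi'
        symm
        conv_lhs => rw [hN2, ← hB']
        apply gate_two (m0 := !(fl n false)) hM0 hω2 hsel y rfl
        intro a' ha'
        rw [hQ]
        calc i' * b ^ 2 + a' < i' * b ^ 2 + b ^ 2 := by omega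
          _ = (i' + 1) * b ^ 2 := by ring
          _ ≤ ((a + 1) * N2 ^ n) * b ^ 2 := Nat.mul_le_mul_right _ hi'
          _ ≤ (b * N2 ^ n) * b ^ 2 := Nat.mul_le_mul_right _ (Nat.mul_le_mul_right _ ha)
          _ = _ := by ring
      rw [h1, hF (ρ y)]
      apply exists_congr
      intro c
      apply and_congr_right
      intro _
      exact gate_peel _ _ _ _ _

end

end Pool.Agent.H68WH
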