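import Pool.Agent.H68WH.Gates
import Pool.Agent.H592R2.M1Final

set_option linter.unusedSectionVars false

/-! The source instances: a clique part and a part with alternating gates over rows. -/

namespace Pool.Agent.H68WH

open Finset Classical
open Pool.Agent.H592R2

noncomputable section

lemma sN_spec {T : ℕ} (hT : 1 ≤ T) (m : ℕ) : 2 * sN T m ^ T ≤ m := by
  unfold sN
  have h0 : 2 * 0 ^ T ≤ m := by
    rw [zero_pow (by omega)]; omega
  exact Nat.findGreatest_spec (P := fun s => 2 * s ^ T ≤ m) (Nat.zero_le m) h0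

lemma sN_eq {T : ℕ} (hT : 1 ≤ T) (s : ℕ) : sN T (2 * s ^ T) = s := by
  unfold sN
  rw [Nat.findGreatest_eq_iff]
  refine ⟨?_, fun _ => le_rfl, ?_⟩
  · calc s = s ^ 1 := (pow_one s).symm
      _ ≤ s ^ T + s ^ T := by
          rcases Nat.eq_zero_or_pos s with h | h
          · subst h; simp
          · exact (Nat.pow_le_pow_right h hT).trans (Nat.le_add_left _ _)
      _ = 2 * s ^ T := by ring
  · intro n hn _ h
    have h1 : s ^ T < n ^ T := Nat.pow_lt_pow_left hn (by omega)
    omega

/-- vertices: the columns (variables) in `k` groups, and the rows -/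
abbrev Vx (k Bu Wn : ℕ) : Type := (Fin k × Fin Bu) ⊕ Fin Wn

instance instDecVx (k Bu Wn : ℕ) : DecidableEq (Vx k Bu Wn) := inferInstance
instance instFtVx (k Bu Wn : ℕ) : Fintype (Vx k Bu Wn) := inferInstance

variable {k Bu Wn : ℕ}

/-- number of a column -/
def cn (u : Fin k × Fin Bu) : ℕ := (finProdFinEquiv u).val

lemma cn_lt (u : Fin k × Fin Bu) : cn u < k * Bu := (finProdFinEquiv u).2

lemma cn_inj : Function.Injective (cn : Fin k × Fin Bu → ℕ) := by
  intro u v h
  exact finProdFinEquiv.injective (Fin.ext h)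

/-- adjacency of columns given by their numbers -/
def adjN (z : Vx k Bu Wn → Vx k Bu Wn → Bool) (a c : ℕ) : Bool :=
  if h : a < k * Bu ∧ c < k * Bu then
    (if (finProdFinEquiv.symm (⟨a, h.1⟩ : Fin (k * Bu))).1 =
        (finProdFinEquiv.symm (⟨c, h.2⟩ : Fin (k * Bu))).1 then decide (a = c)
      else z (Sum.inl (finProdFinEquiv.symm ⟨a, h.1⟩)) (Sum.inl (finProdFinEquiv.symm ⟨c, h.2⟩)))
  else true

/-- entry of the row-column matrix -/
def rowN (z : Vx k Bu Wn → Vx k Bu Wn → Bool) (w j : ℕ) : Bool :=
  if h : w < Wn ∧ j < k * Bu then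
    z (Sum.inr ⟨w, h.1⟩) (Sum.inl (finProdFinEquiv.symm ⟨j, h.2⟩))
  else false

lemma adjN_cn (z : Vx k Bu Wn → Vx k Bu Wn → Bool) (u v : Fin k × Fin Bu) :
    adjN z (cn u) (cn v) = if u.1 = v.1 then decide (u = v) else z (Sum.inl u) (Sum.inl v) := by
  unfold adjN
  rw [dif_pos ⟨cn_lt u, cn_lt v⟩]
  have h1 : ∀ u : Fin k × Fin Bu, finProdFinEquiv.symm (⟨cn u, cn_lt u⟩ : Fin (k * Bu)) = u := by
    intro u
    rw [Equiv.symm_apply_eq]
    exact Fin.ext rfl
  rw [h1, h1]
  have h2 : (cn u = cn v) ↔ u = v := ⟨fun h => cn_inj h, fun h => by rw [h]⟩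
  simp only [h2]

lemma rowN_cn (z : Vx k Bu Wn → Vx k Bu Wn → Bool) (w : Fin Wn) (u : Fin k × Fin Bu) :
    rowN z w.val (cn u) = z (Sum.inr w) (Sum.inl u) := by
  unfold rowN
  rw [dif_pos ⟨w.2, cn_lt u⟩]
  have h1 : finProdFinEquiv.symm (⟨cn u, cn_lt u⟩ : Fin (k * Bu)) = u := by
    rw [Equiv.symm_apply_eq]
    exact Fin.ext rfl
  rw [h1]

variable (s : ℕ) (rl : List ℕ) (Nt : ℕ)

/-- the number of pairs of columns -/
def npr (k Bu : ℕ) : ℕ := (k * Bu) * (k * Bu)

/-- decoding of the top digit -/
def bs (k Bu Nt : ℕ) (i : ℕ) : ℕ := (i - npr k Bu) % Nt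

/-- the literals of the bottom gates of the source instance -/
def srcLit (z : Vx k Bu Wn → Vx k Bu Wn → Bool) (i j : ℕ) (b : Bool) : Bool :=
  if i / s ^ rl.length < npr k Bu then
    (if fl (rl.length + 1) true = false then
      decide ((b = false ∧ (j = (i / s ^ rl.length) / (k * Bu) ∨
        j = (i / s ^ rl.length) % (k * Bu))) ∨
        (b = true ∧ j = (i / s ^ rl.length) / (k * Bu) ∧
          adjN z ((i / s ^ rl.length) / (k * Bu)) ((i / s ^ rl.length) % (k * Bu)) = true))
    else if i % s = 0 then decide (b = false ∧ j = (i / s ^ rl.length) / (k * Bu))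
    else if i % s = 1 then decide (b = false ∧ j = (i / s ^ rl.length) % (k * Bu))
    else decide (j = (i / s ^ rl.length) / (k * Bu) ∧
      adjN z ((i / s ^ rl.length) / (k * Bu)) ((i / s ^ rl.length) % (k * Bu)) = false))
  else (decide (b = !(fl (rl.length + 1) true)) && rowN z (Dr s (bs k Bu Nt) rl i) j)

/-- the source instance -/
def encS (z : Vx k Bu Wn → Vx k Bu Wn → Bool) : Fin (k + 1 + 2 * s ^ (rl.length + 2)) → Bool :=
  fun p => if p.val < k then true else if p.val = k then false
    else srcLit s rl Nt z ((p.val - (k + 1)) / (2 * s)) (((p.val - (k + 1)) % (2 * s)) / 2)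
      (decide (((p.val - (k + 1)) % (2 * s)) % 2 = 0))

lemma lead_encS (z : Vx k Bu Wn → Vx k Bu Wn → Bool) : lead (encS s rl Nt z) = k := by
  unfold lead
  rw [Nat.find_eq_iff]
  constructor
  · simp [bitN, encS]
  · intro p hp
    have hp' : p < k + 1 + 2 * s ^ (rl.length + 2) := by omega
    simp [bitN, encS, hp, hp']

lemma fan_encS (z : Vx k Bu Wn → Vx k Bu Wn → Bool) :
    fan (rl.length + 2) (encS s rl Nt z) = s := by
  unfold fan
  rw [lead_encS, Nat.add_sub_cancel_left, sN_eq (by omega)]

lemma litAt_encS (z : Vx k Bu Wn → Vx k Bu Wn → Bool) {i j : ℕ} (b : Bool)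
    (hi : i < s ^ (rl.length + 1)) (hj : j < s) :
    litAt (rl.length + 2) (encS s rl Nt z) i j b ↔ srcLit s rl Nt z i j b = true := by
  unfold litAt
  rw [fan_encS, lead_encS]
  set ε : ℕ := if b = true then 0 else 1 with hε
  have hε2 : ε < 2 := by rw [hε]; split_ifs <;> omega
  have hs : 0 < s := by omega
  have h2s : 2 * j + ε < 2 * s := by omega
  have hlt : i * (2 * s) + (2 * j + ε) < 2 * s ^ (rl.length + 2) := by
    calc i * (2 * s) + (2 * j + ε) < i * (2 * s) + 2 * s := by omega
      _ = (i + 1) * (2 * s) := by ring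
      _ ≤ s ^ (rl.length + 1) * (2 * s) := Nat.mul_le_mul_right _ hi
      _ = 2 * s ^ (rl.length + 2) := by ring
  have hp : k + 1 + (i * (2 * s) + (2 * j + ε)) < k + 1 + 2 * s ^ (rl.length + 2) := by omega
  unfold bitN
  rw [dif_pos hp]
  have h1 : ¬ (k + 1 + (i * (2 * s) + (2 * j + ε)) < k) := by omega
  have h2 : ¬ (k + 1 + (i * (2 * s) + (2 * j + ε)) = k) := by omega
  simp only [encS, if_neg h1, if_neg h2, Nat.add_sub_cancel_left]
  have e1 : (i * (2 * s) + (2 * j + ε)) / (2 * s) = i := by
    rw [mul_comm i, Nat.mul_add_div (by omega), Nat.div_eq_of_lt h2s, add_zero]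
  have e2 : (i * (2 * s) + (2 * j + ε)) % (2 * s) = 2 * j + ε := by
    rw [mul_comm i, Nat.mul_add_mod, Nat.mod_eq_of_lt h2s]
  have e3 : (2 * j + ε) / 2 = j := by omega
  have e4 : (2 * j + ε) % 2 = ε := by omega
  rw [e1, e2, e3, e4]
  have e5 : decide (ε = 0) = b := by
    rw [hε]; cases b <;> simp
  rw [e5]

/-- a Boolean function that depends on one pair only -/
def Fac {V : Type} (f : (V → V → Bool) → Bool) : Prop :=
  ∃ (v v' : V) (g : Bool → Bool), ∀ z, f z = g (z v v')

lemma Fac.comp {V : Type} {f : (V → V → Bool) → Bool} (h : Fac f) (F : Bool → Bool) :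
    Fac (fun z => F (f z)) := by
  obtain ⟨v, v', g, hg⟩ := h
  exact ⟨v, v', fun x => F (g x), fun z => by simp only [hg]⟩

lemma Fac.const {V : Type} [Nonempty V] (c : Bool) :
    Fac (fun _ : V → V → Bool => c) := by
  obtain ⟨v⟩ := (inferInstance : Nonempty V)
  exact ⟨v, v, fun _ => c, fun _ => rfl⟩

lemma Fac.loc {V : Type} [DecidableEq V] {f : (V → V → Bool) → Bool} (h : Fac f) :
    ∃ v v' : V, Loc {v, v'} (fun z => f z = true) := by
  obtain ⟨v, v', g, hg⟩ := h
  refine ⟨v, v', ?_⟩
  intro z z' hzz' hz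
  simp only [hg] at hz ⊢
  rwa [← hzz' v (Finset.mem_insert_self _ _) v'
    (Finset.mem_insert_of_mem (Finset.mem_singleton_self _))]

lemma fac_adjN [Nonempty (Vx k Bu Wn)] (a c : ℕ) :
    Fac (fun z : Vx k Bu Wn → Vx k Bu Wn → Bool => adjN z a c) := by
  unfold adjN
  split_ifs with h1 h2
  · exact Fac.const _
  · exact ⟨_, _, id, fun _ => rfl⟩
  · exact Fac.const _

lemma fac_rowN [Nonempty (Vx k Bu Wn)] (w j : ℕ) :
    Fac (fun z : Vx k Bu Wn → Vx k Bu Wn → Bool => rowN z w j) := by
  unfold rowN
  split_ifs with h1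
  · exact ⟨_, _, id, fun _ => rfl⟩
  · exact Fac.const _

lemma encS_henc [Nonempty (Vx k Bu Wn)] (p : Fin (k + 1 + 2 * s ^ (rl.length + 2))) :
    ∃ v v' : Vx k Bu Wn, Loc {v, v'} (fun z => encS s rl Nt z p = true) := by
  apply Fac.loc
  unfold encS
  split_ifs
  · exact Fac.const _
  · exact Fac.const _
  · unfold srcLit
    split_ifs
    · exact (fac_adjN _ _).comp (fun x => decide ((_ ∧ (_ ∨ _)) ∨ (_ ∧ _ ∧ x = true)))
    · exact Fac.const _
    · exact Fac.const _
    · exact (fac_adjN _ _).comp (fun x => decide (_ ∧ x = false))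
    · exact (fac_rowN _ _).comp (fun x => (_ && x))

/-- value of a row, for a set `V` of columns -/
def rowVal (z : Vx k Bu Wn → Vx k Bu Wn → Bool) (V : Finset ℕ) (β : Bool) (w : ℕ) : Prop :=
  if β = true then ∀ j < s, rowN z w j = true → j ∉ V
  else ∃ j < s, rowN z w j = true ∧ j ∈ V

section eval
variable {s rl Nt}

lemma Dr_pow (base : ℕ → ℕ) (rl : List ℕ) (i : ℕ) (P : ℕ → Prop)
    (h : P (i / s ^ rl.length)) : ∃ i', P i' ∧ Dr s base rl i = Dr s (fun _ => base i') rl i := by
  refine ⟨i / s ^ rl.length, h, ?_⟩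
  clear h
  induction rl generalizing i with
  | nil => simp [Dr]
  | cons N rl ih =>
    simp only [Dr, List.length_cons]
    have := ih (i / s)
    rw [Nat.div_div_eq_div_mul, ← pow_succ'] at this
    rw [this]

/-- the part of the formula below a top digit of the second kind -/
lemma gate_rows (hs : 0 < s) (z : Vx k Bu Wn → Vx k Bu Wn → Bool) (V : Finset ℕ)
    (hN : ∀ N ∈ rl, 0 < N ∧ N ≤ s) {a : ℕ} (ha : npr k Bu ≤ a) :
    gate s (fun β i => botL s (fun j b => srcLit s rl Nt z i j b = true) V β) rl.length false a ↔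
      gateR rl (rowVal s z V) false (bs k Bu Nt a) := by
  rw [← gate_dec hs (bs k Bu Nt) rl (rowVal s z V) false a hN]
  apply gate_congr
  intro i' h1 h2
  have hdiv : i' / s ^ rl.length = a := by
    apply le_antisymm
    · have : i' / s ^ rl.length < a + 1 := by
        rw [Nat.div_lt_iff_lt_mul (by positivity)]; exact h2
      omega
    · rw [Nat.le_div_iff_mul_le (by positivity)]; exact h1
  have hlit : ∀ j b, srcLit s rl Nt z i' j b = (decide (b = !(fl (rl.length + 1) true)) &&
      rowN z (Dr s (bs k Bu Nt) rl i') j) := by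
    intro j b
    unfold srcLit
    rw [hdiv, if_neg (by omega)]
  simp only [hlit]
  have hfl : fl (rl.length + 1) true = fl rl.length false := by rw [fl_succ']; rfl
  rw [hfl]
  unfold botL rowVal
  cases fl rl.length false
  · simp only [Bool.false_eq_true, if_false, Bool.not_false, Bool.and_eq_true, decide_eq_true_eq]
    constructor
    · rintro ⟨j, hj, b, ⟨rfl, h⟩, h3⟩
      exact ⟨j, hj, h, h3.2 rfl⟩
    · rintro ⟨j, hj, h, h3⟩
      exact ⟨j, hj, true, ⟨rfl, h⟩, by simp [h3]⟩
  · simp only [if_true, Bool.not_true, Bool.and_eq_true, decide_eq_true_eq]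
    constructor
    · intro h j hj hr
      have := h j hj false ⟨rfl, hr⟩
      simpa using this
    · rintro h j hj b ⟨rfl, hr⟩
      have := h j hj hr
      simp [this]

/-- the part of the formula below a top digit of the first kind -/
lemma gate_pairs (hs : 3 ≤ s) (z : Vx k Bu Wn → Vx k Bu Wn → Bool) (V : Finset ℕ)
    (hks : k * Bu ≤ s) {a : ℕ} (ha : a < npr k Bu) :
    gate s (fun β i => botL s (fun j b => srcLit s rl Nt z i j b = true) V β) rl.length false a ↔
      (a / (k * Bu) ∉ V ∨ a % (k * Bu) ∉ V ∨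
        adjN z (a / (k * Bu)) (a % (k * Bu)) = true) := by
  have hkB : 0 < k * Bu := by
    by_contra hcon
    have : k * Bu = 0 := by omega
    simp [npr, this] at ha
  have hu : a / (k * Bu) < s := by
    refine lt_of_lt_of_le ?_ hks
    rw [Nat.div_lt_iff_lt_mul hkB]; exact ha
  have hv : a % (k * Bu) < s := lt_of_lt_of_le (Nat.mod_lt _ hkB) hks
  have hfl : fl (rl.length + 1) true = fl rl.length false := by rw [fl_succ']; rfl
  rcases hβ : fl rl.length false with _ | _
  · -- disjunctive rows
    apply gate_const (by omega)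
    intro i' h1 h2
    have hdiv : i' / s ^ rl.length = a := by
      apply le_antisymm
      · have : i' / s ^ rl.length < a + 1 := by
          rw [Nat.div_lt_iff_lt_mul (by positivity)]; exact h2
        omega
      · rw [Nat.le_div_iff_mul_le (by positivity)]; exact h1
    have hlit : ∀ j b, srcLit s rl Nt z i' j b = decide ((b = false ∧ (j = a / (k * Bu) ∨
        j = a % (k * Bu))) ∨ (b = true ∧ j = a / (k * Bu) ∧
          adjN z (a / (k * Bu)) (a % (k * Bu)) = true)) := by
      intro j b
      unfold srcLit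
      rw [hdiv, if_pos ha, hfl, hβ, if_pos rfl]
    simp only [hlit, hβ]
    unfold botL
    simp only [Bool.false_eq_true, if_false, decide_eq_true_eq]
    constructor
    · rintro ⟨j, hj, b, h, h3⟩
      rcases h with ⟨rfl, h | h⟩ | ⟨rfl, h, h4⟩
      · subst h; left; simpa using h3
      · subst h; right; left; simpa using h3
      · right; right; exact h4
    · intro h
      by_cases hV : a / (k * Bu) ∈ V
      · by_cases hV' : a % (k * Bu) ∈ V
        · rcases h with h | h | h
          · exact absurd hV h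
          · exact absurd hV' h
          · exact ⟨_, hu, true, Or.inr ⟨rfl, rfl, h⟩, by simp [hV]⟩
        · exact ⟨_, hv, false, Or.inl ⟨rfl, Or.inr rfl⟩, by simp [hV']⟩
      · exact ⟨_, hu, false, Or.inl ⟨rfl, Or.inl rfl⟩, by simp [hV]⟩
  · -- conjunctive rows
    obtain ⟨m', hm'⟩ : ∃ m', rl.length = m' + 1 := by
      rcases h : rl.length with _ | m'
      · rw [h] at hβ; simp [fl] at hβ
      · exact ⟨m', rfl⟩
    have hβ' : fl m' false = false := by
      rw [hm', fl] at hβ; simpa using hβ
    have hpw : s ^ rl.length = s * s ^ m' := by rw [hm', pow_succ]; ring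
    rw [hm', gate_peel]
    apply gate_const (by omega)
    intro i' h1 h2
    rw [hβ', gate1_false]
    have hdiv : ∀ a' < s, (i' * s + a') / s ^ rl.length = a ∧ (i' * s + a') % s = a' := by
      intro a' ha'
      constructor
      · rw [hpw, ← Nat.div_div_eq_div_mul]
        have : (i' * s + a') / s = i' := by
          rw [mul_comm, Nat.mul_add_div (by omega), Nat.div_eq_of_lt ha', add_zero]
        rw [this]
        apply le_antisymm
        · have : i' / s ^ m' < a + 1 := by
            rw [Nat.div_lt_iff_lt_mul (by positivity)]; exact h2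
          omega
        · rw [Nat.le_div_iff_mul_le (by positivity)]; exact h1
      · rw [mul_comm, Nat.mul_add_mod, Nat.mod_eq_of_lt ha']
    have hlit : ∀ a' < s, ∀ j b, srcLit s rl Nt z (i' * s + a') j b =
        if a' = 0 then decide (b = false ∧ j = a / (k * Bu))
        else if a' = 1 then decide (b = false ∧ j = a % (k * Bu))
        else decide (j = a / (k * Bu) ∧
          adjN z (a / (k * Bu)) (a % (k * Bu)) = false) := by
      intro a' ha' j b
      unfold srcLit
      rw [(hdiv a' ha').1, (hdiv a' ha').2, if_pos ha, hfl, hβ, if_neg (by simp)]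
    constructor
    · rintro ⟨a', ha', h⟩
      simp only [hlit a' ha'] at h
      unfold botL at h
      rw [if_pos rfl] at h
      by_cases h0 : a' = 0
      · subst h0
        left
        have := h _ hu false (by simp)
        simpa using this
      · by_cases h1' : a' = 1
        · subst h1'
          right; left
          have := h _ hv false (by simp)
          simpa using this
        · right; right
          by_contra hadj
          rw [Bool.not_eq_true] at hadj
          have e1 := h _ hu false (by simp [h0, h1', hadj])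
          have e2 := h _ hu true (by simp [h0, h1', hadj])
          simp at e1 e2
          exact e1 e2
    · intro h
      rcases h with h | h | h
      · refine ⟨0, by omega, ?_⟩
        simp only [hlit 0 (by omega)]
        unfold botL
        rw [if_pos rfl]
        intro j hj b hb
        simp at hb
        obtain ⟨rfl, rfl⟩ := hb
        simp [h]
      · refine ⟨1, by omega, ?_⟩
        simp only [hlit 1 (by omega)]
        unfold botL
        rw [if_pos rfl]
        intro j hj b hb
        simp at hb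
        obtain ⟨rfl, rfl⟩ := hb
        simp [h]
      · refine ⟨2, by omega, ?_⟩
        simp only [hlit 2 (by omega)]
        unfold botL
        rw [if_pos rfl]
        intro j hj b hb
        simp [h] at hb

end eval

end

end Pool.Agent.H68WH
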