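import Pool.Agent.H68WH.Source

set_option linter.unusedSectionVars false

/-! Correctness of the source instances. -/

namespace Pool.Agent.H68WH

open Finset Classical
open Pool.Agent.H592R2

noncomputable section

variable {k Bu Wn : ℕ} {s : ℕ} {rl : List ℕ} {Nt : ℕ}

/-- requirements on the numbers of the source instance -/
structure SrcOK (k Bu s : ℕ) (rl : List ℕ) (Nt : ℕ) : Prop where
  hNt : 0 < Nt
  hs3 : 3 ≤ s
  hks : k * Bu ≤ s
  hsum : npr k Bu + Nt ≤ s
  hN : ∀ N ∈ rl, 0 < N ∧ N ≤ s

lemma eval_src (h : SrcOK k Bu s rl Nt) (z : Vx k Bu Wn → Vx k Bu Wn → Bool) (V : Finset ℕ) :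
    gate s (fun β i => botL s (fun j b => srcLit s rl Nt z i j b = true) V β)
      (rl.length + 1) true 0 ↔
      (∀ u v : Fin k × Fin Bu, cn u ∈ V → cn v ∈ V → adjN z (cn u) (cn v) = true) ∧
        ∀ a < Nt, gateR rl (rowVal s z V) false a := by
  rw [gate_succ, gate1_true]
  simp only [zero_mul, zero_add]
  constructor
  · intro hall
    constructor
    · intro u v hu hv
      have hkB : 0 < k * Bu := lt_of_le_of_lt (Nat.zero_le _) (cn_lt u)
      have hlt : cn u * (k * Bu) + cn v < npr k Bu := by
        unfold npr
        calc cn u * (k * Bu) + cn v < cn u * (k * Bu) + k * Bu := by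
              have := cn_lt v; omega
          _ = (cn u + 1) * (k * Bu) := by ring
          _ ≤ _ := Nat.mul_le_mul_right _ (cn_lt u)
      have hltS : cn u * (k * Bu) + cn v < s := by have := h.hsum; omega
      have h1 := (gate_pairs h.hs3 z V h.hks hlt).1 (hall _ hltS)
      have e1 : (cn u * (k * Bu) + cn v) / (k * Bu) = cn u := by
        rw [mul_comm, Nat.mul_add_div hkB, Nat.div_eq_of_lt (cn_lt v), add_zero]
      have e2 : (cn u * (k * Bu) + cn v) % (k * Bu) = cn v := by
        rw [mul_comm, Nat.mul_add_mod, Nat.mod_eq_of_lt (cn_lt v)]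
      rw [e1, e2] at h1
      rcases h1 with h1 | h1 | h1
      · exact absurd hu h1
      · exact absurd hv h1
      · exact h1
    · intro a ha
      have h1 := (gate_rows (by have := h.hs3; omega) z V h.hN
        (le_add_right le_rfl : npr k Bu ≤ npr k Bu + a)).1
        (hall (npr k Bu + a) (by have := h.hsum; omega))
      have e1 : bs k Bu Nt (npr k Bu + a) = a := by
        unfold bs
        rw [Nat.add_sub_cancel_left, Nat.mod_eq_of_lt ha]
      rwa [e1] at h1
  · rintro ⟨hp, hr⟩ a ha
    by_cases hlt : a < npr k Bu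
    · rw [gate_pairs h.hs3 z V h.hks hlt]
      have hkB : 0 < k * Bu := by
        by_contra hcon
        have : k * Bu = 0 := by omega
        simp [npr, this] at hlt
      have hu : a / (k * Bu) < k * Bu := by
        rw [Nat.div_lt_iff_lt_mul hkB]; exact hlt
      have hv : a % (k * Bu) < k * Bu := Nat.mod_lt _ hkB
      by_cases hV : a / (k * Bu) ∈ V
      · by_cases hV' : a % (k * Bu) ∈ V
        · right; right
          have e : ∀ x (hx : x < k * Bu), cn (finProdFinEquiv.symm (⟨x, hx⟩ : Fin (k * Bu)) :
              Fin k × Fin Bu) = x := by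
            intro x hx
            unfold cn
            rw [Equiv.apply_symm_apply]
          have := hp (finProdFinEquiv.symm ⟨_, hu⟩) (finProdFinEquiv.symm ⟨_, hv⟩)
            (by rw [e]; exact hV) (by rw [e]; exact hV')
          rwa [e, e] at this
        · right; left; exact hV'
      · left; exact hV
    · rw [gate_rows (by have := h.hs3; omega) z V h.hN (by omega)]
      apply hr
      unfold bs
      exact Nat.mod_lt _ h.hNt

/-- value of a row for a transversal `u` -/
def rowV (z : Vx k Bu Wn → Vx k Bu Wn → Bool) (u : Fin k → Fin Bu) (β : Bool) (w : ℕ) : Prop :=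
  if β = true then ∀ i, rowN z w (cn (i, u i)) = false else ∃ i, rowN z w (cn (i, u i)) = true

lemma rowVal_eq (hks : k * Bu ≤ s) (z : Vx k Bu Wn → Vx k Bu Wn → Bool) (u : Fin k → Fin Bu)
    (β : Bool) (w : ℕ) :
    rowVal s z (Finset.univ.image (fun i => cn (i, u i))) β w ↔ rowV z u β w := by
  unfold rowVal rowV
  cases β
  · simp only [Bool.false_eq_true, if_false]
    constructor
    · rintro ⟨j, hj, h, hV⟩
      rw [Finset.mem_image] at hV
      obtain ⟨i, -, rfl⟩ := hV
      exact ⟨i, h⟩
    · rintro ⟨i, h⟩
      exact ⟨_, lt_of_lt_of_le (cn_lt _) hks, h, Finset.mem_image_of_mem _ (Finset.mem_univ i)⟩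
  · simp only [if_true]
    constructor
    · intro h i
      by_contra hc
      rw [Bool.not_eq_false] at hc
      exact h _ (lt_of_lt_of_le (cn_lt _) hks) hc (Finset.mem_image_of_mem _ (Finset.mem_univ i))
    · intro h j hj hr hV
      rw [Finset.mem_image] at hV
      obtain ⟨i, -, rfl⟩ := hV
      rw [h i] at hr
      exact absurd hr (by simp)

lemma vars_encS (h : SrcOK k Bu s rl Nt) (z : Vx k Bu Wn → Vx k Bu Wn → Bool) (j : ℕ) :
    j ∈ vars (rl.length + 2) (encS s rl Nt z) ↔ j < k * Bu := by
  unfold vars
  rw [Finset.mem_filter, fan_encS, Finset.mem_range]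
  have hs0 : 0 < s := by have := h.hs3; omega
  constructor
  · rintro ⟨hj, i, hi, b, hlit⟩
    rw [show rl.length + 2 - 1 = rl.length + 1 by omega] at hi
    rw [litAt_encS s rl Nt z b hi hj] at hlit
    unfold srcLit at hlit
    by_cases hlt : i / s ^ rl.length < npr k Bu
    · rw [if_pos hlt] at hlit
      have hkB : 0 < k * Bu := by
        by_contra hcon
        have : k * Bu = 0 := by omega
        simp [npr, this] at hlt
      have hu : (i / s ^ rl.length) / (k * Bu) < k * Bu := by
        rw [Nat.div_lt_iff_lt_mul hkB]; exact hlt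
      have hv : (i / s ^ rl.length) % (k * Bu) < k * Bu := Nat.mod_lt _ hkB
      split_ifs at hlit
      · simp only [decide_eq_true_eq] at hlit
        rcases hlit with ⟨_, h | h⟩ | ⟨_, h, _⟩ <;> rw [h] <;> assumption
      · simp only [decide_eq_true_eq] at hlit
        rw [hlit.2]; exact hu
      · simp only [decide_eq_true_eq] at hlit
        rw [hlit.2]; exact hv
      · simp only [decide_eq_true_eq] at hlit
        rw [hlit.1]; exact hu
    · rw [if_neg hlt, Bool.and_eq_true] at hlit
      have := hlit.2
      unfold rowN at this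
      split_ifs at this with h1
      · exact h1.2
  · intro hj
    have hkB : 0 < k * Bu := by omega
    refine ⟨lt_of_lt_of_le hj h.hks, (j * (k * Bu)) * s ^ rl.length, ?_, false, ?_⟩
    · rw [show rl.length + 2 - 1 = rl.length + 1 by omega, pow_succ, mul_comm (s ^ rl.length) s]
      apply Nat.mul_lt_mul_of_pos_right _ (by positivity)
      refine lt_of_lt_of_le ?_ (le_trans (Nat.le_add_right _ Nt) h.hsum)
      unfold npr
      exact Nat.mul_lt_mul_of_pos_right hj hkB
    · have hi : (j * (k * Bu)) * s ^ rl.length < s ^ (rl.length + 1) := by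
        rw [pow_succ, mul_comm (s ^ rl.length) s]
        apply Nat.mul_lt_mul_of_pos_right _ (by positivity)
        refine lt_of_lt_of_le ?_ (le_trans (Nat.le_add_right _ Nt) h.hsum)
        unfold npr
        exact Nat.mul_lt_mul_of_pos_right hj hkB
      rw [litAt_encS s rl Nt z false hi (lt_of_lt_of_le hj h.hks)]
      have hdiv : (j * (k * Bu)) * s ^ rl.length / s ^ rl.length = j * (k * Bu) :=
        Nat.mul_div_cancel _ (by positivity)
      have hlt : j * (k * Bu) < npr k Bu := by
        unfold npr
        exact Nat.mul_lt_mul_of_pos_right hj hkB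
      have hu : j * (k * Bu) / (k * Bu) = j := Nat.mul_div_cancel _ hkB
      unfold srcLit
      rw [hdiv, if_pos hlt, hu]
      rcases Nat.eq_zero_or_pos rl.length with hl | hl
      · have : rl = [] := List.length_eq_zero_iff.mp hl
        subst this
        simp [fl]
      · have hmod : j * (k * Bu) * s ^ rl.length % s = 0 := by
          obtain ⟨m', hm'⟩ : ∃ m', rl.length = m' + 1 := ⟨rl.length - 1, by omega⟩
          rw [hm', pow_succ, ← mul_assoc, Nat.mul_mod_left]
        rw [hmod, if_pos rfl]
        split_ifs <;> simp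

/-- correctness of the source instance -/
theorem src_correct (h : SrcOK k Bu s rl Nt) (z : Vx k Bu Wn → Vx k Bu Wn → Bool) :
    (pWSAT (rl.length + 2)).Q _ (encS s rl Nt z) ↔
      ∃ u : Fin k → Fin Bu,
        (∀ i i', i ≠ i' → z (Sum.inl (i, u i)) (Sum.inl (i', u i')) = true) ∧
        ∀ a < Nt, gateR rl (rowV z u) false a := by
  have hgate : ∀ V : Finset ℕ, gate s (fun β i => botL s (litAt (rl.length + 2)
      (encS s rl Nt z) i) V β) (rl.length + 2 - 1) true 0 ↔
      gate s (fun β i => botL s (fun j b => srcLit s rl Nt z i j b = true) V β)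
        (rl.length + 1) true 0 := by
    intro V
    rw [show rl.length + 2 - 1 = rl.length + 1 by omega]
    apply gate_congr0
    intro i hi
    unfold botL
    split_ifs
    · constructor
      · intro h1 j hj b hb
        exact h1 j hj b ((litAt_encS s rl Nt z b hi hj).2 hb)
      · intro h1 j hj b hb
        exact h1 j hj b ((litAt_encS s rl Nt z b hi hj).1 hb)
    · constructor
      · rintro ⟨j, hj, b, hb, h1⟩
        exact ⟨j, hj, b, (litAt_encS s rl Nt z b hi hj).1 hb, h1⟩
      · rintro ⟨j, hj, b, hb, h1⟩
        exact ⟨j, hj, b, (litAt_encS s rl Nt z b hi hj).2 hb, h1⟩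
  have hQ : (pWSAT (rl.length + 2)).Q _ (encS s rl Nt z) ↔
      ∃ V ⊆ vars (rl.length + 2) (encS s rl Nt z), V.card = k ∧
        ((∀ u v : Fin k × Fin Bu, cn u ∈ V → cn v ∈ V → adjN z (cn u) (cn v) = true) ∧
        ∀ a < Nt, gateR rl (rowVal s z V) false a) := by
    simp only [pWSAT, lead_encS, fan_encS, hgate]
    simp only [eval_src h]
  rw [hQ]
  constructor
  · rintro ⟨V, hVs, hVc, hadj, hr⟩
    -- the columns of `V`
    have hlt : ∀ j ∈ V, j < k * Bu := fun j hj => (vars_encS h z j).1 (hVs hj)
    let col : ∀ j : V, Fin k × Fin Bu := fun j => finProdFinEquiv.symm ⟨j.1, hlt j.1 j.2⟩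
    have hcol : ∀ j : V, cn (col j) = j.1 := by
      intro j
      simp only [col, cn, Equiv.apply_symm_apply]
    have hinj : Function.Injective (fun j : V => (col j).1) := by
      intro j j' hjj'
      have h1 := hadj (col j) (col j') (by rw [hcol]; exact j.2) (by rw [hcol]; exact j'.2)
      rw [adjN_cn, if_pos hjj', decide_eq_true_eq] at h1
      apply Subtype.ext
      rw [← hcol j, ← hcol j', h1]
    have hsurj : Function.Surjective (fun j : V => (col j).1) := by
      have : Fintype.card V = Fintype.card (Fin k) := by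
        rw [Fintype.card_coe, Fintype.card_fin, hVc]
      exact ((Fintype.bijective_iff_injective_and_card _).2 ⟨hinj, this⟩).2
    choose jf hjf using hsurj
    have hcf : ∀ i, col (jf i) = (i, (col (jf i)).2) := by
      intro i
      exact Prod.ext (hjf i) rfl
    refine ⟨fun i => (col (jf i)).2, ?_, ?_⟩
    · intro i i' hii'
      have h1 := hadj (col (jf i)) (col (jf i')) (by rw [hcol]; exact (jf i).2)
        (by rw [hcol]; exact (jf i').2)
      rw [adjN_cn, hcf i, hcf i'] at h1
      simp only at h1
      rwa [if_neg hii'] at h1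
    · have hVim : V = Finset.univ.image (fun i => cn (i, (col (jf i)).2)) := by
        ext j
        rw [Finset.mem_image]
        constructor
        · intro hj
          refine ⟨(col ⟨j, hj⟩).1, Finset.mem_univ _, ?_⟩
          have h2 : jf (col ⟨j, hj⟩).1 = ⟨j, hj⟩ := hinj (hjf _)
          rw [← hcf, h2, hcol]
        · rintro ⟨i, -, rfl⟩
          rw [← hcf, hcol]
          exact (jf i).2
      intro a ha
      have h1 := hr a ha
      rw [hVim] at h1
      refine (gateR_congr rl _ _ _ _ ?_).1 h1
      intro i' _
      exact rowVal_eq h.hks z _ _ _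
  · rintro ⟨u, hu, hr⟩
    refine ⟨Finset.univ.image (fun i => cn (i, u i)), ?_, ?_, ?_, ?_⟩
    · intro j hj
      rw [Finset.mem_image] at hj
      obtain ⟨i, -, rfl⟩ := hj
      rw [vars_encS h]
      exact cn_lt _
    · rw [Finset.card_image_of_injective, Finset.card_univ, Fintype.card_fin]
      intro i i' hii'
      have := cn_inj hii'
      simp only [Prod.mk.injEq] at this
      exact this.1
    · intro v v' hv hv'
      rw [Finset.mem_image] at hv hv'
      obtain ⟨i, -, hi⟩ := hv
      obtain ⟨i', -, hi'⟩ := hv'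
      have e1 := cn_inj hi
      have e2 := cn_inj hi'
      subst e1 e2
      rw [adjN_cn]
      by_cases hii' : i = i'
      · subst hii'; simp
      · simp only [if_neg hii']
        exact hu i i' hii'
    · intro a ha
      refine (gateR_congr rl _ _ _ _ ?_).2 (hr a ha)
      intro i' _
      exact rowVal_eq h.hks z _ _ _

end

end Pool.Agent.H68WH
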