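import Pool.Agent.H68WH.Params

set_option linter.unusedSectionVars false

/-! Predicates on the output of a reduction. -/

namespace Pool.Agent.H68WH

open Finset Classical
open Pool.Agent.H592R2

noncomputable section

variable {n m : ℕ}

/-- fan-in of the output formula if the parameter of the output is `κ` -/
def sT (T m κ : ℕ) : ℕ := sN T (m - (κ + 1))

lemma sN_le {T : ℕ} (m : ℕ) : sN T m ≤ m := Nat.findGreatest_le _

lemma sT_le (T m κ : ℕ) : sT T m κ ≤ m := (sN_le _).trans (Nat.sub_le _ _)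

lemma fan_eq {T κ : ℕ} {y : Fin m → Bool} (h : lead y = κ) : fan T y = sT T m κ := by
  unfold fan sT; rw [h]

/-- the formula for: literal `(j, b)` occurs in the bottom gate `i` -/
def litG (T : ℕ) (out : Fin m → Fml n) (κ i j : ℕ) (b : Bool) : Fml n :=
  bitF out (κ + 1 + (i * (2 * sT T m κ) + (2 * j + (if b then 0 else 1))))

lemma holds_litG {T κ : ℕ} (out : Fin m → Fml n) (i j : ℕ) (b : Bool) {x : Fin n → Bool}
    (h : lead (applyF out x) = κ) :
    (litG T out κ i j b).Holds x ↔ litAt T (applyF out x) i j b := by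
  unfold litG litAt
  rw [holds_bitF, h, fan_eq h]

section bounds
variable {D X : ℕ} {out : Fin m → Fml n}

lemma depth_litG (hD : ∀ i, (out i).depth ≤ D) (T κ i j b) :
    (litG T out κ i j b).depth ≤ D + 1 := depth_bitF_le hD _

lemma size_litG (hX1 : 1 ≤ X) (hX : ∀ i, (out i).size ≤ X) (T κ i j b) :
    (litG T out κ i j b).size ≤ X := size_bitF_le hX1 hX _

end bounds

/-- the parameter of the output is `κ` -/
lemma lead_eq_iff {y : Fin m → Bool} {κ : ℕ} :
    lead y = κ ↔ (∀ p < κ, bitN y p = true) ∧ bitN y κ = false := by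
  unfold lead
  rw [Nat.find_eq_iff]
  constructor
  · rintro ⟨h1, h2⟩
    exact ⟨fun p hp => by simpa using h2 p hp, h1⟩
  · rintro ⟨h1, h2⟩
    exact ⟨h2, fun p hp => by simp [h1 p hp]⟩

/-! ### CNF formulas with small clauses -/

/-- the set of literals given by a tuple -/
def inC {m d : ℕ} (t : Fin d → Option (Fin m × Bool)) (j : ℕ) (b : Bool) : Prop :=
  ∃ (a : Fin d) (h : j < m), t a = some (⟨j, h⟩, b)

/-- some clause is exactly the one given by `t` -/
def PG (out : Fin m → Fml n) (κ : ℕ) {d : ℕ} (t : Fin d → Option (Fin m × Bool)) : Fml n :=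
  orF (fun i : Fin (sT 2 m κ) => andF (fun l : Fin (sT 2 m κ) × Bool =>
    if inC t l.1 l.2 then litG 2 out κ i l.1 l.2 else (litG 2 out κ i l.1 l.2).neg))

lemma holds_PG (out : Fin m → Fml n) {κ : ℕ} {d : ℕ} (t : Fin d → Option (Fin m × Bool))
    {x : Fin n → Bool} (h : lead (applyF out x) = κ) :
    (PG out κ t).Holds x ↔ ∃ i < sT 2 m κ, ∀ j < sT 2 m κ, ∀ b,
      (inC t j b ↔ litAt 2 (applyF out x) i j b) := by
  unfold PG
  simp only [holds_orF, holds_andF, Prod.forall]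
  constructor
  · rintro ⟨i, hi⟩
    refine ⟨i, i.2, ?_⟩
    intro j hj b
    have := hi ⟨j, hj⟩ b
    by_cases hc : inC t j b
    · simp only [if_pos hc, holds_litG out _ _ _ h] at this
      simp [hc, this]
    · simp only [if_neg hc, Fml.holds_neg, holds_litG out _ _ _ h] at this
      simp [hc, this]
  · rintro ⟨i, hi, hall⟩
    refine ⟨⟨i, hi⟩, ?_⟩
    intro j b
    have := hall j j.2 b
    by_cases hc : inC t j b
    · simp only [if_pos hc, holds_litG out _ _ _ h]
      exact this.1 hc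
    · simp only [if_neg hc, Fml.holds_neg, holds_litG out _ _ _ h]
      intro h1; exact hc (this.2 h1)

/-- all clauses have at most `d` literals -/
def WG (out : Fin m → Fml n) (κ d : ℕ) : Fml n :=
  andF (fun i : Fin (sT 2 m κ) => andF (fun t : Fin (d + 1) → Fin (sT 2 m κ) × Bool =>
    if Function.Injective t then orF (fun a : Fin (d + 1) => (litG 2 out κ i (t a).1 (t a).2).neg)
      else trueF))

lemma clause_card {y : Fin m → Bool} {κ : ℕ} (h : lead y = κ) (i : ℕ) :
    (clause y i).card =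
      (Finset.univ.filter (fun l : Fin (sT 2 m κ) × Bool => litAt 2 y i l.1 l.2)).card := by
  symm
  apply Finset.card_bij (fun l _ => (l.1.val, l.2))
  · intro l hl
    rw [Finset.mem_filter] at hl
    rw [clause, Finset.mem_filter, Finset.mem_product, fan_eq h]
    exact ⟨⟨Finset.mem_range.mpr l.1.2, Finset.mem_univ _⟩, hl.2⟩
  · intro l _ l' _ hll'
    simp only [Prod.mk.injEq] at hll'
    exact Prod.ext (Fin.ext hll'.1) hll'.2
  · rintro ⟨j, b⟩ hl
    rw [clause, Finset.mem_filter, Finset.mem_product, fan_eq h, Finset.mem_range] at hl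
    exact ⟨(⟨j, hl.1.1⟩, b), by simp [hl.2], rfl⟩

lemma holds_WG (out : Fin m → Fml n) {κ : ℕ} (d : ℕ) {x : Fin n → Bool}
    (h : lead (applyF out x) = κ) :
    (WG out κ d).Holds x ↔ ∀ i < sT 2 m κ, (clause (applyF out x) i).card ≤ d := by
  unfold WG
  simp only [holds_andF]
  have h1 : (∀ i < sT 2 m κ, (clause (applyF out x) i).card ≤ d) ↔
      ∀ i : Fin (sT 2 m κ), (clause (applyF out x) i).card ≤ d :=
    ⟨fun h i => h i i.2, fun h i hi => h ⟨i, hi⟩⟩
  rw [h1]
  apply forall_congr'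
  intro i
  rw [clause_card h, card_le_iff]
  apply forall_congr'
  intro t
  by_cases ht : Function.Injective t
  · simp [ht, holds_litG out _ _ _ h]
  · simp [ht]

/-- variable `j` occurs -/
def usedG (T : ℕ) (out : Fin m → Fml n) (κ : ℕ) (j : ℕ) : Fml n :=
  orF (fun i : Fin (sT T m κ ^ (T - 1)) => orF (fun b : Bool => litG T out κ i j b))

lemma holds_usedG {T : ℕ} (out : Fin m → Fml n) {κ : ℕ} {j : ℕ} {x : Fin n → Bool}
    (h : lead (applyF out x) = κ) (hj : j < sT T m κ) :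
    (usedG T out κ j).Holds x ↔ j ∈ vars T (applyF out x) := by
  unfold usedG vars
  simp only [holds_orF, holds_litG out _ _ _ h, Finset.mem_filter, Finset.mem_range, fan_eq h]
  constructor
  · rintro ⟨i, b, hb⟩; exact ⟨hj, i, i.2, b, hb⟩
  · rintro ⟨-, i, hi, b, hb⟩; exact ⟨⟨i, hi⟩, b, hb⟩

section bounds
variable {D X : ℕ} {out : Fin m → Fml n}

lemma depth_PG (hD : ∀ i, (out i).depth ≤ D) (κ) {d : ℕ} (t : Fin d → Option (Fin m × Bool)) :
    (PG out κ t).depth ≤ D + 4 := by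
  have h1 : ∀ i : Fin (sT 2 m κ), (andF (fun l : Fin (sT 2 m κ) × Bool =>
    if inC t l.1 l.2 then litG 2 out κ i l.1 l.2 else (litG 2 out κ i l.1 l.2).neg)).depth ≤
      D + 2 := by
    intro i
    apply depth_andF_le
    intro l
    split_ifs
    · exact depth_litG hD _ _ _ _ _
    · rw [Fml.depth_neg]; exact depth_litG hD _ _ _ _ _
  exact (depth_orF_le h1).trans (by omega)

lemma size_PG (hX1 : 1 ≤ X) (hX : ∀ i, (out i).size ≤ X) (hm : m ≤ X) (κ) {d : ℕ}
    (t : Fin d → Option (Fin m × Bool)) : (PG out κ t).size ≤ 4 * X ^ 3 := by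
  have hs := (sT_le 2 m κ).trans hm
  have h1 : ∀ i : Fin (sT 2 m κ), (andF (fun l : Fin (sT 2 m κ) × Bool =>
    if inC t l.1 l.2 then litG 2 out κ i l.1 l.2 else (litG 2 out κ i l.1 l.2).neg)).size ≤
      3 * X ^ 2 := by
    intro i
    have : (andF (fun l : Fin (sT 2 m κ) × Bool =>
      if inC t l.1 l.2 then litG 2 out κ i l.1 l.2 else (litG 2 out κ i l.1 l.2).neg)).size ≤
      Fintype.card (Fin (sT 2 m κ) × Bool) * X + 1 := by
      apply size_andF_le
      intro l
      split_ifs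
      · exact size_litG hX1 hX _ _ _ _ _
      · rw [Fml.size_neg]; exact size_litG hX1 hX _ _ _ _ _
    rw [Fintype.card_prod, Fintype.card_fin, Fintype.card_bool] at this
    have h2 : sT 2 m κ * 2 * X ≤ X * 2 * X := Nat.mul_le_mul_right _ (Nat.mul_le_mul_right _ hs)
    have h3 : 1 ≤ X ^ 2 := Nat.one_le_pow _ _ hX1
    nlinarith
  have h2 := size_orF_le h1
  rw [Fintype.card_fin] at h2
  have h3 : sT 2 m κ * (3 * X ^ 2) ≤ X * (3 * X ^ 2) := Nat.mul_le_mul_right _ hs
  have h4 : 1 ≤ X ^ 3 := Nat.one_le_pow _ _ hX1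
  calc (PG out κ t).size ≤ sT 2 m κ * (3 * X ^ 2) + 1 := h2
    _ ≤ X * (3 * X ^ 2) + X ^ 3 := by omega
    _ = 4 * X ^ 3 := by ring

lemma depth_WG (hD : ∀ i, (out i).depth ≤ D) (κ d : ℕ) : (WG out κ d).depth ≤ D + 4 := by
  unfold WG
  apply depth_andF_le
  intro i
  apply depth_andF_le
  intro t
  split_ifs
  · apply depth_orF_le
    intro a
    rw [Fml.depth_neg]
    exact depth_litG hD _ _ _ _ _
  · rw [depth_trueF]; omega

lemma size_WG (hX1 : 1 ≤ X) (hX : ∀ i, (out i).size ≤ X) (hm : m ≤ X) (κ d : ℕ) :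
    (WG out κ d).size ≤ (d + 4) * (2 * X) ^ (d + 3) := by
  have hs := (sT_le 2 m κ).trans hm
  have h1 : ∀ (i : Fin (sT 2 m κ)) (t : Fin (d + 1) → Fin (sT 2 m κ) × Bool),
      (if Function.Injective t then
        orF (fun a : Fin (d + 1) => (litG 2 out κ i (t a).1 (t a).2).neg)
        else trueF).size ≤ (d + 1) * X + 1 := by
    intro i t
    split_ifs
    · have := size_orF_le (f := fun a : Fin (d + 1) => (litG 2 out κ i (t a).1 (t a).2).neg)
        (s := X) (fun a => by rw [Fml.size_neg]; exact size_litG hX1 hX _ _ _ _ _)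
      rwa [Fintype.card_fin] at this
    · rw [size_trueF]; omega
  have h2 : ∀ i : Fin (sT 2 m κ), (andF (fun t : Fin (d + 1) → Fin (sT 2 m κ) × Bool =>
      if Function.Injective t then
        orF (fun a : Fin (d + 1) => (litG 2 out κ i (t a).1 (t a).2).neg)
        else trueF)).size ≤ (2 * X) ^ (d + 1) * ((d + 1) * X + 1) + 1 := by
    intro i
    refine (size_andF_le (h1 i)).trans ?_
    rw [Fintype.card_fun, Fintype.card_prod, Fintype.card_fin, Fintype.card_bool, Fintype.card_fin]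
    apply Nat.add_le_add_right
    apply Nat.mul_le_mul_right
    apply Nat.pow_le_pow_left
    omega
  have h3 := size_andF_le h2
  rw [Fintype.card_fin] at h3
  have hY : 1 ≤ (2 * X) ^ (d + 1) := Nat.one_le_pow _ _ (by omega)
  set Y := (2 * X) ^ (d + 1) with hYdef
  have h4 : (WG out κ d).size ≤ X * (Y * ((d + 1) * X + 1) + 1) + 1 :=
    h3.trans (Nat.add_le_add_right (Nat.mul_le_mul_right _ hs) 1)
  have h5 : (2 * X) ^ (d + 3) = Y * (4 * X ^ 2) := by rw [hYdef, pow_add (2 * X) (d + 1) 2]; ring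
  rw [h5]
  have hX2 : X ≤ X ^ 2 := by nlinarith
  have hXX : 1 ≤ X ^ 2 := Nat.one_le_pow _ _ hX1
  calc (WG out κ d).size ≤ X * (Y * ((d + 1) * X + 1) + 1) + 1 := h4
    _ = Y * (d + 1) * X ^ 2 + X * Y + X + 1 := by ring
    _ ≤ Y * (d + 1) * X ^ 2 + Y * X ^ 2 + Y * X ^ 2 + Y * X ^ 2 := by
        have a1 : X * Y ≤ Y * X ^ 2 := by rw [mul_comm]; exact Nat.mul_le_mul_left _ hX2
        have a2 : X ≤ Y * X ^ 2 := hX2.trans (Nat.le_mul_of_pos_left _ hY)
        have a3 : 1 ≤ Y * X ^ 2 := Nat.mul_pos hY hXX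
        omega
    _ = (d + 4) * (Y * X ^ 2) := by ring
    _ ≤ (d + 4) * (Y * (4 * X ^ 2)) := by
        apply Nat.mul_le_mul_left; apply Nat.mul_le_mul_left; omega

lemma pow_sT_le {T : ℕ} (hT : 2 ≤ T) (m κ : ℕ) : sT T m κ ^ (T - 1) ≤ m := by
  have h := sN_spec (show 1 ≤ T by omega) (m - (κ + 1))
  rcases Nat.eq_zero_or_pos (sT T m κ) with h0 | h0
  · rw [h0, zero_pow (by omega)]; omega
  · have h1 : sT T m κ ^ (T - 1) ≤ sT T m κ ^ T := Nat.pow_le_pow_right h0 (by omega)
    change 2 * sT T m κ ^ T ≤ m - (κ + 1) at h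
    omega

lemma depth_usedG (hD : ∀ i, (out i).depth ≤ D) (T κ j) : (usedG T out κ j).depth ≤ D + 4 :=
  (depth_orF_le (fun _ => depth_orF_le (fun _ => depth_litG hD _ _ _ _ _))).trans (by omega)

lemma size_usedG (hX1 : 1 ≤ X) (hX : ∀ i, (out i).size ≤ X) (hm : m ≤ X) {T : ℕ} (hT : 2 ≤ T)
    (κ j) : (usedG T out κ j).size ≤ 4 * X ^ 3 := by
  have hs := (pow_sT_le hT m κ).trans hm
  have h1 : ∀ i : Fin (sT T m κ ^ (T - 1)),
      (orF (fun b : Bool => litG T out κ i j b)).size ≤ 2 * X + 1 := by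
    intro i
    have := size_orF_le (f := fun b : Bool => litG T out κ i j b) (s := X)
      (fun b => size_litG hX1 hX _ _ _ _ _)
    rwa [Fintype.card_bool] at this
  have h2 := size_orF_le h1
  rw [Fintype.card_fin] at h2
  have h3 : sT T m κ ^ (T - 1) * (2 * X + 1) ≤ X * (2 * X + 1) := Nat.mul_le_mul_right _ hs
  have h4 : X ^ 2 ≤ X ^ 3 := Nat.pow_le_pow_right hX1 (by norm_num)
  have h5 : 1 ≤ X ^ 2 := Nat.one_le_pow _ _ hX1
  calc (usedG T out κ j).size ≤ sT T m κ ^ (T - 1) * (2 * X + 1) + 1 := h2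
    _ ≤ X * (2 * X + 1) + 1 := by omega
    _ ≤ 4 * X ^ 3 := by nlinarith

end bounds

end

end Pool.Agent.H68WH
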