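import Pool.Agent.H68WH.Target
import Pool.Agent.H68WH.Dense

set_option linter.unusedSectionVars false

/-! No reduction from p-WSAT(CNF) to p-WSAT(d-CNF). -/

namespace Pool.Agent.H68WH

open Finset Classical Filter
open Pool.Agent.H592R2

noncomputable section

variable {n m : ℕ}

/-- certificates: the parameter of the output and the true variables -/
abbrev Ct (g m : ℕ) : Type := (κ : Fin (g + 1)) × (Fin κ.val → Fin m)

/-- the true variables of a certificate -/
def VC {g m : ℕ} (c : Ct g m) : Finset ℕ := Finset.univ.image (fun a => (c.2 a).val)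

lemma card_Ct_le {g m X : ℕ} (hX : 1 ≤ X) (hm : m ≤ X) :
    Fintype.card (Ct g m) ≤ (g + 1) * X ^ g := by
  rw [Fintype.card_sigma]
  calc ∑ κ : Fin (g + 1), Fintype.card (Fin κ.val → Fin m) ≤ ∑ _κ : Fin (g + 1), X ^ g := by
        apply Finset.sum_le_sum
        intro κ _
        rw [Fintype.card_fun, Fintype.card_fin, Fintype.card_fin]
        exact (Nat.pow_le_pow_left hm _).trans
          (Nat.pow_le_pow_right hX (by have := κ.2; omega))
    _ = _ := by rw [Finset.sum_const, Finset.card_univ, Fintype.card_fin, smul_eq_mul]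

/-- the clause given by `t` is falsified -/
def Fals {g : ℕ} (c : Ct g m) {d : ℕ} (t : Fin d → Option (Fin m × Bool)) : Prop :=
  ∀ j b, inC t j b → ¬ (j ∈ VC c ↔ b = true)

/-- the conditions for acceptance by a certificate -/
def Hx (out : Fin m → Fml n) (d g : ℕ) (c : Ct g m) : Set ((Fin n → Bool) → Prop) :=
  {h | (∃ p < c.1.val, h = fun x => (bitF out p).Holds x) ∨
    (h = fun x => ¬ (bitF out c.1.val).Holds x) ∨
    (h = fun _ => (VC c).card = c.1.val ∧ ∀ j ∈ VC c, j < sT 2 m c.1.val) ∨
    (∃ a, h = fun x => (usedG 2 out c.1.val (c.2 a)).Holds x) ∨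
    (h = fun x => (WG out c.1.val d).Holds x) ∨
    (∃ t : Fin d → Option (Fin m × Bool), Fals c t ∧
      h = fun x => ¬ (PG out c.1.val t).Holds x)}

lemma exists_inC {d m : ℕ} (C : Finset (Fin m × Bool)) (hC : C.card ≤ d) :
    ∃ t : Fin d → Option (Fin m × Bool), ∀ j b, inC t j b ↔ ∃ h : j < m, (⟨j, h⟩, b) ∈ C := by
  rcases Finset.eq_empty_or_nonempty C with h | h
  · refine ⟨fun _ => none, ?_⟩
    intro j b
    simp [inC, h]
  · obtain ⟨t, ht⟩ := exists_image_eq h hC
    refine ⟨fun a => some (t a), ?_⟩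
    intro j b
    rw [← ht]
    simp only [inC, Option.some.injEq, Finset.mem_image, Finset.mem_univ, true_and]
    constructor
    · rintro ⟨a, h, ha⟩; exact ⟨h, a, ha⟩
    · rintro ⟨h, a, ha⟩; exact ⟨a, h, ha⟩

lemma acc_iff (out : Fin m → Fml n) (d g : ℕ) (x : Fin n → Bool)
    (hg : lead (applyF out x) ≤ g) :
    (pWSATd d).Q m (applyF out x) ↔ ∃ c : Ct g m, ∀ h ∈ Hx out d g c, h x := by
  set y := applyF out x with hy
  have hgate : ∀ (s : ℕ) (leaf : Bool → ℕ → Prop), gate s leaf (2 - 1) true 0 ↔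
      ∀ a < s, leaf false a := by
    intro s leaf
    simp [gate]
  constructor
  · rintro ⟨hW, V, hV, hVc, hgt⟩
    rw [hgate] at hgt
    obtain ⟨κ, hκ⟩ : ∃ κ, κ = lead y := ⟨_, rfl⟩
    have hfan : fan 2 y = sT 2 m κ := fan_eq hκ.symm
    have hVlt : ∀ j ∈ V, j < sT 2 m κ := by
      intro j hj
      have := hV hj
      rw [vars, Finset.mem_filter, Finset.mem_range, hfan] at this
      exact this.1
    let cc : Ct g m := ⟨⟨κ, by omega⟩, fun a => ⟨V.orderEmbOfFin (hVc.trans hκ.symm) a,
      lt_of_lt_of_le (hVlt _ (Finset.orderEmbOfFin_mem _ _ _)) (sT_le _ _ _)⟩⟩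
    have hVC : VC cc = V := by
      unfold VC
      exact Finset.image_orderEmbOfFin_univ V (hVc.trans hκ.symm)
    refine ⟨cc, ?_⟩
    intro h hh
    rcases hh with ⟨p, hp, rfl⟩ | rfl | rfl | ⟨a, rfl⟩ | rfl | ⟨t, ht, rfl⟩
    · show (bitF out p).Holds x
      rw [holds_bitF]
      exact (lead_eq_iff.1 hκ.symm).1 p hp
    · show ¬ (bitF out κ).Holds x
      rw [holds_bitF]
      have := (lead_eq_iff.1 hκ.symm).2
      simp [← hy, this]
    · show (VC cc).card = κ ∧ ∀ j ∈ VC cc, j < sT 2 m κ
      rw [hVC]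
      exact ⟨hVc.trans hκ.symm, hVlt⟩
    · show (usedG 2 out κ (cc.2 a)).Holds x
      have hmem : (cc.2 a).val ∈ V := Finset.orderEmbOfFin_mem _ _ _
      rw [holds_usedG out hκ.symm (hVlt _ hmem)]
      exact hV hmem
    · show (WG out κ d).Holds x
      rw [holds_WG out d hκ.symm]
      intro i hi
      exact hW i (by rw [hfan]; exact hi)
    · show ¬ (PG out κ t).Holds x
      rw [holds_PG out t hκ.symm]
      rintro ⟨i, hi, hall⟩
      have h1 := hgt i (by rw [hfan]; exact hi)
      unfold botL at h1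
      rw [if_neg (by simp), hfan] at h1
      obtain ⟨j, hj, b, hl, hjb⟩ := h1
      have h2 := (hall j hj b).2 hl
      refine ht j b h2 ?_
      rw [hVC]
      exact hjb
  · rintro ⟨c, hc⟩
    obtain ⟨κ, hκ⟩ : ∃ κ, κ = c.1.val := ⟨_, rfl⟩
    have hlead : lead y = κ := by
      rw [lead_eq_iff]
      constructor
      · intro p hp
        rw [hκ] at hp
        have := hc _ (Or.inl ⟨p, hp, rfl⟩)
        rwa [holds_bitF] at this
      · have := hc _ (Or.inr (Or.inl rfl))
        rw [holds_bitF, ← hκ] at this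
        simpa using this
    have hfan : fan 2 y = sT 2 m κ := fan_eq hlead
    have hV := hc _ (Or.inr (Or.inr (Or.inl rfl)))
    simp only [← hκ] at hV
    have hW := hc _ (Or.inr (Or.inr (Or.inr (Or.inr (Or.inl rfl)))))
    simp only [← hκ] at hW
    rw [holds_WG out d hlead] at hW
    refine ⟨fun i hi => hW i (by rw [← hfan]; exact hi), VC c, ?_, hV.1.trans hlead.symm, ?_⟩
    · intro j hj
      have hj' := hj
      unfold VC at hj'
      rw [Finset.mem_image] at hj'
      obtain ⟨a, -, rfl⟩ := hj'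
      have hu := hc _ (Or.inr (Or.inr (Or.inr (Or.inl ⟨a, rfl⟩))))
      simp only [← hκ] at hu
      rw [holds_usedG out hlead (hV.2 _ hj)] at hu
      exact hu
    · rw [hgate]
      intro i hi
      by_contra hcon
      unfold botL at hcon
      rw [if_neg (by simp)] at hcon
      push Not at hcon
      rw [hfan] at hi
      -- the clause as a set of literals
      set C : Finset (Fin m × Bool) := Finset.univ.filter
        (fun l => l.1.val < sT 2 m κ ∧ litAt 2 y i l.1 l.2) with hCdef
      have hCcard : C.card ≤ d := by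
        refine le_trans ?_ (hW i hi)
        rw [clause_card hlead]
        apply Finset.card_le_card_of_surjOn
          (fun l : Fin (sT 2 m κ) × Bool =>
            ((⟨l.1.val, lt_of_lt_of_le l.1.2 (sT_le _ _ _)⟩, l.2) : Fin m × Bool))
        rintro ⟨j, b⟩ hl
        rw [Finset.mem_coe, hCdef, Finset.mem_filter] at hl
        refine ⟨(⟨j.val, hl.2.1⟩, b), ?_, rfl⟩
        rw [Finset.mem_coe, Finset.mem_filter]
        exact ⟨Finset.mem_univ _, hl.2.2⟩
      obtain ⟨t, ht⟩ := exists_inC C hCcard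
      have hF : Fals c t := by
        intro j b hjb
        rw [ht] at hjb
        obtain ⟨hjm, hmem⟩ := hjb
        rw [hCdef, Finset.mem_filter] at hmem
        have := hcon j (by rw [hfan]; exact hmem.2.1) b hmem.2.2
        intro hiff
        rcases this with ⟨h1, h2⟩ | ⟨h1, h2⟩
        · exact h2 (hiff.1 h1)
        · exact h1 (hiff.2 h2)
      have hP := hc _ (Or.inr (Or.inr (Or.inr (Or.inr (Or.inr ⟨t, hF, rfl⟩)))))
      simp only [← hκ] at hP
      apply hP
      rw [holds_PG out t hlead]
      refine ⟨i, hi, ?_⟩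
      intro j hj b
      rw [ht]
      constructor
      · rintro ⟨hjm, hmem⟩
        rw [hCdef, Finset.mem_filter] at hmem
        exact hmem.2.2
      · intro hl
        refine ⟨lt_of_lt_of_le hj (sT_le _ _ _), ?_⟩
        rw [hCdef, Finset.mem_filter]
        exact ⟨Finset.mem_univ _, hj, hl⟩

end

end Pool.Agent.H68WH
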