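import Pool.Agent.H68WH.Hash
import Pool.Agent.H68WH.Two
import Pool.Agent.H68WH.SipserMain

set_option linter.unusedSectionVars false

/-! The target `p-WSAT(Γ_{T,1})`: threshold formulas, certificates, locality. -/

namespace Pool.Agent.H68WH

open Finset Classical
open Pool.Agent.H592R2

noncomputable section

variable {n m : ℕ}

/-- at least `a + 1` literals of sign `b` occur in the bottom gate `i` -/
def ThrG (T : ℕ) (out : Fin m → Fml n) (κ i : ℕ) (b : Bool) (a : ℕ) : Fml n :=
  orF (fun l : Fin ((a + 1) ^ (a + 1) * ((a + 1) * sT T m κ + 1)) =>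
    andF (fun c : Fin (a + 1) => orF (fun j : Fin (sT T m κ) =>
      if (exists_hash (sT T m κ) a).choose l j = c then litG T out κ i j b else falseF)))

lemma holds_ThrG (T : ℕ) (out : Fin m → Fml n) (κ i : ℕ) (b : Bool) (a : ℕ) (x : Fin n → Bool) :
    (ThrG T out κ i b a).Holds x ↔ a + 1 ≤ (Finset.univ.filter
      (fun j : Fin (sT T m κ) => (litG T out κ i j b).Holds x)).card := by
  unfold ThrG
  simp only [holds_orF, holds_andF]
  set h := (exists_hash (sT T m κ) a).choose with hh
  have hspec := (exists_hash (sT T m κ) a).choose_spec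
  rw [← hh] at hspec
  have hval : ∀ l c (j : Fin (sT T m κ)), (if h l j = c then litG T out κ i j b
      else falseF : Fml n).Holds x ↔ h l j = c ∧ (litG T out κ i j b).Holds x := by
    intro l c j
    split_ifs with h1
    · simp [h1]
    · simp [h1]
  simp only [hval]
  constructor
  · rintro ⟨l, hl⟩
    choose j hj using hl
    have h1 : (Finset.univ : Finset (Fin (a + 1))).card ≤ (Finset.univ.filter
        (fun j : Fin (sT T m κ) => (litG T out κ i j b).Holds x)).card := by
      apply Finset.card_le_card_of_injOn j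
      · intro c _
        rw [Finset.mem_coe, Finset.mem_filter]
        exact ⟨Finset.mem_univ _, (hj c).2⟩
      · intro c _ c' _ hcc'
        rw [← (hj c).1, ← (hj c').1, hcc']
    rwa [Finset.card_univ, Fintype.card_fin] at h1
  · intro hc
    have h1 : Fintype.card (Fin (a + 1)) ≤ Fintype.card (Finset.univ.filter
        (fun j : Fin (sT T m κ) => (litG T out κ i j b).Holds x)) := by
      rw [Fintype.card_fin, Fintype.card_coe]; exact hc
    obtain ⟨e⟩ := Function.Embedding.nonempty_of_card_le h1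
    obtain ⟨l, hl⟩ := hspec (fun c => (e c).1)
      (fun c c' hcc' => e.injective (Subtype.ext hcc'))
    have hsurj := Finite.injective_iff_surjective.mp hl
    refine ⟨l, fun c => ?_⟩
    obtain ⟨c', hc'⟩ := hsurj c
    exact ⟨(e c').1, hc', (Finset.mem_filter.mp (e c').2).2⟩

section bounds
variable {D X : ℕ} {out : Fin m → Fml n}

lemma depth_ThrG (hD : ∀ i, (out i).depth ≤ D) (T κ i b a) : (ThrG T out κ i b a).depth ≤ D + 4 := by
  unfold ThrG
  apply depth_orF_le
  intro l
  apply depth_andF_le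
  intro c
  apply depth_orF_le
  intro j
  split_ifs
  · exact depth_litG hD _ _ _ _ _
  · rw [depth_falseF]; omega

/-- constant in the size bound of the threshold formulas -/
def Cthr (g : ℕ) : ℕ := (g + 1) ^ (g + 1) * ((g + 2) * (2 * g + 3)) + 1

lemma size_ThrG (hX1 : 1 ≤ X) (hX : ∀ i, (out i).size ≤ X) (hm : m ≤ X) (T κ i b) {a g : ℕ}
    (ha : a ≤ g) : (ThrG T out κ i b a).size ≤ Cthr g * X ^ 3 := by
  have hs := (sT_le T m κ).trans hm
  have h1 : ∀ (l : Fin ((a + 1) ^ (a + 1) * ((a + 1) * sT T m κ + 1))) (c : Fin (a + 1)),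
      (orF (fun j : Fin (sT T m κ) =>
      if (exists_hash (sT T m κ) a).choose l j = c then litG T out κ i j b
        else falseF)).size ≤ X * X + 1 := by
    intro l c
    have := size_orF_le (f := fun j : Fin (sT T m κ) =>
      if (exists_hash (sT T m κ) a).choose l j = c then litG T out κ i j b else falseF) (s := X)
      (by
        intro j
        split_ifs
        · exact size_litG hX1 hX _ _ _ _ _
        · rw [size_falseF]; exact hX1)
    rw [Fintype.card_fin] at this
    exact this.trans (Nat.add_le_add_right (Nat.mul_le_mul_right _ hs) _)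
  have h2 : ∀ l : Fin ((a + 1) ^ (a + 1) * ((a + 1) * sT T m κ + 1)),
      (andF (fun c : Fin (a + 1) => orF (fun j : Fin (sT T m κ) =>
      if (exists_hash (sT T m κ) a).choose l j = c then litG T out κ i j b
        else falseF))).size ≤ (g + 1) * (X * X + 1) + 1 := by
    intro l
    have := size_andF_le (h1 l)
    rw [Fintype.card_fin] at this
    exact this.trans (Nat.add_le_add_right (Nat.mul_le_mul_right _ (by omega)) _)
  have h3 := size_orF_le h2
  rw [Fintype.card_fin] at h3
  have h4 : (a + 1) ^ (a + 1) * ((a + 1) * sT T m κ + 1) ≤ (g + 1) ^ (g + 1) * ((g + 2) * X) := by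
    apply Nat.mul_le_mul
    · exact (Nat.pow_le_pow_left (by omega) _).trans (Nat.pow_le_pow_right (by omega) (by omega))
    · calc (a + 1) * sT T m κ + 1 ≤ (g + 1) * X + X :=
            Nat.add_le_add (Nat.mul_le_mul (by omega) hs) hX1
        _ = (g + 2) * X := by ring
  have hXX : 1 ≤ X * X := Nat.mul_pos hX1 hX1
  have h5 : (g + 1) * (X * X + 1) + 1 ≤ (2 * g + 3) * (X * X) := by
    calc (g + 1) * (X * X + 1) + 1 ≤ (g + 1) * (X * X + X * X) + X * X :=
          Nat.add_le_add (Nat.mul_le_mul_left _ (Nat.add_le_add_left hXX _)) hXX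
      _ = (2 * g + 3) * (X * X) := by ring
  have hX3 : 1 ≤ X ^ 3 := Nat.one_le_pow _ _ hX1
  calc (ThrG T out κ i b a).size ≤ (a + 1) ^ (a + 1) * ((a + 1) * sT T m κ + 1) *
        ((g + 1) * (X * X + 1) + 1) + 1 := h3
    _ ≤ (g + 1) ^ (g + 1) * ((g + 2) * X) * ((2 * g + 3) * (X * X)) + X ^ 3 :=
        Nat.add_le_add (Nat.mul_le_mul h4 h5) hX3
    _ = Cthr g * X ^ 3 := by unfold Cthr; ring

end bounds

lemma botL_true_iff (s : ℕ) (lit : ℕ → Bool → Prop) (V : Finset ℕ) :
    botL s lit V true ↔ ¬ (∃ j < s, j ∈ V ∧ lit j false) ∧ ¬ (∃ j < s, j ∉ V ∧ lit j true) := by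
  unfold botL
  rw [if_pos rfl]
  constructor
  · intro h
    constructor
    · rintro ⟨j, hj, hV, hl⟩
      have := h j hj false hl
      simp [hV] at this
    · rintro ⟨j, hj, hV, hl⟩
      have := h j hj true hl
      simp [hV] at this
  · rintro ⟨h1, h2⟩ j hj b hl
    cases b
    · simp only [Bool.false_eq_true, iff_false]
      intro hV; exact h1 ⟨j, hj, hV, hl⟩
    · simp only [iff_true]
      by_contra hV; exact h2 ⟨j, hj, hV, hl⟩

lemma botL_false_iff (s : ℕ) (lit : ℕ → Bool → Prop) (V : Finset ℕ) :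
    botL s lit V false ↔ (∃ j < s, j ∈ V ∧ lit j true) ∨ (∃ j < s, j ∉ V ∧ lit j false) := by
  unfold botL
  rw [if_neg (by simp)]
  constructor
  · rintro ⟨j, hj, b, hl, h⟩
    cases b
    · right; exact ⟨j, hj, by simpa using h, hl⟩
    · left; exact ⟨j, hj, by simpa using h, hl⟩
  · rintro (⟨j, hj, hV, hl⟩ | ⟨j, hj, hV, hl⟩)
    · exact ⟨j, hj, true, hl, by simp [hV]⟩
    · exact ⟨j, hj, false, hl, by simp [hV]⟩

/-- indices of the pool -/
abbrev I3 (g m : ℕ) : Type :=
  Fin (g + 1) × (Fin (g + 1) ⊕ (Fin m ⊕ ((Fin m × Fin m × Bool) ⊕ (Fin m × Bool × Fin (g + 1)))))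

/-- the pool -/
def pool3 (T : ℕ) (out : Fin m → Fml n) (g : ℕ) : I3 g m → Fml n
  | (_, Sum.inl p) => bitF out p
  | (κ, Sum.inr (Sum.inl j)) => usedG T out κ j
  | (κ, Sum.inr (Sum.inr (Sum.inl t))) => litG T out κ t.1 t.2.1 t.2.2
  | (κ, Sum.inr (Sum.inr (Sum.inr t))) => ThrG T out κ t.1 t.2.1 t.2.2

/-- the value of the bottom gate `i` for a certificate -/
def leafG (T : ℕ) (out : Fin m → Fml n) {g : ℕ} (c : Ct g m) (x : Fin n → Bool) (β : Bool)
    (i : ℕ) : Prop :=
  botL (sT T m c.1) (fun j b => (litG T out c.1 i j b).Holds x) (VC c) β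

/-- the side conditions for a certificate -/
def condG (T : ℕ) (out : Fin m → Fml n) {g : ℕ} (c : Ct g m) (x : Fin n → Bool) : Prop :=
  (∀ p < c.1.val, (bitF out p).Holds x) ∧ ¬ (bitF out c.1.val).Holds x ∧
    ((VC c).card = c.1.val ∧ ∀ j ∈ VC c, j < sT T m c.1) ∧
    ∀ a, (usedG T out c.1 (c.2 a)).Holds x

lemma acc3_iff {T : ℕ} (out : Fin m → Fml n) (g : ℕ) (x : Fin n → Bool)
    (hg : lead (applyF out x) ≤ g) :
    (pWSAT T).Q m (applyF out x) ↔ ∃ c : Ct g m, condG T out c x ∧
      gate (sT T m c.1) (leafG T out c x) (T - 1) true 0 := by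
  set y := applyF out x with hy
  have hleaf : ∀ (κ : ℕ) (hκ : lead y = κ) (V : Finset ℕ),
      gate (fan T y) (fun β i => botL (fan T y) (litAt T y i) V β) (T - 1) true 0 ↔
      gate (sT T m κ) (fun β i => botL (sT T m κ)
        (fun j b => (litG T out κ i j b).Holds x) V β) (T - 1) true 0 := by
    intro κ hκ V
    rw [fan_eq hκ]
    apply gate_congr0
    intro i _
    have : (litAt T y i) = fun j b => (litG T out κ i j b).Holds x := by
      funext j b
      exact propext (holds_litG out i j b hκ).symm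
    rw [this]
  constructor
  · rintro ⟨V, hV, hVc, hgt⟩
    obtain ⟨κ, hκ⟩ : ∃ κ, κ = lead y := ⟨_, rfl⟩
    have hfan : fan T y = sT T m κ := fan_eq hκ.symm
    have hVlt : ∀ j ∈ V, j < sT T m κ := by
      intro j hj
      have := hV hj
      rw [vars, Finset.mem_filter, Finset.mem_range, hfan] at this
      exact this.1
    let cc : Ct g m := ⟨⟨κ, by omega⟩, fun a => ⟨V.orderEmbOfFin (hVc.trans hκ.symm) a,
      lt_of_lt_of_le (hVlt _ (Finset.orderEmbOfFin_mem _ _ _)) (sT_le _ _ _)⟩⟩
    have hVC : VC cc = V := by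
      unfold VC
      exact Finset.image_orderEmbOfFin_univ V (hVc.trans hκ.symm)
    refine ⟨cc, ⟨?_, ?_, ?_, ?_⟩, ?_⟩
    · intro p hp
      rw [holds_bitF]
      exact (lead_eq_iff.1 hκ.symm).1 p hp
    · show ¬ (bitF out κ).Holds x
      rw [holds_bitF]
      have := (lead_eq_iff.1 hκ.symm).2
      simp [← hy, this]
    · rw [hVC]
      exact ⟨hVc.trans hκ.symm, hVlt⟩
    · intro a
      show (usedG T out κ (cc.2 a)).Holds x
      have hmem : (cc.2 a).val ∈ V := Finset.orderEmbOfFin_mem _ _ _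
      rw [holds_usedG out hκ.symm (hVlt _ hmem)]
      exact hV hmem
    · have h1 := (hleaf κ hκ.symm V).1 hgt
      rw [← hVC] at h1
      exact h1
  · rintro ⟨c, ⟨hc1, hc2, hc3, hc4⟩, hgt⟩
    obtain ⟨κ, hκ⟩ : ∃ κ, κ = c.1.val := ⟨_, rfl⟩
    have hlead : lead y = κ := by
      rw [lead_eq_iff]
      constructor
      · intro p hp
        rw [hκ] at hp
        have := hc1 p hp
        rwa [holds_bitF] at this
      · rw [holds_bitF, ← hκ] at hc2
        simpa using hc2
    refine ⟨VC c, ?_, (hc3.1.trans hκ.symm).trans hlead.symm, ?_⟩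
    · intro j hj
      have hj' := hj
      unfold VC at hj'
      rw [Finset.mem_image] at hj'
      obtain ⟨a, -, rfl⟩ := hj'
      have hu := hc4 a
      rw [holds_usedG out (hlead.trans hκ) (hc3.2 _ hj)] at hu
      exact hu
    · rw [hleaf κ hlead (VC c), hκ]
      exact hgt

/-- the pool indices that matter for a bottom gate -/
def Il {g : ℕ} (c : Ct g m) (i : Fin m) : Finset (I3 g m) :=
  (Finset.univ : Finset (Fin c.1.val × Bool)).image
    (fun t => (c.1, Sum.inr (Sum.inr (Sum.inl (i, c.2 t.1, t.2))))) ∪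
  (Finset.univ : Finset (Bool × Fin (g + 1))).image
    (fun t => (c.1, Sum.inr (Sum.inr (Sum.inr (i, t.1, t.2)))))

lemma card_Il_le {g : ℕ} (c : Ct g m) (i : Fin m) : (Il c i).card ≤ 4 * (g + 1) := by
  unfold Il
  refine (Finset.card_union_le _ _).trans ?_
  have h1 := Finset.card_image_le (s := (Finset.univ : Finset (Fin c.1.val × Bool)))
    (f := fun t => ((c.1, Sum.inr (Sum.inr (Sum.inl (i, c.2 t.1, t.2)))) : I3 g m))
  have h2 := Finset.card_image_le (s := (Finset.univ : Finset (Bool × Fin (g + 1))))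
    (f := fun t => ((c.1, Sum.inr (Sum.inr (Sum.inr (i, t.1, t.2)))) : I3 g m))
  rw [Finset.card_univ, Fintype.card_prod, Fintype.card_fin, Fintype.card_bool] at h1
  rw [Finset.card_univ, Fintype.card_prod, Fintype.card_fin, Fintype.card_bool] at h2
  have := c.1.2
  omega

lemma leaf_det {T g : ℕ} (out : Fin m → Fml n) (c : Ct g m) (i : Fin m) (β : Bool)
    (x x' : Fin n → Bool) (h : ∀ t ∈ Il c i, ((pool3 T out g t).Holds x ↔
      (pool3 T out g t).Holds x')) (hx : leafG T out c x β i) : leafG T out c x' β i := by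
  have hlit : ∀ (b : Bool) (j : Fin (sT T m c.1)), j.val ∈ VC c →
      ((litG T out c.1 i j b).Holds x ↔ (litG T out c.1 i j b).Holds x') := by
    intro b j hj
    unfold VC at hj
    rw [Finset.mem_image] at hj
    obtain ⟨a, -, ha⟩ := hj
    have := h (c.1, Sum.inr (Sum.inr (Sum.inl (i, c.2 a, b))))
      (Finset.mem_union_left _ (Finset.mem_image.mpr ⟨(a, b), Finset.mem_univ _, rfl⟩))
    simp only [pool3, ha] at this
    exact this
  have hthr : ∀ (b : Bool) (a : ℕ), a ≤ g →
      ((ThrG T out c.1 i b a).Holds x ↔ (ThrG T out c.1 i b a).Holds x') := by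
    intro b a ha
    exact h (c.1, Sum.inr (Sum.inr (Sum.inr (i, b, ⟨a, by omega⟩))))
      (Finset.mem_union_right _ (Finset.mem_image.mpr ⟨(b, ⟨a, by omega⟩),
        Finset.mem_univ _, rfl⟩))
  -- literals outside of the certificate
  have hout : ∀ (x : Fin n → Bool) (b : Bool), (∃ j < sT T m c.1, j ∉ VC c ∧
      (litG T out c.1 i j b).Holds x) ↔
      (ThrG T out c.1 i b (Finset.univ.filter (fun j : Fin (sT T m c.1) => j.val ∈ VC c ∧
        (litG T out c.1 i j b).Holds x)).card).Holds x := by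
    intro x b
    rw [holds_ThrG]
    set N := Finset.univ.filter (fun j : Fin (sT T m c.1) => (litG T out c.1 i j b).Holds x)
    set N' := Finset.univ.filter (fun j : Fin (sT T m c.1) => j.val ∈ VC c ∧
        (litG T out c.1 i j b).Holds x)
    have hsub : N' ⊆ N := by
      intro j hj
      exact Finset.mem_filter.mpr ⟨Finset.mem_univ _, ((Finset.mem_filter.mp hj).2).2⟩
    constructor
    · rintro ⟨j, hj, hV, hl⟩
      apply Nat.succ_le_of_lt
      apply Finset.card_lt_card
      refine ⟨hsub, ?_⟩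
      intro hle
      have := hle (Finset.mem_filter.mpr ⟨Finset.mem_univ (⟨j, hj⟩ : Fin (sT T m c.1)), hl⟩)
      exact hV ((Finset.mem_filter.mp this).2).1
    · intro hc
      by_contra hcon
      push Not at hcon
      have : N ⊆ N' := by
        intro j hj
        have hl := (Finset.mem_filter.mp hj).2
        refine Finset.mem_filter.mpr ⟨Finset.mem_univ _, ?_, hl⟩
        by_contra hV
        exact hcon j j.2 hV hl
      have := Finset.card_le_card this
      omega
  have hcardV : (VC c).card ≤ g := by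
    unfold VC
    refine Finset.card_image_le.trans ?_
    rw [Finset.card_univ, Fintype.card_fin]
    have := c.1.2
    omega
  have hcardN : ∀ (x : Fin n → Bool) (b : Bool), (Finset.univ.filter
      (fun j : Fin (sT T m c.1) => j.val ∈ VC c ∧ (litG T out c.1 i j b).Holds x)).card ≤ g := by
    intro x b
    refine le_trans ?_ hcardV
    apply Finset.card_le_card_of_injOn Fin.val
    · intro j hj
      exact ((Finset.mem_filter.mp hj).2).1
    · intro j _ j' _ h
      exact Fin.ext h
  have hOut : ∀ b : Bool, (∃ j < sT T m c.1, j ∉ VC c ∧ (litG T out c.1 i j b).Holds x) ↔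
      (∃ j < sT T m c.1, j ∉ VC c ∧ (litG T out c.1 i j b).Holds x') := by
    intro b
    rw [hout x b, hout x' b]
    have heq : (Finset.univ.filter (fun j : Fin (sT T m c.1) => j.val ∈ VC c ∧
        (litG T out c.1 i j b).Holds x)) = (Finset.univ.filter
        (fun j : Fin (sT T m c.1) => j.val ∈ VC c ∧ (litG T out c.1 i j b).Holds x')) := by
      apply Finset.filter_congr
      intro j _
      constructor
      · rintro ⟨h1, h2⟩; exact ⟨h1, (hlit b j h1).1 h2⟩
      · rintro ⟨h1, h2⟩; exact ⟨h1, (hlit b j h1).2 h2⟩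
    rw [heq]
    exact hthr b _ (hcardN x' b)
  have hIn : ∀ b : Bool, (∃ j < sT T m c.1, j ∈ VC c ∧ (litG T out c.1 i j b).Holds x) ↔
      (∃ j < sT T m c.1, j ∈ VC c ∧ (litG T out c.1 i j b).Holds x') := by
    intro b
    constructor
    · rintro ⟨j, hj, hV, hl⟩; exact ⟨j, hj, hV, (hlit b ⟨j, hj⟩ hV).1 hl⟩
    · rintro ⟨j, hj, hV, hl⟩; exact ⟨j, hj, hV, (hlit b ⟨j, hj⟩ hV).2 hl⟩
  unfold leafG at hx ⊢
  cases β
  · rw [botL_false_iff] at hx ⊢
    rcases hx with hx | hx
    · left; exact (hIn true).1 hx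
    · right; exact (hOut false).1 hx
  · rw [botL_true_iff] at hx ⊢
    exact ⟨fun h => hx.1 ((hIn false).2 h), fun h => hx.2 ((hOut true).2 h)⟩

/-- the pool indices that matter for the side conditions -/
def Ic {g : ℕ} (c : Ct g m) : Finset (I3 g m) :=
  (Finset.univ : Finset (Fin (g + 1))).image (fun p => (c.1, Sum.inl p)) ∪
  (Finset.univ : Finset (Fin c.1.val)).image (fun a => (c.1, Sum.inr (Sum.inl (c.2 a))))

lemma card_Ic_le {g : ℕ} (c : Ct g m) : (Ic c).card ≤ 4 * (g + 1) := by
  unfold Ic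
  refine (Finset.card_union_le _ _).trans ?_
  have h1 := Finset.card_image_le (s := (Finset.univ : Finset (Fin (g + 1))))
    (f := fun p => ((c.1, Sum.inl p) : I3 g m))
  have h2 := Finset.card_image_le (s := (Finset.univ : Finset (Fin c.1.val)))
    (f := fun a => ((c.1, Sum.inr (Sum.inl (c.2 a))) : I3 g m))
  rw [Finset.card_univ, Fintype.card_fin] at h1 h2
  have := c.1.2
  omega

lemma cond_det {T g : ℕ} (out : Fin m → Fml n) (c : Ct g m)
    (x x' : Fin n → Bool) (h : ∀ t ∈ Ic c, ((pool3 T out g t).Holds x ↔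
      (pool3 T out g t).Holds x')) (hx : condG T out c x) : condG T out c x' := by
  have hbit : ∀ p ≤ g, ((bitF out p).Holds x ↔ (bitF out p).Holds x') := by
    intro p hp
    exact h (c.1, Sum.inl ⟨p, by omega⟩)
      (Finset.mem_union_left _ (Finset.mem_image.mpr ⟨⟨p, by omega⟩, Finset.mem_univ _, rfl⟩))
  have hcg := c.1.2
  obtain ⟨h1, h2, h3, h4⟩ := hx
  refine ⟨?_, ?_, h3, ?_⟩
  · intro p hp
    exact (hbit p (by omega)).1 (h1 p hp)
  · intro hc; exact h2 ((hbit _ (by omega)).2 hc)
  · intro a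
    exact (h (c.1, Sum.inr (Sum.inl (c.2 a)))
      (Finset.mem_union_right _ (Finset.mem_image.mpr ⟨a, Finset.mem_univ _, rfl⟩))).1 (h4 a)

end

end Pool.Agent.H68WH
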