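import Pool.Agent.H592R2.Params

set_option linter.unusedSectionVars false

/-! One round of a random restriction of the lowest gates of an alternating formula. -/

namespace Pool.Agent.H68WH

open Finset Classical
open Pool.Agent.H592R2

noncomputable section

/-- `G` depends only on the coordinates in `K` -/
def LocY (K : Finset ℕ) (G : (ℕ → Bool) → Prop) : Prop :=
  ∀ y y' : ℕ → Bool, (∀ p ∈ K, y p = y' p) → G y → G y'

lemma LocY.not {K : Finset ℕ} {G : (ℕ → Bool) → Prop} (h : LocY K G) :
    LocY K (fun y => ¬ G y) := by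
  intro z z' hzz' hn hG
  exact hn (h z' z (fun v hv => (hzz' v hv).symm) hG)

/-- coordinates: statuses of the `G` gates, values of their `M` leaves each -/
abbrev CrT (G M : ℕ) : Type := Fin G ⊕ (Fin G × Fin M)

instance instDecCrT (G M : ℕ) : DecidableEq (CrT G M) := inferInstance
instance instFtCrT (G M : ℕ) : Fintype (CrT G M) := inferInstance

variable {G M : ℕ} {τ : Type} [Fintype τ] [Nonempty τ] [DecidableEq τ]

/-- values of the leaves: `m0` is the majority value -/
def lv (A Mi : Finset τ) (m0 : Bool) (ω : CrT G M → τ) (z : Fin G → Bool) (p : ℕ) : Bool :=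
  if h : p < G * M then
    (if ω (Sum.inl (finProdFinEquiv.symm (⟨p, h⟩ : Fin (G * M))).1) ∈ A then
      z (finProdFinEquiv.symm (⟨p, h⟩ : Fin (G * M))).1
    else xor m0 (decide (ω (Sum.inr (finProdFinEquiv.symm (⟨p, h⟩ : Fin (G * M)))) ∈ Mi)))
  else false

lemma lv_apply (A Mi : Finset τ) (m0 : Bool) (ω : CrT G M → τ) (z : Fin G → Bool)
    (P : Fin G) (a : Fin M) : lv A Mi m0 ω z (P.val * M + a.val) =
      if ω (Sum.inl P) ∈ A then z P else xor m0 (decide (ω (Sum.inr (P, a)) ∈ Mi)) := by
  have hlt : P.val * M + a.val < G * M := by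
    calc P.val * M + a.val < P.val * M + M := by have := a.2; omega
      _ = (P.val + 1) * M := by ring
      _ ≤ G * M := Nat.mul_le_mul_right _ P.2
  have he : finProdFinEquiv.symm (⟨P.val * M + a.val, hlt⟩ : Fin (G * M)) = (P, a) := by
    rw [Equiv.symm_apply_eq]
    apply Fin.ext
    simp [finProdFinEquiv]; ring
  unfold lv
  rw [dif_pos hlt, he]

/-- gates above the leaves in `K` -/
def Kg (G M : ℕ) (K : Finset ℕ) : Finset (Fin G) :=
  Finset.univ.filter (fun P => ∃ a : Fin M, (finProdFinEquiv (P, a)).val ∈ K)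

lemma card_Kg_le (K : Finset ℕ) : (Kg G M K).card ≤ K.card := by
  have hex : ∀ P ∈ Kg G M K, ∃ a : Fin M, (finProdFinEquiv (P, a)).val ∈ K := by
    intro P hP
    exact (Finset.mem_filter.mp hP).2
  let f : Fin G → ℕ := fun P => if h : ∃ a : Fin M, (finProdFinEquiv (P, a)).val ∈ K then
    (finProdFinEquiv (P, h.choose)).val else 0
  apply Finset.card_le_card_of_injOn f
  · intro P hP
    have h := hex P hP
    simp only [f, dif_pos h]
    exact h.choose_spec
  · intro P hP P' hP' heq
    have h := hex P hP
    have h' := hex P' hP'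
    simp only [f, dif_pos h, dif_pos h'] at heq
    have := finProdFinEquiv.injective (Fin.ext heq)
    exact congrArg Prod.fst this

/-- coordinates seen by leaves in `K` -/
def csT (G M : ℕ) (K : Finset ℕ) : Set (CrT G M) :=
  {c | (∃ P ∈ Kg G M K, c = Sum.inl P) ∨
    ∃ q : Fin G × Fin M, (finProdFinEquiv q).val ∈ K ∧ c = Sum.inr q}

/-- the part of `z` in `K` -/
def resT (K : Finset (Fin G)) (z : Fin G → Bool) : Fin G → Bool :=
  fun P => if P ∈ K then z P else false

lemma resT_eq_iff {K : Finset (Fin G)} {z z' : Fin G → Bool} :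
    resT K z = resT K z' ↔ ∀ P ∈ K, z P = z' P := by
  constructor
  · intro h P hP
    have := congrFun h P
    simpa [resT, hP] using this
  · intro h
    funext P
    by_cases hP : P ∈ K
    · simp [resT, hP, h P hP]
    · simp [resT, hP]

lemma card_image_resT (K : Finset (Fin G)) :
    ((Finset.univ : Finset (Fin G → Bool)).image (resT K)).card ≤ 2 ^ K.card := by
  have h1 : (Finset.univ : Finset (Fin G → Bool)).image (resT K) ⊆
      (Finset.univ : Finset (K → Bool)).image
        (fun f P => if h : P ∈ K then f ⟨P, h⟩ else false) := by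
    intro y hy
    rw [Finset.mem_image] at hy ⊢
    obtain ⟨z, -, rfl⟩ := hy
    refine ⟨fun p => z p.1, Finset.mem_univ _, ?_⟩
    funext P
    by_cases h : P ∈ K
    · simp [resT, h]
    · simp [resT, h]
  calc _ ≤ _ := Finset.card_le_card h1
    _ ≤ (Finset.univ : Finset (K → Bool)).card := Finset.card_image_le
    _ = 2 ^ K.card := by
        rw [Finset.card_univ, Fintype.card_fun, Fintype.card_bool, Fintype.card_coe]

/-- the system of one round -/
def tsys {ι : Type} (A Mi : Finset τ) (m0 : Bool) (K : ι → Finset ℕ)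
    (f : ι → (ℕ → Bool) → Prop) : Sys (CrT G M) (fun _ => τ) (Fin G) (Fin G → Bool) ι where
  K := fun j => Kg G M (K j)
  cs := fun j => csT G M (K j)
  al := fun ω P => ω (Sum.inl P) ∈ A
  Φ := fun j ω z => f j (lv A Mi m0 ω z)
  res := resT

lemma tsys_good {ι : Type} (A Mi : Finset τ) (m0 : Bool) (K : ι → Finset ℕ)
    (f : ι → (ℕ → Bool) → Prop) {S : ℕ} {β : ℝ}
    (hK : ∀ j, (K j).card ≤ S) (hloc : ∀ j, LocY (K j) (f j))
    (hβ0 : 0 ≤ β) (hβ1 : β ≤ 1)
    (hA : β ≤ ((Finset.univ \ A : Finset τ).card : ℝ) / Fintype.card τ)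
    (hM : β ≤ (Mi.card : ℝ) / Fintype.card τ)
    (hM' : β ≤ ((Finset.univ \ Mi : Finset τ).card : ℝ) / Fintype.card τ) :
    (tsys (G := G) (M := M) A Mi m0 K f).Good S S (2 ^ (S ^ 2)) ((A.card : ℝ) / Fintype.card τ)
      (β ^ (S + S ^ 2)) where
  hloc := by
    intro j ω ω' hag
    have h1 : ∀ P ∈ Kg G M (K j), ω (Sum.inl P) = ω' (Sum.inl P) := fun P hP =>
      hag _ (Or.inl ⟨P, hP, rfl⟩)
    have h2 : ∀ q : Fin G × Fin M, (finProdFinEquiv q).val ∈ K j →
        ω (Sum.inr q) = ω' (Sum.inr q) := fun q hq => hag _ (Or.inr ⟨q, hq, rfl⟩)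
    refine ⟨fun z => ?_, fun P hP => ?_⟩
    · simp only [tsys]
      have key : ∀ p ∈ K j, lv A Mi m0 ω z p = lv A Mi m0 ω' z p := by
        intro p hp
        unfold lv
        by_cases hlt : p < G * M
        · rw [dif_pos hlt, dif_pos hlt]
          have hq : (finProdFinEquiv (finProdFinEquiv.symm (⟨p, hlt⟩ : Fin (G * M)))).val ∈
              K j := by
            rw [Equiv.apply_symm_apply]; exact hp
          have hPm : (finProdFinEquiv.symm (⟨p, hlt⟩ : Fin (G * M))).1 ∈ Kg G M (K j) := by
            rw [Kg, Finset.mem_filter]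
            exact ⟨Finset.mem_univ _, _, hq⟩
          rw [h1 _ hPm, h2 _ hq]
        · rw [dif_neg hlt, dif_neg hlt]
      exact ⟨fun h => hloc j _ _ key h, fun h => hloc j _ _ (fun p hp => (key p hp).symm) h⟩
    · simp only [tsys, h1 P hP]
  hres := by
    intro j ω z z' hzz'
    have hzz := resT_eq_iff.1 hzz'
    simp only [tsys]
    intro h
    refine hloc j _ _ ?_ h
    intro p hp
    unfold lv
    split_ifs with hlt hal
    · have hq : (finProdFinEquiv (finProdFinEquiv.symm (⟨p, hlt⟩ : Fin (G * M)))).val ∈
          K j := by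
        rw [Equiv.apply_symm_apply]; exact hp
      have hPm : (finProdFinEquiv.symm (⟨p, hlt⟩ : Fin (G * M))).1 ∈ Kg G M (K j) := by
        rw [Kg, Finset.mem_filter]
        exact ⟨Finset.mem_univ _, _, hq⟩
      exact hzz _ (Finset.mem_filter.mpr ⟨hPm, hal⟩)
    · rfl
    · rfl
  hmono := by
    intro K1 K2 h12 z z' h
    rw [show (tsys (G := G) (M := M) A Mi m0 K f).res = resT from rfl] at h ⊢
    rw [resT_eq_iff] at h ⊢
    exact fun P hP => h P (h12 hP)
  hM := by
    intro K' hK'
    have h1 := card_image_resT K'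
    have h2 : 2 ^ K'.card ≤ 2 ^ (S ^ 2) := by
      apply Nat.pow_le_pow_right (by norm_num)
      calc K'.card ≤ S := hK'.le
        _ ≤ S ^ 2 := Nat.le_self_pow (by norm_num) _
    exact_mod_cast h1.trans h2
  hw := fun j => (card_Kg_le _).trans (hK j)
  hnew := by
    intro H ω0 j N hN hNH
    have hinj : Function.Injective (fun P : Fin G => (Sum.inl P : CrT G M)) := by
      intro P P' h; simpa using h
    calc avg (fun b => ind (∀ P ∈ N, (tsys (G := G) (M := M) A Mi m0 K f).al
          (mix ((tsys (G := G) (M := M) A Mi m0 K f).R H) ω0 b) P))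
        ≤ avg (fun b : CrT G M → τ => ind (∀ c ∈ N.image (fun P : Fin G =>
            (Sum.inl P : CrT G M)), b c ∈ (fun _ : CrT G M => A) c)) := by
          apply avg_mono
          intro b
          apply ind_mono
          intro h c hc
          rw [Finset.mem_image] at hc
          obtain ⟨P, hP, rfl⟩ := hc
          have h1 := h P hP
          have h2 : (Sum.inl P : CrT G M) ∉ (tsys (G := G) (M := M) A Mi m0 K f).R H := by
            rintro ⟨j', hj', hc'⟩
            rcases hc' with ⟨P', hP', he⟩ | ⟨q, hq, he⟩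
            · simp only [Sum.inl.injEq] at he
              subst he
              exact hNH P hP ⟨j', hj', hP'⟩
            · exact absurd he (by simp)
          simp only [tsys] at h1 h2
          rwa [mix_not_mem h2] at h1
      _ = ((A.card : ℝ) / Fintype.card τ) ^ N.card := by
          rw [avg_box, Finset.prod_const, Finset.card_image_of_injective _ hinj]
  hsat := by
    intro H ω1 j z hΦ
    set s := tsys (G := G) (M := M) A Mi m0 K f with hs
    set x : ℕ → Bool := lv A Mi m0 ω1 z with hx
    have hf : f j x := hΦ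
    let F : Finset (CrT G M) :=
      ((Kg G M (K j)).filter (fun P => (Sum.inl P : CrT G M) ∉ s.R H)).image (fun P => Sum.inl P) ∪
      ((Finset.univ : Finset (Fin G × Fin M)).filter (fun q => (finProdFinEquiv q).val ∈ K j ∧
        (Sum.inr q : CrT G M) ∉ s.R H)).image (fun q => Sum.inr q)
    let B : CrT G M → Finset τ := fun c => match c with
      | Sum.inl _ => Finset.univ \ A
      | Sum.inr q => if x (finProdFinEquiv q).val = m0 then Finset.univ \ Mi else Mi
    have hcard : F.card ≤ S + S ^ 2 := by
      refine (Finset.card_union_le _ _).trans ?_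
      apply Nat.add_le_add
      · exact Finset.card_image_le.trans ((Finset.card_filter_le _ _).trans
          ((card_Kg_le _).trans (hK j)))
      · refine Finset.card_image_le.trans ?_
        have h1 : ((Finset.univ : Finset (Fin G × Fin M)).filter (fun q =>
            (finProdFinEquiv q).val ∈ K j ∧ (Sum.inr q : CrT G M) ∉ s.R H)).card ≤ (K j).card := by
          apply Finset.card_le_card_of_injOn (fun q => (finProdFinEquiv q).val)
          · intro q hq
            exact ((Finset.mem_filter.mp hq).2).1
          · intro q _ q' _ heq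
            exact finProdFinEquiv.injective (Fin.ext heq)
        calc _ ≤ S := h1.trans (hK j)
          _ ≤ S ^ 2 := Nat.le_self_pow (by norm_num) _
    have hbox : β ^ (S + S ^ 2) ≤ avg (fun b : CrT G M → τ => ind (∀ c ∈ F, b c ∈ B c)) := by
      rw [avg_box]
      calc β ^ (S + S ^ 2) ≤ β ^ F.card := pow_le_pow_of_le_one hβ0 hβ1 hcard
        _ = ∏ _c ∈ F, β := by rw [Finset.prod_const]
        _ ≤ _ := by
          apply Finset.prod_le_prod (fun _ _ => hβ0)
          intro c _
          rcases c with c | q
          · exact hA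
          · simp only [B]
            split_ifs
            · exact hM'
            · exact hM
    refine hbox.trans (avg_mono ?_)
    intro b
    apply ind_mono
    intro hb
    have hdead : ∀ P ∈ Kg G M (K j), (Sum.inl P : CrT G M) ∉ s.R H →
        mix (s.R H) ω1 b (Sum.inl P) ∉ A := by
      intro P hP hPR
      rw [mix_not_mem hPR]
      have h2 := hb (Sum.inl P) (Finset.mem_union_left _ (Finset.mem_image_of_mem _
        (Finset.mem_filter.mpr ⟨hP, hPR⟩)))
      simp only [B, Finset.mem_sdiff, Finset.mem_univ, true_and] at h2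
      exact h2
    constructor
    · intro P hP hPH
      apply hdead P hP
      rintro ⟨j', hj', hc'⟩
      rcases hc' with ⟨P', hP', he⟩ | ⟨q, hq, he⟩
      · simp only [Sum.inl.injEq] at he
        subst he
        exact hPH ⟨j', hj', hP'⟩
      · exact absurd he (by simp)
    · show f j (lv A Mi m0 (mix (s.R H) ω1 b) z)
      refine hloc j _ _ ?_ hf
      intro p hp
      rw [hx]
      by_cases hlt : p < G * M
      swap
      · unfold lv; rw [dif_neg hlt, dif_neg hlt]
      obtain ⟨q, hq⟩ : ∃ q, finProdFinEquiv.symm (⟨p, hlt⟩ : Fin (G * M)) = q := ⟨_, rfl⟩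
      have hqp : (finProdFinEquiv q).val = p := by
        rw [← hq, Equiv.apply_symm_apply]
      have hqK : (finProdFinEquiv q).val ∈ K j := by rw [hqp]; exact hp
      have hPm : q.1 ∈ Kg G M (K j) := by
        rw [Kg, Finset.mem_filter]
        exact ⟨Finset.mem_univ _, q.2, hqK⟩
      have hxp : x (finProdFinEquiv q).val = lv A Mi m0 ω1 z p := by rw [hqp]
      -- value after resampling
      have hnew : lv A Mi m0 (mix (s.R H) ω1 b) z p =
          if mix (s.R H) ω1 b (Sum.inl q.1) ∈ A then z q.1
          else xor m0 (decide (mix (s.R H) ω1 b (Sum.inr q) ∈ Mi)) := by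
        unfold lv; rw [dif_pos hlt, hq]
      have hold : lv A Mi m0 ω1 z p =
          if ω1 (Sum.inl q.1) ∈ A then z q.1
          else xor m0 (decide (ω1 (Sum.inr q) ∈ Mi)) := by
        unfold lv; rw [dif_pos hlt, hq]
      rw [hnew]
      by_cases hal : mix (s.R H) ω1 b (Sum.inl q.1) ∈ A
      · rw [if_pos hal]
        have hrev : (Sum.inl q.1 : CrT G M) ∈ s.R H := by
          by_contra hn
          exact hdead q.1 hPm hn hal
        rw [mix_mem hrev] at hal
        rw [hold, if_pos hal]
      · rw [if_neg hal]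
        by_cases hrev : (Sum.inr q : CrT G M) ∈ s.R H
        · -- the leaf is revealed, so is the status
          have hrevP : (Sum.inl q.1 : CrT G M) ∈ s.R H := by
            obtain ⟨j', hj', hc'⟩ := hrev
            rcases hc' with ⟨P', hP', he⟩ | ⟨q', hq', he⟩
            · exact absurd he (by simp)
            · simp only [Sum.inr.injEq] at he
              subst he
              refine ⟨j', hj', Or.inl ⟨q.1, ?_, rfl⟩⟩
              rw [Kg, Finset.mem_filter]
              exact ⟨Finset.mem_univ _, q.2, hq'⟩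
          rw [mix_mem hrevP] at hal
          rw [hold, if_neg hal, mix_mem hrev]
        · have h2 := hb (Sum.inr q) (Finset.mem_union_right _ (Finset.mem_image_of_mem _
            (Finset.mem_filter.mpr ⟨Finset.mem_univ _, hqK, hrev⟩)))
          simp only [B] at h2
          rw [mix_not_mem hrev]
          by_cases hm : x (finProdFinEquiv q).val = m0
          · rw [if_pos hm] at h2
            have h3 : b (Sum.inr q) ∉ Mi := (Finset.mem_sdiff.mp h2).2
            rw [← hxp, hm]
            simp [h3]
          · rw [if_neg hm] at h2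
            rw [← hxp]
            simp only [h2, decide_true, Bool.xor_true]
            revert hm
            cases x (finProdFinEquiv q).val <;> cases m0 <;> simp

/-- collapse of a disjunction of local functions -/
theorem tree_collapse {ι : Type} {A Mi : Finset τ} (m0 : Bool) {S : ℕ} {β c u : ℝ}
    (hP : P1 A Mi S β c u) (f : ι → (ℕ → Bool) → Prop)
    (hf : ∀ j, ∃ K : Finset ℕ, K.card < S ∧ LocY K (f j)) (L : List ι) :
    avg (fun ω : CrT G M → τ => ind (¬ ∃ K : Finset (Fin G), K.card < S ∧
      ∀ z z' : Fin G → Bool, (∀ P ∈ K, z P = z' P) → (∃ j ∈ L, f j (lv A Mi m0 ω z)) →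
        (∃ j ∈ L, f j (lv A Mi m0 ω z')))) ≤ c ^ S := by
  choose K hK hloc using hf
  have hg := tsys_good (G := G) (M := M) A Mi m0 K f (S := S) (β := β)
    (fun j => (hK j).le) hloc hP.hβ0 hP.hβ1 hP.hA hP.hM hP.hM'
  have hcol := Sys.collapse hg (c := c) (u := u) (by exact_mod_cast Nat.one_le_two_pow) hP.hc
    hP.hc1 hP.hu hP.hu1 hP.hp (by exact_mod_cast hP.huw) (by linarith [hP.hS]) L
  refine le_trans (avg_mono ?_) hcol
  intro ω
  apply ind_mono
  rintro hno ⟨K2, hc2, -, hloc2⟩
  apply hno
  exact ⟨K2, hc2, fun z z' hzz' h => hloc2 z z' (resT_eq_iff.mpr hzz') h⟩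

end

end Pool.Agent.H68WH
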